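import Pool.Agent.GL3.PairUB

set_option autoImplicit false

/-!
# Small gaps with a class outside a finite set

The members with a large class are counted by the tail of the class sum, the others by the upper
bound for the near coincidences of two classes.
-/

namespace Pool.Agent.GL3

open Finset Filter Topology

theorem Bad_mono {F F' : Finset ℕ} (h : F ⊆ F') (s T : ℝ) : Bad F' s T ⊆ Bad F s T := by
  classical
  intro n hn
  unfold Bad at hn ⊢
  rw [Finset.mem_filter] at hn ⊢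
  obtain ⟨h1, w, j, w', j', h2, h3, h4, h5, h6, h7, h8, h9, h10⟩ := hn
  refine ⟨h1, w, j, w', j', h2, h3, h4, h5, h6, h7, h8, h9, ?_⟩
  rcases h10 with h10 | h10
  · exact Or.inl fun hw => h10 (h hw)
  · exact Or.inr fun hw => h10 (h hw)

private theorem tau_le_one {w : ℕ} (hw : CF w) (h : τ w ≤ 1) : w = 1 := by
  by_contra hne
  have h2 : 1 < w := lt_of_le_of_ne hw.1 (Ne.symm hne)
  have h3 : (1 : ℝ) < (w : ℝ) ^ ((1 : ℝ) / 3) :=
    Real.one_lt_rpow (by exact_mod_cast h2) (by norm_num)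
  have h4 : (1 : ℝ) ≤ (rad w : ℝ) := by exact_mod_cast rad_pos w
  unfold τ at h
  nlinarith

open Classical in
/-- the numbers of large class -/
private noncomputable def Lg (Z T : ℝ) : Finset ℕ :=
  (PT T).filter fun n => ∃ w j : ℕ, CF w ∧ 0 < j ∧ n = A w * j ^ 3 ∧ ¬ ((w : ℝ) ≤ Z)

private theorem Lg_card {δ C Z T : ℝ} (hC : (∑' w : ℕ, if Z < (w : ℝ) then α w else 0) ≤
    C * Z ^ (δ - 1 / 3)) (hT : 0 ≤ T) : ((Lg Z T).card : ℝ) ≤ T * (C * Z ^ (δ - 1 / 3)) := by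
  classical
  have h1 := card_class_le hT (fun w => (w : ℝ) ≤ Z)
  have h2 : (∑' w : ℕ, (if (w : ℝ) ≤ Z then 0 else α w)) =
      ∑' w : ℕ, if Z < (w : ℝ) then α w else 0 := by
    refine tsum_congr fun w => ?_
    by_cases h : (w : ℝ) ≤ Z
    · rw [if_pos h, if_neg (not_lt.2 h)]
    · rw [if_neg h, if_pos (not_le.1 h)]
  rw [h2] at h1
  exact h1.trans (mul_le_mul_of_nonneg_left hC hT)

open Classical in
/-- the pairs of small classes -/
private noncomputable def Pr (F : Finset ℕ) (Z : ℝ) : Finset (ℕ × ℕ) :=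
  (((Finset.range (⌊Z⌋₊ + 1)).filter CF) ×ˢ ((Finset.range (⌊Z⌋₊ + 1)).filter CF)).filter
    fun p => p.1 ≠ p.2 ∧ (p.1 ∉ F ∨ p.2 ∉ F)

private theorem mem_Pr {F : Finset ℕ} {Z : ℝ} (hZ : 0 ≤ Z) {w w' : ℕ} (h1 : CF w) (h2 : CF w')
    (h3 : (w : ℝ) ≤ Z) (h4 : (w' : ℝ) ≤ Z) (h5 : w ≠ w') (h6 : w ∉ F ∨ w' ∉ F) :
    (w, w') ∈ Pr F Z := by
  classical
  unfold Pr
  rw [Finset.mem_filter, Finset.mem_product, Finset.mem_filter, Finset.mem_filter,
    Finset.mem_range, Finset.mem_range, Nat.lt_succ_iff, Nat.lt_succ_iff, Nat.le_floor_iff hZ,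
    Nat.le_floor_iff hZ]
  exact ⟨⟨⟨h3, h1⟩, ⟨h4, h2⟩⟩, h5, h6⟩

private theorem Pr_card (F : Finset ℕ) {Z : ℝ} (hZ : 0 ≤ Z) : ((Pr F Z).card : ℝ) ≤ Z ^ 2 := by
  classical
  have h1 : ((Finset.range (⌊Z⌋₊ + 1)).filter CF).card ≤ ⌊Z⌋₊ := by
    have h2 : (Finset.range (⌊Z⌋₊ + 1)).filter CF ⊆ Finset.Icc 1 ⌊Z⌋₊ := by
      intro w hw
      rw [Finset.mem_filter, Finset.mem_range, Nat.lt_succ_iff] at hw
      rw [Finset.mem_Icc]
      exact ⟨hw.2.1, hw.1⟩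
    have h3 := Finset.card_le_card h2
    rwa [Nat.card_Icc, Nat.add_sub_cancel] at h3
  have h2 : (Pr F Z).card ≤ ⌊Z⌋₊ * ⌊Z⌋₊ := by
    unfold Pr
    refine (Finset.card_filter_le _ _).trans ?_
    rw [Finset.card_product]
    exact Nat.mul_le_mul h1 h1
  have h3 : ((Pr F Z).card : ℝ) ≤ (⌊Z⌋₊ : ℝ) * ⌊Z⌋₊ := by exact_mod_cast h2
  have h4 : (⌊Z⌋₊ : ℝ) ≤ Z := Nat.floor_le hZ
  have h5 : (0 : ℝ) ≤ (⌊Z⌋₊ : ℝ) := Nat.cast_nonneg _
  nlinarith

private theorem Pr_sum {F : Finset ℕ} {ε : ℝ}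
    (hF : ∀ W : Finset ℕ, (∀ w ∈ W, CF w) → ∑ w ∈ W, (if w ∈ F then 0 else α w) ≤ ε) (Z : ℝ) :
    ∑ p ∈ Pr F Z, α p.1 * α p.2 ≤ 2 * (ε * γ) := by
  classical
  obtain ⟨W, hW⟩ : ∃ W, W = (Finset.range (⌊Z⌋₊ + 1)).filter CF := ⟨_, rfl⟩
  have hWC : ∀ w ∈ W, CF w := fun w hw => by
    rw [hW, Finset.mem_filter] at hw
    exact hw.2
  have h1 : ∑ w ∈ W, α w ≤ γ := summable_alpha.sum_le_tsum W fun w _ => alpha_nonneg w
  have h2 := hF W hWC
  have h0 : 0 ≤ ∑ w ∈ W, α w := Finset.sum_nonneg fun w _ => alpha_nonneg w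
  have ha : ∀ w, 0 ≤ (if w ∈ F then 0 else α w) := fun w => by
    split_ifs
    · exact le_rfl
    · exact alpha_nonneg w
  have h0' : 0 ≤ ∑ w ∈ W, (if w ∈ F then 0 else α w) := Finset.sum_nonneg fun w _ => ha w
  have h3 : ∑ p ∈ Pr F Z, α p.1 * α p.2 ≤
      ∑ p ∈ W ×ˢ W, ((if p.1 ∈ F then 0 else α p.1) * α p.2 +
        α p.1 * (if p.2 ∈ F then 0 else α p.2)) := by
    have h4 : Pr F Z ⊆ W ×ˢ W := by
      rw [hW]
      exact Finset.filter_subset _ _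
    refine (Finset.sum_le_sum fun p hp => ?_).trans
      (Finset.sum_le_sum_of_subset_of_nonneg h4 fun p _ _ => ?_)
    · unfold Pr at hp
      rw [Finset.mem_filter] at hp
      have n1 := alpha_nonneg p.1
      have n2 := alpha_nonneg p.2
      rcases hp.2.2 with h5 | h5
      · rw [if_neg h5]
        have := mul_nonneg n1 (ha p.2)
        linarith
      · rw [if_neg h5]
        have := mul_nonneg (ha p.1) n2
        linarith
    · exact add_nonneg (mul_nonneg (ha _) (alpha_nonneg _)) (mul_nonneg (alpha_nonneg _) (ha _))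
  refine h3.trans ?_
  rw [Finset.sum_add_distrib, Finset.sum_product, Finset.sum_product]
  simp only [← Finset.mul_sum, ← Finset.sum_mul]
  have h6 : (∑ w ∈ W, (if w ∈ F then 0 else α w)) * ∑ w ∈ W, α w ≤ ε * γ :=
    mul_le_mul h2 h1 h0 (h0'.trans h2)
  have h7 : (∑ w ∈ W, α w) * (∑ w ∈ W, (if w ∈ F then 0 else α w)) ≤ ε * γ := by
    rw [mul_comm]
    exact h6
  linarith

private theorem cover {F : Finset ℕ} (h1F : 1 ∈ F) {s T Z : ℝ} (hT : 0 ≤ T) (hs : s ≤ 1)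
    (hZ : 0 ≤ Z) : ((Bad F s T).card : ℝ) ≤ (Lg Z T).card + (Lg Z (T + 1)).card +
      ∑ p ∈ Pr F Z, ((NP p.1 p.2 s T).card : ℝ) := by
  classical
  obtain ⟨Sc, hSc⟩ : ∃ Sc : ℕ → ℕ → Prop, Sc = fun n n' =>
    n < n' ∧ ∀ m : ℕ, P3 m → n < m → n' ≤ m := ⟨_, rfl⟩
  have hSc' : ∀ n n', Sc n n' → n < n' ∧ ∀ m : ℕ, P3 m → n < m → n' ≤ m := by
    intro n n' h
    rw [hSc] at h
    exact h
  obtain ⟨B2, hB2⟩ : ∃ B2, B2 = (Bad F s T).filter fun n => ∃ n', Sc n n' ∧ n' ∈ Lg Z (T + 1) :=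
    ⟨_, rfl⟩
  have hPTB : ∀ n ∈ Bad F s T, P3 n ∧ cr n ≤ T := by
    intro n hn
    unfold Bad at hn
    rw [Finset.mem_filter, mem_PT hT] at hn
    exact hn.1
  have hB2c : B2.card ≤ (Lg Z (T + 1)).card := by
    refine Finset.card_le_card_of_injOn
      (fun n => if h : ∃ n', Sc n n' ∧ n' ∈ Lg Z (T + 1) then h.choose else 0) ?_ ?_
    · intro n hn
      rw [Finset.mem_coe, hB2, Finset.mem_filter] at hn
      show (if h : ∃ n', Sc n n' ∧ n' ∈ Lg Z (T + 1) then h.choose else 0) ∈ _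
      rw [dif_pos hn.2]
      exact hn.2.choose_spec.2
    · intro n1 hn1 n2 hn2 heq
      rw [Finset.mem_coe, hB2, Finset.mem_filter] at hn1 hn2
      simp only [dif_pos hn1.2, dif_pos hn2.2] at heq
      have e1 := hn1.2.choose_spec.1
      have e2 := hn2.2.choose_spec.1
      rw [← heq] at e2
      replace e1 := hSc' _ _ e1
      replace e2 := hSc' _ _ e2
      rcases Nat.lt_trichotomy n1 n2 with h | h | h
      · have h3 := e1.2 n2 (hPTB n2 hn2.1).1 h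
        exact absurd e2.1 (not_lt.2 h3)
      · exact h
      · have h3 := e2.2 n1 (hPTB n1 hn1.1).1 h
        exact absurd e1.1 (not_lt.2 h3)
  obtain ⟨S3, hS3⟩ : ∃ S3, S3 = (Pr F Z).biUnion fun p =>
    (NP p.1 p.2 s T).image fun j => A p.1 * j ^ 3 := ⟨_, rfl⟩
  have hS3c : (S3.card : ℝ) ≤ ∑ p ∈ Pr F Z, ((NP p.1 p.2 s T).card : ℝ) := by
    have h1 : S3.card ≤ ∑ p ∈ Pr F Z, (NP p.1 p.2 s T).card := by
      rw [hS3]
      refine Finset.card_biUnion_le.trans (Finset.sum_le_sum fun p _ => Finset.card_image_le)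
    exact_mod_cast h1
  have hsub : Bad F s T ⊆ Lg Z T ∪ B2 ∪ S3 := by
    intro n hn
    have hn' := hn
    unfold Bad at hn
    rw [Finset.mem_filter] at hn
    obtain ⟨h1, w, j, w', j', h2, h3, h4, h5, h6, h7, h8, h9, h10⟩ := hn
    have hcr := ((mem_PT hT).1 h1).2
    rw [Finset.mem_union, Finset.mem_union]
    by_cases hw : (w : ℝ) ≤ Z
    · by_cases hw' : (w' : ℝ) ≤ Z
      · right
        have hlt : (j : ℝ) * τ w < j' * τ w' := by
          rw [← cr_rep, ← cr_rep, cr_lt, ← h6]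
          exact h7
        have hle : (j' : ℝ) * τ w' ≤ j * τ w + s := by
          rw [← cr_rep, ← cr_rep, ← h6]
          exact h9
        have hne : w ≠ w' := by
          intro he
          rw [← he] at hlt hle
          have ht := tau_pos h2
          have hj : (j : ℝ) < j' := lt_of_mul_lt_mul_right hlt ht.le
          have hj1 : (j : ℝ) + 1 ≤ j' := by exact_mod_cast Nat.cast_lt.1 hj
          have ht1 : τ w ≤ 1 := by nlinarith
          have hw1 := tau_le_one h2 ht1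
          rw [← he, hw1] at h10
          rcases h10 with h | h
          · exact h h1F
          · exact h h1F
        rw [hS3, Finset.mem_biUnion]
        refine ⟨(w, w'), mem_Pr hZ h2 h3 hw hw' hne h10, ?_⟩
        rw [Finset.mem_image]
        refine ⟨j, ?_, h6.symm⟩
        unfold NP
        rw [Finset.mem_filter, Finset.mem_Icc, floor_bound h2 hT, ← cr_rep, ← h6]
        refine ⟨⟨h4, hcr⟩, j', ?_, ?_⟩
        · rw [h6, cr_rep]
          exact hlt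
        · rw [h6, cr_rep]
          exact hle
      · left
        right
        rw [hB2, Finset.mem_filter]
        refine ⟨hn', A w' * j' ^ 3, ?_, ?_⟩
        · rw [hSc]
          exact ⟨h7, h8⟩
        · unfold Lg
          rw [Finset.mem_filter, mem_PT (by linarith)]
          refine ⟨⟨P3_rep h3 h5, by linarith⟩, w', j', h3, h5, rfl, hw'⟩
    · left
      left
      unfold Lg
      rw [Finset.mem_filter]
      exact ⟨h1, w, j, h2, h4, h6, hw⟩
  have hc : (Bad F s T).card ≤ (Lg Z T).card + (Lg Z (T + 1)).card + S3.card := by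
    refine (Finset.card_le_card hsub).trans ((Finset.card_union_le _ _).trans ?_)
    have := (Finset.card_union_le (Lg Z T) B2)
    omega
  have hc' : ((Bad F s T).card : ℝ) ≤ (Lg Z T).card + (Lg Z (T + 1)).card + S3.card := by
    exact_mod_cast hc
  linarith

/-- the exponents -/
private theorem expo {η T s : ℝ} (hη0 : 0 < η) (hη : η < 1 / 20) (hT : 1 ≤ T)
    (hs : T ^ (-((1 : ℝ) / 20 - η)) ≤ s) (hs1 : s ≤ 1) :
    ((T / s) ^ ((1 : ℝ) / 7)) ^ (η - 1 / 3) ≤ T ^ (-(η / 2)) * s ∧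
    ((T / s) ^ ((1 : ℝ) / 7)) ^ 2 * (T ^ ((2 : ℝ) / 3) * s ^ ((1 : ℝ) / 3)) ≤
      T ^ (-(η / 2)) * s * T ∧
    ((T / s) ^ ((1 : ℝ) / 7)) ^ 2 ≤ T ^ (-(η / 2)) * s * T := by
  have hT0 : 0 < T := by linarith
  have hs0 : 0 < s := lt_of_lt_of_le (Real.rpow_pos_of_pos hT0 _) hs
  obtain ⟨t, ht⟩ : ∃ t, t = Real.log T := ⟨_, rfl⟩
  obtain ⟨u, hu⟩ : ∃ u, u = Real.log s := ⟨_, rfl⟩
  have hT' : T = Real.exp t := by rw [ht, Real.exp_log hT0]
  have hs' : s = Real.exp u := by rw [hu, Real.exp_log hs0]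
  have ht0 : 0 ≤ t := by rw [ht]; exact Real.log_nonneg hT
  have hu0 : u ≤ 0 := by rw [hu]; exact Real.log_nonpos hs0.le hs1
  have hut : -((1 : ℝ) / 20 - η) * t ≤ u := by
    have h1 := Real.log_le_log (Real.rpow_pos_of_pos hT0 _) hs
    rw [Real.log_rpow hT0, ← ht, ← hu] at h1
    exact h1
  have hTs : T / s = Real.exp (t - u) := by rw [hT', hs', Real.exp_sub]
  rw [hTs]
  rw [hT', hs']
  simp only [← Real.exp_mul, ← Real.exp_add, ← Real.exp_nat_mul]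
  refine ⟨Real.exp_le_exp.2 ?_, Real.exp_le_exp.2 ?_, Real.exp_le_exp.2 ?_⟩
  · have h1 : 0 ≤ η * t := mul_nonneg hη0.le ht0
    have h2 : 0 ≤ η * (u + ((1 : ℝ) / 20 - η) * t) := mul_nonneg hη0.le (by linarith)
    nlinarith [mul_nonneg h1 hη0.le]
  · push_cast
    have h1 : 0 ≤ η * t := mul_nonneg hη0.le ht0
    nlinarith
  · push_cast
    have h1 : 0 ≤ η * t := mul_nonneg hη0.le ht0
    nlinarith [mul_le_mul_of_nonneg_right hη.le ht0]

theorem bad_le {ε η : ℝ} (hε : 0 < ε) (hη0 : 0 < η) (hη : η < 1 / 20) :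
    ∃ (F0 : Finset ℕ) (T0 : ℝ), 1 ≤ T0 ∧ (∀ w ∈ F0, CF w) ∧ ∀ F : Finset ℕ, F0 ⊆ F → ∀ T s : ℝ,
      T0 ≤ T → T ^ (-((1 : ℝ) / 20 - η)) ≤ s → s ≤ 1 → ((Bad F s T).card : ℝ) ≤ ε * s * T := by
  classical
  obtain ⟨C, hC0, hC⟩ := tail_alpha hη0 (by linarith : η < 1 / 3)
  obtain ⟨C2, hC20, hC2⟩ := pair_ub
  have hγ : 1 ≤ γ := one_le_gamma
  have hγ0 : 0 < γ := by linarith
  obtain ⟨ε1, hε1⟩ : ∃ ε1, ε1 = ε / (4 * C2 * γ) := ⟨_, rfl⟩
  have hε10 : 0 < ε1 := by rw [hε1]; positivity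
  obtain ⟨F1, hF1⟩ := summable_iff_vanishing_norm.1 summable_alpha ε1 hε10
  obtain ⟨F0, hF0⟩ : ∃ F0, F0 = insert 1 (F1.filter CF) := ⟨_, rfl⟩
  have hF0C : ∀ w ∈ F0, CF w := by
    intro w hw
    rw [hF0, Finset.mem_insert, Finset.mem_filter] at hw
    rcases hw with hw | hw
    · rw [hw]; exact CF_one
    · exact hw.2
  have hF01 : 1 ∈ F0 := by
    rw [hF0]; exact Finset.mem_insert_self _ _
  have hFs : ∀ W : Finset ℕ, (∀ w ∈ W, CF w) →
      ∑ w ∈ W, (if w ∈ F0 then 0 else α w) ≤ ε1 := by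
    intro W hW
    have h1 : ∑ w ∈ W, (if w ∈ F0 then 0 else α w) = ∑ w ∈ W \ F0, α w := by
      rw [Finset.sum_ite, Finset.sum_const_zero, zero_add, Finset.sdiff_eq_filter]
    rw [h1]
    have h2 : Disjoint (W \ F0) F1 := by
      rw [Finset.disjoint_left]
      intro w hw hw1
      rw [Finset.mem_sdiff] at hw
      apply hw.2
      rw [hF0, Finset.mem_insert, Finset.mem_filter]
      exact Or.inr ⟨hw1, hW w hw.1⟩
    exact (le_abs_self _).trans (hF1 _ h2).le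
  -- the threshold
  have hlim : Tendsto (fun T : ℝ => (3 * C + 2 * C2) * T ^ (-(η / 2))) atTop (𝓝 0) := by
    have h1 := (tendsto_rpow_neg_atTop (half_pos hη0)).const_mul (3 * C + 2 * C2)
    rwa [mul_zero] at h1
  obtain ⟨T1, hT1⟩ := Filter.eventually_atTop.1 (hlim.eventually (ge_mem_nhds (half_pos hε)))
  refine ⟨F0, max T1 1, le_max_right _ _, hF0C, fun F hF T s hT hs hs1 => ?_⟩
  have hT1' : 1 ≤ T := (le_max_right _ _).trans hT
  have hT0 : 0 < T := by linarith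
  have hs0 : 0 < s := lt_of_lt_of_le (Real.rpow_pos_of_pos hT0 _) hs
  have hsm := hT1 T ((le_max_left _ _).trans hT)
  obtain ⟨e1, e2, e3⟩ := expo hη0 hη hT1' hs hs1
  obtain ⟨Z, hZ⟩ : ∃ Z, Z = (T / s) ^ ((1 : ℝ) / 7) := ⟨_, rfl⟩
  rw [← hZ] at e1 e2 e3
  have hTs1 : 1 ≤ T / s := by
    rw [le_div_iff₀ hs0]
    linarith
  have hZ1 : 1 ≤ Z := by
    rw [hZ]
    exact Real.one_le_rpow hTs1 (by norm_num)
  have hZ0 : 0 ≤ Z := by linarith
  have hmono : ((Bad F s T).card : ℝ) ≤ (Bad F0 s T).card := by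
    exact_mod_cast Finset.card_le_card (Bad_mono hF s T)
  have h1 := cover hF01 hT0.le hs1 hZ0
  have h2 := Lg_card (hC Z hZ1) hT0.le
  have h3 := Lg_card (hC Z hZ1) (by linarith : 0 ≤ T + 1)
  have h4 : ∑ p ∈ Pr F0 Z, ((NP p.1 p.2 s T).card : ℝ) ≤
      C2 * (s * T) * (2 * (ε1 * γ)) + C2 * (2 * (T ^ (-(η / 2)) * s * T)) := by
    have h5 : ∑ p ∈ Pr F0 Z, ((NP p.1 p.2 s T).card : ℝ) ≤
        ∑ p ∈ Pr F0 Z, (C2 * (s * T) * (α p.1 * α p.2) +
          C2 * (T ^ ((2 : ℝ) / 3) * s ^ ((1 : ℝ) / 3) + 1)) := by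
      refine Finset.sum_le_sum fun p hp => ?_
      unfold Pr at hp
      rw [Finset.mem_filter, Finset.mem_product, Finset.mem_filter, Finset.mem_filter] at hp
      have h6 := hC2 p.1 p.2 hp.1.1.2 hp.1.2.2 hp.2.1 T s hT1' hs0 hs1
      refine h6.trans (le_of_eq ?_)
      ring
    refine h5.trans ?_
    rw [Finset.sum_add_distrib, ← Finset.mul_sum, Finset.sum_const, nsmul_eq_mul]
    refine add_le_add (mul_le_mul_of_nonneg_left (Pr_sum hFs Z) (by positivity)) ?_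
    have h7 : 0 ≤ C2 * (T ^ ((2 : ℝ) / 3) * s ^ ((1 : ℝ) / 3) + 1) := by positivity
    calc ((Pr F0 Z).card : ℝ) * (C2 * (T ^ ((2 : ℝ) / 3) * s ^ ((1 : ℝ) / 3) + 1))
        ≤ Z ^ 2 * (C2 * (T ^ ((2 : ℝ) / 3) * s ^ ((1 : ℝ) / 3) + 1)) :=
          mul_le_mul_of_nonneg_right (Pr_card F0 hZ0) h7
      _ = C2 * (Z ^ 2 * (T ^ ((2 : ℝ) / 3) * s ^ ((1 : ℝ) / 3)) + Z ^ 2) := by ring
      _ ≤ C2 * (2 * (T ^ (-(η / 2)) * s * T)) :=
          mul_le_mul_of_nonneg_left (by linarith) hC20.le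
  have h8 : C2 * (s * T) * (2 * (ε1 * γ)) = ε / 2 * (s * T) := by
    rw [hε1]
    field_simp
    ring
  have h9 : T * (C * Z ^ (η - 1 / 3)) ≤ C * (T ^ (-(η / 2)) * s * T) := by
    have : T * (C * Z ^ (η - 1 / 3)) = C * T * Z ^ (η - 1 / 3) := by ring
    rw [this]
    have h10 := mul_le_mul_of_nonneg_left e1 (by positivity : 0 ≤ C * T)
    refine h10.trans (le_of_eq ?_)
    ring
  have h10 : (T + 1) * (C * Z ^ (η - 1 / 3)) ≤ 2 * (C * (T ^ (-(η / 2)) * s * T)) := by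
    have hp : 0 ≤ C * Z ^ (η - 1 / 3) := by positivity
    have : (T + 1) * (C * Z ^ (η - 1 / 3)) ≤ 2 * (T * (C * Z ^ (η - 1 / 3))) := by nlinarith
    linarith
  have h11 : (3 * C + 2 * C2) * (T ^ (-(η / 2)) * s * T) ≤ ε / 2 * (s * T) := by
    have hst : 0 ≤ s * T := by positivity
    have h12 := mul_le_mul_of_nonneg_right hsm hst
    refine le_trans (le_of_eq ?_) h12
    ring
  have h12 : ε * s * T = ε / 2 * (s * T) + ε / 2 * (s * T) := by ring
  rw [h12]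
  have h13 : (3 * C + 2 * C2) * (T ^ (-(η / 2)) * s * T) =
      C * (T ^ (-(η / 2)) * s * T) + 2 * (C * (T ^ (-(η / 2)) * s * T)) +
        C2 * (2 * (T ^ (-(η / 2)) * s * T)) := by ring
  rw [h13] at h11
  rw [h8] at h4
  linarith

end Pool.Agent.GL3
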