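import Pool.Agent.GL3.Defs

set_option autoImplicit false

/-!
# Sums over the classes

Every cube-free `w` is `b * c ^ 2` with `b, c` squarefree coprime and `rad w = b * c` (for the
bound it is enough to have an injective map `w ↦ (b, c)` with `w = b c^2`, `rad w = b c`), so the sum of
`1 / (w^δ rad w)` is at most `(∑_b b^(-1-δ)) (∑_c c^(-1-2δ))`. `α w = 1 / (w^(1/3) rad w)` is the case
`δ = 1/3`; for `w > Z`: `α w = w^(δ-1/3) / (w^δ rad w) <= Z^(δ-1/3) / (w^δ rad w)`.
-/

namespace Pool.Agent.GL3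

open Finset Filter Topology

private noncomputable def sumC (w : ℕ) : ℕ :=
  ∏ p ∈ w.primeFactors.filter (fun p => w.factorization p = 2), p

private noncomputable def sumB (w : ℕ) : ℕ :=
  ∏ p ∈ w.primeFactors.filter (fun p => ¬ w.factorization p = 2), p

private theorem sum_fac {w : ℕ} (hw : CF w) {p : ℕ} (hp : p ∈ w.primeFactors)
    (h2 : ¬ w.factorization p = 2) : w.factorization p = 1 := by
  have hpp := Nat.prime_of_mem_primeFactors hp
  have h1 : 0 < w.factorization p :=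
    hpp.factorization_pos_of_dvd hw.1.ne' (Nat.dvd_of_mem_primeFactors hp)
  have h3 : ¬ 3 ≤ w.factorization p := by
    intro h
    exact hw.2 p hpp ((hpp.pow_dvd_iff_le_factorization hw.1.ne').2 h)
  omega

private theorem sum_rad (w : ℕ) : rad w = sumB w * sumC w := by
  unfold rad sumB sumC
  rw [mul_comm]
  exact (Finset.prod_filter_mul_prod_filter_not _ _ _).symm

private theorem sum_eq {w : ℕ} (hw : CF w) : w = sumB w * sumC w ^ 2 := by
  have h0 : ∏ p ∈ w.primeFactors, p ^ w.factorization p = w :=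
    Nat.prod_factorization_pow_eq_self hw.1.ne'
  have h1 : ∏ p ∈ w.primeFactors, p ^ w.factorization p = sumB w * sumC w ^ 2 := by
    rw [← Finset.prod_filter_mul_prod_filter_not w.primeFactors (fun p => w.factorization p = 2),
      mul_comm]
    congr 1
    · unfold sumB
      refine Finset.prod_congr rfl fun p hp => ?_
      rw [Finset.mem_filter] at hp
      rw [sum_fac hw hp.1 hp.2, pow_one]
    · unfold sumC
      rw [← Finset.prod_pow]
      refine Finset.prod_congr rfl fun p hp => ?_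
      rw [Finset.mem_filter] at hp
      rw [hp.2]
  rw [← h1, h0]

open Classical in
theorem summable_wr {δ : ℝ} (hδ : 0 < δ) :
    Summable (fun w : ℕ => if CF w then 1 / ((w : ℝ) ^ δ * rad w) else 0) := by
  have hb : Summable (fun b : ℕ => 1 / (b : ℝ) ^ (1 + δ)) :=
    Real.summable_one_div_nat_rpow.2 (by linarith)
  have hc : Summable (fun c : ℕ => 1 / (c : ℝ) ^ (1 + 2 * δ)) :=
    Real.summable_one_div_nat_rpow.2 (by linarith)
  have hbc : Summable (fun x : ℕ × ℕ => 1 / (x.1 : ℝ) ^ (1 + δ) * (1 / (x.2 : ℝ) ^ (1 + 2 * δ))) :=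
    hb.mul_of_nonneg hc (fun b => by positivity) (fun c => by positivity)
  have hinj : Function.Injective (fun w : {w : ℕ // CF w} => (sumB w.1, sumC w.1)) := by
    intro w w' h
    have h1 : sumB w.1 = sumB w'.1 := congrArg Prod.fst h
    have h2 : sumC w.1 = sumC w'.1 := congrArg Prod.snd h
    apply Subtype.ext
    rw [sum_eq w.2, sum_eq w'.2, h1, h2]
  have hs := hbc.comp_injective hinj
  have hs2 : Summable (fun w : {w : ℕ // CF w} => 1 / ((w.1 : ℝ) ^ δ * rad w.1)) := by
    refine hs.congr fun w => ?_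
    have hw := w.2
    have hB : 0 < sumB w.1 := by
      unfold sumB
      exact Finset.prod_pos fun p hp =>
        (Nat.prime_of_mem_primeFactors (Finset.mem_filter.1 hp).1).pos
    have hC : 0 < sumC w.1 := by
      unfold sumC
      exact Finset.prod_pos fun p hp =>
        (Nat.prime_of_mem_primeFactors (Finset.mem_filter.1 hp).1).pos
    have hB' : (0 : ℝ) < sumB w.1 := by exact_mod_cast hB
    have hC' : (0 : ℝ) < sumC w.1 := by exact_mod_cast hC
    have h1 : (w.1 : ℝ) = (sumB w.1 : ℝ) * (sumC w.1 : ℝ) ^ 2 := by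
      exact_mod_cast sum_eq hw
    have h2 : (rad w.1 : ℝ) = (sumB w.1 : ℝ) * (sumC w.1 : ℝ) := by
      exact_mod_cast sum_rad w.1
    have h3 : (w.1 : ℝ) ^ δ = (sumB w.1 : ℝ) ^ δ * ((sumC w.1 : ℝ) ^ (2 * δ)) := by
      rw [h1, Real.mul_rpow hB'.le (by positivity)]
      congr 1
      rw [← Real.rpow_natCast, ← Real.rpow_mul hC'.le]
      norm_num
    show 1 / (sumB w.1 : ℝ) ^ (1 + δ) * (1 / (sumC w.1 : ℝ) ^ (1 + 2 * δ)) =
      1 / ((w.1 : ℝ) ^ δ * rad w.1)
    rw [h3, h2, Real.rpow_add hB', Real.rpow_add hC', Real.rpow_one, Real.rpow_one]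
    field_simp
  have hs3 := (summable_subtype_iff_indicator (s := {w : ℕ | CF w})
    (f := fun w : ℕ => 1 / ((w : ℝ) ^ δ * rad w))).1 hs2
  refine hs3.congr fun w => ?_
  by_cases h : CF w
  · rw [Set.indicator_of_mem (show w ∈ {w : ℕ | CF w} from h), if_pos h]
  · rw [Set.indicator_of_notMem (show w ∉ {w : ℕ | CF w} from h), if_neg h]

theorem summable_alpha : Summable α := by
  have h := summable_wr (δ := (1 : ℝ) / 3) (by norm_num)
  exact h

theorem one_le_gamma : 1 ≤ γ := by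
  have h1 : α 1 = 1 := by
    rw [alpha_of_CF CF_one]
    unfold τ rad
    norm_num
  have h2 : α 1 ≤ ∑' w, α w := summable_alpha.le_tsum 1 fun w _ => alpha_nonneg w
  rw [h1] at h2
  exact h2

open Classical in
theorem tail_alpha {δ : ℝ} (hδ0 : 0 < δ) (hδ : δ < 1 / 3) : ∃ C : ℝ, 0 < C ∧ ∀ Z : ℝ, 1 ≤ Z →
    (∑' w : ℕ, if Z < (w : ℝ) then α w else 0) ≤ C * Z ^ (δ - 1 / 3) := by
  have hs := summable_wr hδ0
  have hnn : ∀ w : ℕ, 0 ≤ (if CF w then 1 / ((w : ℝ) ^ δ * rad w) else 0) := by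
    intro w
    split_ifs
    · positivity
    · exact le_rfl
  refine ⟨(∑' w : ℕ, if CF w then 1 / ((w : ℝ) ^ δ * rad w) else 0) + 1, ?_, fun Z hZ => ?_⟩
  · have h0 : 0 ≤ ∑' w : ℕ, (if CF w then 1 / ((w : ℝ) ^ δ * rad w) else 0) := tsum_nonneg hnn
    linarith
  have hZ0 : 0 < Z := by linarith
  have hpt : ∀ w : ℕ, (if Z < (w : ℝ) then α w else 0) ≤
      (if CF w then 1 / ((w : ℝ) ^ δ * rad w) else 0) * Z ^ (δ - 1 / 3) := by
    intro w
    by_cases hw : Z < (w : ℝ)
    · rw [if_pos hw]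
      by_cases hc : CF w
      · rw [if_pos hc]
        unfold α
        rw [if_pos hc]
        have hw0 : (0 : ℝ) < w := by linarith
        have hr : (0 : ℝ) < rad w := by exact_mod_cast rad_pos w
        have h1 : (w : ℝ) ^ (δ - 1 / 3) ≤ Z ^ (δ - 1 / 3) :=
          Real.rpow_le_rpow_of_nonpos hZ0 hw.le (by linarith)
        have h2 : 1 / ((w : ℝ) ^ ((1 : ℝ) / 3) * rad w) =
            1 / ((w : ℝ) ^ δ * rad w) * (w : ℝ) ^ (δ - 1 / 3) := by
          rw [Real.rpow_sub hw0]
          have h3 : (0 : ℝ) < (w : ℝ) ^ δ := Real.rpow_pos_of_pos hw0 _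
          have h4 : (0 : ℝ) < (w : ℝ) ^ ((1 : ℝ) / 3) := Real.rpow_pos_of_pos hw0 _
          field_simp
        rw [h2]
        exact mul_le_mul_of_nonneg_left h1 (by positivity)
      · rw [if_neg hc, alpha_of_not hc, zero_mul]
    · rw [if_neg hw]
      exact mul_nonneg (hnn w) (Real.rpow_nonneg hZ0.le _)
  have hs2 : Summable fun w : ℕ =>
      (if CF w then 1 / ((w : ℝ) ^ δ * rad w) else 0) * Z ^ (δ - 1 / 3) := hs.mul_right _
  have hs1 : Summable fun w : ℕ => (if Z < (w : ℝ) then α w else 0) := by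
    refine Summable.of_nonneg_of_le (fun w => ?_) hpt hs2
    split_ifs
    · exact alpha_nonneg w
    · exact le_rfl
  calc (∑' w : ℕ, if Z < (w : ℝ) then α w else 0)
      ≤ ∑' w : ℕ, (if CF w then 1 / ((w : ℝ) ^ δ * rad w) else 0) * Z ^ (δ - 1 / 3) :=
        hs1.tsum_le_tsum hpt hs2
    _ = (∑' w : ℕ, if CF w then 1 / ((w : ℝ) ^ δ * rad w) else 0) * Z ^ (δ - 1 / 3) := tsum_mul_right
    _ ≤ _ := by
        apply mul_le_mul_of_nonneg_right _ (Real.rpow_nonneg hZ0.le _)
        linarith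

end Pool.Agent.GL3
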