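import Pool.Agent.GL3.Rep
import Pool.Agent.GL3.Sum

set_option autoImplicit false

/-!
# Counting the 3-powerful numbers

The 3-powerful numbers with cube root `<= T` correspond to the pairs `(w, j)`, `w` cube-free, `1 <= j <= T α w`; the
limit of the density is dominated convergence for series.
-/

namespace Pool.Agent.GL3

open Finset Filter Topology

theorem floor_bound {w : ℕ} (hw : CF w) {T : ℝ} (hT : 0 ≤ T) {j : ℕ} :
    j ≤ ⌊T * α w⌋₊ ↔ j * τ w ≤ T := by
  have h0 := tau_pos hw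
  rw [Nat.le_floor_iff (mul_nonneg hT (alpha_nonneg w)), alpha_of_CF hw, mul_one_div,
    le_div_iff₀ h0]

private theorem floor_small {w : ℕ} (hw : CF w) {T : ℝ} (hT : 0 ≤ T) (h : ⌊T * α w⌋₊ ≠ 0) :
    w ∈ Finset.range (⌊T ^ 3⌋₊ + 1) := by
  have h1 : 1 ≤ ⌊T * α w⌋₊ := Nat.one_le_iff_ne_zero.2 h
  rw [floor_bound hw hT, Nat.cast_one, one_mul] at h1
  rw [Finset.mem_range, Nat.lt_succ_iff, Nat.le_floor_iff (by positivity)]
  have h2 : τ w ^ 3 ≤ T ^ 3 := pow_le_pow_left₀ (tau_pos hw).le h1 3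
  rw [tau_cube] at h2
  have h3 : w ≤ A w := by
    unfold A
    exact Nat.le_mul_of_pos_right w (pow_pos (rad_pos w) 3)
  have h4 : (w : ℝ) ≤ (A w : ℝ) := by exact_mod_cast h3
  exact h4.trans h2

open Classical in
private theorem card_gen {T : ℝ} (hT : 0 ≤ T) (Q : ℕ → Prop) :
    ((PT T).filter (fun n => ∃ w j : ℕ, CF w ∧ 0 < j ∧ n = A w * j ^ 3 ∧ Q w)).card =
      ∑ w ∈ Finset.range (⌊T ^ 3⌋₊ + 1), (if CF w ∧ Q w then ⌊T * α w⌋₊ else 0) := by
  have h1 : (PT T).filter (fun n => ∃ w j : ℕ, CF w ∧ 0 < j ∧ n = A w * j ^ 3 ∧ Q w) =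
      (((Finset.range (⌊T ^ 3⌋₊ + 1)).filter fun w => CF w ∧ Q w).sigma
        fun w => Finset.Icc 1 ⌊T * α w⌋₊).image fun p => A p.1 * p.2 ^ 3 := by
    ext n
    simp only [Finset.mem_filter, Finset.mem_image, Finset.mem_sigma, Finset.mem_Icc]
    rw [mem_PT hT]
    constructor
    · rintro ⟨⟨-, hn⟩, w, j, hw, hj, rfl, hq⟩
      rw [cr_rep, ← floor_bound hw hT] at hn
      exact ⟨⟨w, j⟩, ⟨⟨floor_small hw hT (by omega), hw, hq⟩, hj, hn⟩, rfl⟩
    · rintro ⟨⟨w, j⟩, ⟨⟨-, hw, hq⟩, hj, hn⟩, rfl⟩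
      refine ⟨⟨P3_rep hw hj, ?_⟩, w, j, hw, hj, rfl, hq⟩
      rw [cr_rep, ← floor_bound hw hT]
      exact hn
  rw [h1, Finset.card_image_of_injOn, Finset.card_sigma, Finset.sum_filter]
  · refine Finset.sum_congr rfl fun w _ => ?_
    rw [Nat.card_Icc, Nat.add_sub_cancel]
  · rintro ⟨w, j⟩ h2 ⟨w', j'⟩ h3 h4
    simp only [Finset.coe_sigma, Set.mem_sigma_iff, Finset.mem_coe, Finset.mem_filter,
      Finset.mem_Icc] at h2 h3
    have h7 : 0 < j := lt_of_lt_of_le one_pos h2.2.1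
    have h8 : 0 < j' := lt_of_lt_of_le one_pos h3.2.1
    obtain ⟨h5, h6⟩ := rep_unique h2.1.2.1 h3.1.2.1 h7 h8 h4
    subst h5
    subst h6
    rfl

open Classical in
theorem card_PT {T : ℝ} (hT : 0 ≤ T) :
    ((PT T).card : ℝ) = ∑' w : ℕ, (if CF w then ((⌊T * α w⌋₊ : ℕ) : ℝ) else 0) := by
  have h1 : (PT T).filter (fun n => ∃ w j : ℕ, CF w ∧ 0 < j ∧ n = A w * j ^ 3 ∧ True) = PT T := by
    refine Finset.filter_true_of_mem fun n hn => ?_
    obtain ⟨w, j, hw, hj, h⟩ := exists_rep ((mem_PT hT).1 hn).1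
    exact ⟨w, j, hw, hj, h, trivial⟩
  have h2 := card_gen hT fun _ => True
  rw [h1] at h2
  rw [h2, tsum_eq_sum (s := Finset.range (⌊T ^ 3⌋₊ + 1))]
  · push_cast
    refine Finset.sum_congr rfl fun w _ => ?_
    simp only [and_true]
  · intro w hw
    split_ifs with h3
    · by_contra h4
      exact hw (floor_small h3 hT fun h5 => h4 (by rw [h5, Nat.cast_zero]))
    · rfl

private theorem term_le {T : ℝ} (hT : 0 ≤ T) (w : ℕ) : ((⌊T * α w⌋₊ : ℕ) : ℝ) ≤ T * α w :=
  Nat.floor_le (mul_nonneg hT (alpha_nonneg w))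

theorem card_PT_le {T : ℝ} (hT : 0 ≤ T) : ((PT T).card : ℝ) ≤ γ * T := by
  classical
  have hle : ∀ w : ℕ, (if CF w then ((⌊T * α w⌋₊ : ℕ) : ℝ) else 0) ≤ T * α w := by
    intro w
    split_ifs
    · exact term_le hT w
    · exact mul_nonneg hT (alpha_nonneg w)
  have h0 : ∀ w : ℕ, 0 ≤ (if CF w then ((⌊T * α w⌋₊ : ℕ) : ℝ) else 0) := by
    intro w
    split_ifs
    · exact Nat.cast_nonneg _
    · exact le_rfl
  have hs : Summable fun w : ℕ => T * α w := summable_alpha.mul_left T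
  rw [card_PT hT, mul_comm, γ, ← tsum_mul_left]
  exact (Summable.of_nonneg_of_le h0 hle hs).tsum_le_tsum hle hs

theorem count_tendsto : Tendsto (fun T : ℝ => ((PT T).card : ℝ) / T) atTop (𝓝 γ) := by
  classical
  have h1 : (fun T : ℝ => ((PT T).card : ℝ) / T) =ᶠ[atTop]
      fun T => ∑' w : ℕ, (if CF w then ((⌊T * α w⌋₊ : ℕ) : ℝ) else 0) / T := by
    filter_upwards [eventually_ge_atTop 0] with T hT
    rw [card_PT hT, tsum_div_const]
  refine Tendsto.congr' h1.symm ?_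
  refine tendsto_tsum_of_dominated_convergence (bound := α) summable_alpha ?_ ?_
  · intro w
    by_cases hw : CF w
    · simp only [if_pos hw]
      have h2 := tendsto_nat_floor_mul_div_atTop (R := ℝ) (alpha_nonneg w)
      refine h2.congr fun T => ?_
      rw [mul_comm]
    · simp only [if_neg hw, zero_div, alpha_of_not hw]
      exact tendsto_const_nhds
  · filter_upwards [eventually_gt_atTop 0] with T hT w
    rw [Real.norm_of_nonneg]
    · split_ifs
      · rw [div_le_iff₀ hT]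
        have h2 := term_le hT.le w
        linarith [mul_comm T (α w)]
      · rw [zero_div]
        exact alpha_nonneg w
    · split_ifs
      · positivity
      · rw [zero_div]

open Classical in
/-- The number of 3-powerful numbers with cube root at most `T` whose class fails `q`. -/
theorem card_class_le {T : ℝ} (hT : 0 ≤ T) (q : ℕ → Prop) :
    ((((PT T).filter (fun n => ∃ w j : ℕ, CF w ∧ 0 < j ∧ n = A w * j ^ 3 ∧ ¬ q w)).card : ℕ) : ℝ) ≤
      T * ∑' w : ℕ, (if q w then 0 else α w) := by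
  have h0 : ∀ w : ℕ, 0 ≤ (if q w then 0 else α w) := by
    intro w
    split_ifs
    · exact le_rfl
    · exact alpha_nonneg w
  have hs : Summable fun w : ℕ => if q w then 0 else α w := by
    refine Summable.of_nonneg_of_le h0 (fun w => ?_) summable_alpha
    split_ifs
    · exact alpha_nonneg w
    · exact le_rfl
  rw [card_gen hT fun w => ¬ q w]
  push_cast
  have h1 : ∑ w ∈ Finset.range (⌊T ^ 3⌋₊ + 1), (if CF w ∧ ¬ q w then ((⌊T * α w⌋₊ : ℕ) : ℝ) else 0) ≤
      ∑ w ∈ Finset.range (⌊T ^ 3⌋₊ + 1), T * (if q w then 0 else α w) := by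
    refine Finset.sum_le_sum fun w _ => ?_
    by_cases hq : q w
    · simp [hq]
    · by_cases hw : CF w
      · rw [if_pos ⟨hw, hq⟩, if_neg hq]
        exact term_le hT w
      · rw [if_neg fun h => hw h.1, if_neg hq]
        exact mul_nonneg hT (alpha_nonneg w)
  refine h1.trans ?_
  rw [← Finset.mul_sum]
  exact mul_le_mul_of_nonneg_left (hs.sum_le_tsum _ fun w _ => h0 w) hT

end Pool.Agent.GL3
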