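import Mathlib

set_option autoImplicit false

/-!
# Gaps between consecutive 3-powerful numbers: definitions (helper47)

Every 3-powerful number is `A w * j ^ 3` for exactly one cube-free `w` and one `j >= 1`, where
`A w = w * rad w ^ 3`. Its cube root is `j * τ w` with `τ w = w ^ (1/3) * rad w`. So the cube roots of
the 3-powerful numbers are the union over cube-free `w` of the progressions `τ w, 2 τ w, 3 τ w, ...`,
of density `α w = 1 / τ w`.
-/

namespace Pool.Agent.GL3

open Finset Filter Topology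

/-- `n` is 3-powerful. -/
def P3 (n : ℕ) : Prop := 0 < n ∧ ∀ p : ℕ, Nat.Prime p → p ∣ n → p ^ 3 ∣ n

/-- `w` is cube-free. -/
def CF (w : ℕ) : Prop := 0 < w ∧ ∀ p : ℕ, Nat.Prime p → ¬ p ^ 3 ∣ w

/-- The product of the primes dividing `w`. -/
def rad (w : ℕ) : ℕ := ∏ p ∈ w.primeFactors, p

/-- The least 3-powerful number whose cube-free part is `w` (for cube-free `w`). -/
def A (w : ℕ) : ℕ := w * rad w ^ 3

/-- The cube root of `A w`. -/
noncomputable def τ (w : ℕ) : ℝ := (w : ℝ) ^ ((1 : ℝ) / 3) * rad w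

open Classical in
/-- The density of the class of the cube-free number `w` on the scale of cube roots. -/
noncomputable def α (w : ℕ) : ℝ := if CF w then 1 / ((w : ℝ) ^ ((1 : ℝ) / 3) * rad w) else 0

/-- The density of the 3-powerful numbers on the scale of cube roots. -/
noncomputable def γ : ℝ := ∑' w, α w

/-- `∏_(w' ≠ w) (1 - s α w')`. -/
noncomputable def PP (w : ℕ) (s : ℝ) : ℝ := ∏' w', (if w' = w then 1 else 1 - s * α w')

/-- `Ψ s = ∑_w α w ∏_(w' ≠ w) (1 - s α w')`: the density of the points followed by a gap `> s`. -/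
noncomputable def Ψ (s : ℝ) : ℝ := ∑' w, α w * PP w s

/-- The limit distribution function of the normalized gaps. -/
noncomputable def Φ (s : ℝ) : ℝ := 1 - Ψ s / γ

/-- The cube root. -/
noncomputable def cr (n : ℕ) : ℝ := (n : ℝ) ^ ((1 : ℝ) / 3)

open Classical in
/-- The 3-powerful numbers with cube root at most `T`. -/
noncomputable def PT (T : ℝ) : Finset ℕ := (Finset.range (⌊T ^ 3⌋₊ + 1)).filter P3

open Classical in
/-- The 3-powerful numbers with cube root at most `T` not followed by another one within `s` (on the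
scale of cube roots). -/
noncomputable def Iso (s T : ℝ) : Finset ℕ :=
  (PT T).filter fun n => ∀ m : ℕ, P3 m → n < m → cr n + s < cr m

open Classical in
/-- The 3-powerful numbers with cube root at most `T` followed by another one within `s`. -/
noncomputable def Near (s T : ℝ) : Finset ℕ :=
  (PT T).filter fun n => ∃ m : ℕ, P3 m ∧ n < m ∧ cr m ≤ cr n + s

/-- No multiple of `τ w'` in `(t, t + s]`. -/
def empt (w' : ℕ) (t s : ℝ) : Prop := ∀ i : ℕ, ¬ (t < i * τ w' ∧ i * τ w' ≤ t + s)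

/-! ### Basic facts -/

theorem rad_pos (w : ℕ) : 0 < rad w :=
  Finset.prod_pos fun _ hp => (Nat.prime_of_mem_primeFactors hp).pos

theorem CF_one : CF 1 := by
  refine ⟨one_pos, fun p hp h => ?_⟩
  have h1 := Nat.le_of_dvd one_pos h
  have h2 : 2 ^ 3 ≤ p ^ 3 := Nat.pow_le_pow_left hp.two_le 3
  omega

theorem A_pos {w : ℕ} (hw : CF w) : 0 < A w := Nat.mul_pos hw.1 (pow_pos (rad_pos w) 3)

theorem tau_cube (w : ℕ) : τ w ^ 3 = A w := by
  unfold τ A
  rw [mul_pow, ← Real.rpow_natCast ((w : ℝ) ^ ((1 : ℝ) / 3)), ← Real.rpow_mul (Nat.cast_nonneg w)]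
  norm_num

theorem one_le_tau {w : ℕ} (hw : CF w) : 1 ≤ τ w := by
  unfold τ
  have h1 : (1 : ℝ) ≤ (w : ℝ) ^ ((1 : ℝ) / 3) :=
    Real.one_le_rpow (by exact_mod_cast hw.1) (by norm_num)
  have h2 : (1 : ℝ) ≤ (rad w : ℝ) := by exact_mod_cast rad_pos w
  calc (1 : ℝ) = 1 * 1 := by ring
    _ ≤ _ := mul_le_mul h1 h2 zero_le_one (by positivity)

theorem tau_pos {w : ℕ} (hw : CF w) : 0 < τ w := lt_of_lt_of_le one_pos (one_le_tau hw)

theorem alpha_of_CF {w : ℕ} (hw : CF w) : α w = 1 / τ w := by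
  unfold α τ
  rw [if_pos hw]

theorem alpha_of_not {w : ℕ} (hw : ¬ CF w) : α w = 0 := by
  unfold α
  rw [if_neg hw]

theorem alpha_nonneg (w : ℕ) : 0 ≤ α w := by
  by_cases hw : CF w
  · rw [alpha_of_CF hw]
    exact div_nonneg zero_le_one (tau_pos hw).le
  · rw [alpha_of_not hw]

theorem alpha_pos {w : ℕ} (hw : CF w) : 0 < α w := by
  rw [alpha_of_CF hw]
  exact div_pos one_pos (tau_pos hw)

theorem alpha_le_one (w : ℕ) : α w ≤ 1 := by
  by_cases hw : CF w
  · rw [alpha_of_CF hw, div_le_one (tau_pos hw)]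
    exact one_le_tau hw
  · rw [alpha_of_not hw]
    exact zero_le_one

theorem cr_nonneg (n : ℕ) : 0 ≤ cr n := Real.rpow_nonneg (Nat.cast_nonneg n) _

theorem cr_cube (n : ℕ) : cr n ^ 3 = n := by
  unfold cr
  rw [← Real.rpow_natCast, ← Real.rpow_mul (Nat.cast_nonneg n)]
  norm_num

theorem cr_lt {m n : ℕ} : cr m < cr n ↔ m < n := by
  unfold cr
  rw [Real.rpow_lt_rpow_iff (Nat.cast_nonneg m) (Nat.cast_nonneg n) (by norm_num)]
  exact Nat.cast_lt

theorem cr_le {m n : ℕ} : cr m ≤ cr n ↔ m ≤ n := by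
  unfold cr
  rw [Real.rpow_le_rpow_iff (Nat.cast_nonneg m) (Nat.cast_nonneg n) (by norm_num)]
  exact Nat.cast_le

theorem cr_le_iff {n : ℕ} {T : ℝ} (hT : 0 ≤ T) : cr n ≤ T ↔ (n : ℝ) ≤ T ^ 3 := by
  rw [← cr_cube n]
  exact (pow_le_pow_iff_left₀ (cr_nonneg n) hT (by norm_num)).symm

theorem mem_PT {n : ℕ} {T : ℝ} (hT : 0 ≤ T) : n ∈ PT T ↔ P3 n ∧ cr n ≤ T := by
  classical
  unfold PT
  rw [Finset.mem_filter, Finset.mem_range, Nat.lt_succ_iff, Nat.le_floor_iff (by positivity),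
    cr_le_iff hT]
  exact and_comm

/-- The cube root of `A w * j ^ 3`. -/
theorem cr_rep (w j : ℕ) : cr (A w * j ^ 3) = j * τ w := by
  have h0 : 0 ≤ (j : ℝ) * τ w := by
    unfold τ
    positivity
  have h1 : (((A w * j ^ 3 : ℕ) : ℝ)) = (j * τ w) ^ 3 := by
    push_cast
    rw [mul_pow, tau_cube]
    ring
  unfold cr
  rw [h1, ← Real.rpow_natCast, ← Real.rpow_mul h0]
  norm_num

open Classical in
/-- The indices `j` of the points `j τ w <= T` of class `w` followed by no 3-powerful point within `s`. -/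
noncomputable def isoW (w : ℕ) (s T : ℝ) : ℕ :=
  ((Finset.Icc 1 ⌊T * α w⌋₊).filter
    fun j : ℕ => ∀ m : ℕ, P3 m → A w * j ^ 3 < m → j * τ w + s < cr m).card

open Classical in
/-- The indices `j` of the points `j τ w <= T` with a multiple of `τ w'` in `(j τ w, j τ w + s]`. -/
noncomputable def NP (w w' : ℕ) (s T : ℝ) : Finset ℕ :=
  (Finset.Icc 1 ⌊T * α w⌋₊).filter
    fun j : ℕ => ∃ i : ℕ, (j : ℝ) * τ w < i * τ w' ∧ i * τ w' ≤ j * τ w + s

open Classical in
/-- The indices `j` of the points `j τ w <= T` within `s` of a multiple of `τ w'` and of a multiple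
of `τ w''`. -/
noncomputable def TR (w w' w'' : ℕ) (s T : ℝ) : Finset ℕ :=
  (Finset.Icc 1 ⌊T * α w⌋₊).filter
    fun j : ℕ => (∃ i : ℕ, |(j : ℝ) * τ w - i * τ w'| ≤ s) ∧ ∃ k : ℕ, |(j : ℝ) * τ w - k * τ w''| ≤ s

open Classical in
/-- The 3-powerful numbers `n` with cube root `<= T` whose successor is within `s` (cube roots) and
such that one of the two classes is outside `F`. -/
noncomputable def Bad (F : Finset ℕ) (s T : ℝ) : Finset ℕ :=
  (PT T).filter fun n => ∃ w j w' j' : ℕ, CF w ∧ CF w' ∧ 0 < j ∧ 0 < j' ∧ n = A w * j ^ 3 ∧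
    n < A w' * j' ^ 3 ∧ (∀ m : ℕ, P3 m → n < m → A w' * j' ^ 3 ≤ m) ∧
    cr (A w' * j' ^ 3) ≤ cr n + s ∧ (w ∉ F ∨ w' ∉ F)

theorem card_near_add_iso (s T : ℝ) : (Near s T).card + (Iso s T).card = (PT T).card := by
  classical
  unfold Near Iso
  rw [← Finset.card_filter_add_card_filter_not (s := PT T)
    (fun n => ∃ m : ℕ, P3 m ∧ n < m ∧ cr m ≤ cr n + s)]
  congr 1
  refine congrArg Finset.card (Finset.filter_congr fun n _ => ?_)
  push Not
  rfl

end Pool.Agent.GL3
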