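import Pool.Agent.GL3.Iso

set_option autoImplicit false

/-!
# The limit law for the enumeration

For `T = cr (a m)` the set `PT T` is the image of `range (m + 1)` under `a`, and `Near s T` is the image of the `k <= m` with
`cr (a (k+1)) - cr (a k) <= s`. The limit law on the scale of cube roots follows from the counting theorems; the law for the gaps
themselves by comparison (`n' - n = t'^3 - t^3`) and the continuity of `Φ`.
-/

namespace Pool.Agent.GL3

open Finset Filter Topology

private theorem law_PT {a : ℕ → ℕ} (ha : StrictMono a) (hr : ∀ n : ℕ, (∃ k : ℕ, a k = n) ↔ P3 n) (m : ℕ) :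
    PT (cr (a m)) = (Finset.range (m + 1)).image a := by
  classical
  ext n
  rw [mem_PT (cr_nonneg _), cr_le, Finset.mem_image, ← hr n]
  constructor
  · rintro ⟨⟨k, rfl⟩, h2⟩
    exact ⟨k, Finset.mem_range.2 (Nat.lt_succ_of_le (ha.le_iff_le.1 h2)), rfl⟩
  · rintro ⟨k, hk, rfl⟩
    exact ⟨⟨k, rfl⟩, ha.le_iff_le.2 (Nat.le_of_lt_succ (Finset.mem_range.1 hk))⟩

private theorem law_card {a : ℕ → ℕ} (ha : StrictMono a) (hr : ∀ n : ℕ, (∃ k : ℕ, a k = n) ↔ P3 n) (m : ℕ) :
    (PT (cr (a m))).card = m + 1 := by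
  rw [law_PT ha hr, Finset.card_image_of_injective _ ha.injective, Finset.card_range]

private theorem law_top {a : ℕ → ℕ} (ha : StrictMono a) : Tendsto (fun m : ℕ => cr (a m)) atTop atTop := by
  have h1 : Tendsto (fun x : ℝ => x ^ ((1 : ℝ) / 3)) atTop atTop := tendsto_rpow_atTop (by norm_num)
  exact h1.comp (tendsto_natCast_atTop_atTop.comp ha.tendsto_atTop)

private theorem law_near {a : ℕ → ℕ} (ha : StrictMono a) (hr : ∀ n : ℕ, (∃ k : ℕ, a k = n) ↔ P3 n) (s : ℝ)
    (m : ℕ) : ((Finset.range (m + 1)).filter (fun k => cr (a (k + 1)) - cr (a k) ≤ s)).card =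
      (Near s (cr (a m))).card := by
  classical
  have h : Near s (cr (a m)) =
      ((Finset.range (m + 1)).filter (fun k => cr (a (k + 1)) - cr (a k) ≤ s)).image a := by
    ext n
    unfold Near
    rw [Finset.mem_filter, law_PT ha hr, Finset.mem_image, Finset.mem_image]
    constructor
    · rintro ⟨⟨k, hk, rfl⟩, n', h1, h2, h3⟩
      obtain ⟨k', rfl⟩ := (hr n').2 h1
      refine ⟨k, Finset.mem_filter.2 ⟨hk, ?_⟩, rfl⟩
      have h4 : k + 1 ≤ k' := ha.lt_iff_lt.1 h2
      have h5 : cr (a (k + 1)) ≤ cr (a k') := cr_le.2 (ha.le_iff_le.2 h4)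
      linarith
    · rintro ⟨k, hk, rfl⟩
      obtain ⟨h1, h2⟩ := Finset.mem_filter.1 hk
      exact ⟨⟨k, h1, rfl⟩, a (k + 1), (hr _).1 ⟨k + 1, rfl⟩, ha (Nat.lt_succ_self k), by linarith⟩
  rw [h, Finset.card_image_of_injective _ ha.injective]

theorem a_asymp {a : ℕ → ℕ} (ha : StrictMono a) (hr : ∀ n : ℕ, (∃ k : ℕ, a k = n) ↔ P3 n) :
    Tendsto (fun m : ℕ => cr (a m) / ((m : ℝ) + 1)) atTop (𝓝 (1 / γ)) := by
  have h1 := count_tendsto.comp (law_top ha)
  have hγ : γ ≠ 0 := by
    have := one_le_gamma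
    linarith
  have h2 := h1.inv₀ hγ
  rw [one_div]
  refine h2.congr fun m => ?_
  show ((((PT (cr (a m))).card : ℕ) : ℝ) / cr (a m))⁻¹ = _
  rw [law_card ha hr, inv_div]
  push_cast
  rfl

theorem law_cr {a : ℕ → ℕ} (ha : StrictMono a) (hr : ∀ n : ℕ, (∃ k : ℕ, a k = n) ↔ P3 n) {s : ℝ}
    (hs0 : 0 ≤ s) (hs1 : s < 1) :
    Tendsto (fun M : ℕ => (((Finset.range M).filter
      (fun m => cr (a (m + 1)) - cr (a m) ≤ s)).card : ℝ) / M) atTop (𝓝 (Φ s)) := by
  rw [← tendsto_add_atTop_iff_nat 1]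
  have h1 := (iso_tendsto hs0 hs1).comp (law_top ha)
  have h2 := (h1.mul (a_asymp ha hr)).const_sub 1
  have e : 1 - Ψ s * (1 / γ) = Φ s := by unfold Φ; ring
  rw [e] at h2
  refine h2.congr' ?_
  filter_upwards [(law_top ha).eventually_gt_atTop 0] with m hm
  show 1 - ((Iso s (cr (a m))).card : ℝ) / cr (a m) * (cr (a m) / ((m : ℝ) + 1)) = _
  rw [law_near ha hr]
  have h3 := card_near_add_iso s (cr (a m))
  rw [law_card ha hr] at h3
  have h4 : ((Near s (cr (a m))).card : ℝ) + ((Iso s (cr (a m))).card : ℝ) = (m : ℝ) + 1 := by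
    exact_mod_cast h3
  have h5 : ((m + 1 : ℕ) : ℝ) = (m : ℝ) + 1 := by push_cast; ring
  have h6 : (0 : ℝ) < (m : ℝ) + 1 := by positivity
  rw [h5]
  have h7 : ((Near s (cr (a m))).card : ℝ) = ((m : ℝ) + 1) - ((Iso s (cr (a m))).card : ℝ) := by linarith
  rw [h7]
  field_simp

private theorem law_sq (n : ℕ) : (n : ℝ) ^ ((2 : ℝ) / 3) = cr n ^ 2 := by
  unfold cr
  rw [← Real.rpow_natCast, ← Real.rpow_mul (Nat.cast_nonneg n)]
  norm_num

private theorem law_one {a : ℕ → ℕ} (hr : ∀ n : ℕ, (∃ k : ℕ, a k = n) ↔ P3 n) (m : ℕ) : 0 < cr (a m) := by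
  have h1 : 0 < a m := ((hr (a m)).1 ⟨m, rfl⟩).1
  unfold cr
  exact Real.rpow_pos_of_pos (by exact_mod_cast h1) _

private theorem law_imp {a : ℕ → ℕ} (ha : StrictMono a) (hr : ∀ n : ℕ, (∃ k : ℕ, a k = n) ↔ P3 n) {s : ℝ} {m : ℕ}
    (h : (a (m + 1) : ℝ) - a m ≤ 3 * s * (a m : ℝ) ^ ((2 : ℝ) / 3)) : cr (a (m + 1)) - cr (a m) ≤ s := by
  have h0 := law_one hr m
  have h1 : cr (a m) < cr (a (m + 1)) := cr_lt.2 (ha (Nat.lt_succ_self m))
  rw [law_sq, ← cr_cube (a (m + 1)), ← cr_cube (a m)] at h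
  set t := cr (a m) with ht
  set t' := cr (a (m + 1)) with ht'
  have h2 : 3 * t ^ 2 * (t' - t) ≤ 3 * t ^ 2 * s := by
    have h3 : 0 ≤ (t' - t) ^ 2 * (t' + 2 * t) := by
      have : 0 ≤ t' + 2 * t := by linarith
      positivity
    nlinarith
  exact le_of_mul_le_mul_left h2 (by positivity)

theorem law {a : ℕ → ℕ} (ha : StrictMono a) (hr : ∀ n : ℕ, (∃ k : ℕ, a k = n) ↔ P3 n) {s : ℝ}
    (hs0 : 0 ≤ s) (hs1 : s < 1) :
    Tendsto (fun M : ℕ => (((Finset.range M).filter
      (fun m => (a (m + 1) : ℝ) - a m ≤ 3 * s * (a m : ℝ) ^ ((2 : ℝ) / 3))).card : ℝ) / M) atTop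
      (𝓝 (Φ s)) := by
  classical
  have hle : ∀ M : ℕ, (((Finset.range M).filter
      (fun m => (a (m + 1) : ℝ) - a m ≤ 3 * s * (a m : ℝ) ^ ((2 : ℝ) / 3))).card : ℝ) / M ≤
      (((Finset.range M).filter (fun m => cr (a (m + 1)) - cr (a m) ≤ s)).card : ℝ) / M := by
    intro M
    refine div_le_div_of_nonneg_right ?_ (Nat.cast_nonneg M)
    have : ((Finset.range M).filter
      (fun m => (a (m + 1) : ℝ) - a m ≤ 3 * s * (a m : ℝ) ^ ((2 : ℝ) / 3))).card ≤
      ((Finset.range M).filter (fun m => cr (a (m + 1)) - cr (a m) ≤ s)).card := by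
      refine Finset.card_le_card fun m hm => ?_
      obtain ⟨h1, h2⟩ := Finset.mem_filter.1 hm
      exact Finset.mem_filter.2 ⟨h1, law_imp ha hr h2⟩
    exact_mod_cast this
  rcases hs0.lt_or_eq with hs | hs
  · have hγ := one_le_gamma
    rw [tendsto_order]
    refine ⟨fun b hb => ?_, fun b hb => ?_⟩
    · set ε := min s ((Φ s - b) / (2 * γ)) with hε
      have hε0 : 0 < ε := lt_min hs (div_pos (by linarith) (by linarith))
      have hεs : ε ≤ s := min_le_left _ _
      have hεγ : γ * ε ≤ (Φ s - b) / 2 := by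
        have h1 : ε ≤ (Φ s - b) / (2 * γ) := min_le_right _ _
        calc γ * ε ≤ γ * ((Φ s - b) / (2 * γ)) := mul_le_mul_of_nonneg_left h1 (by linarith)
          _ = (Φ s - b) / 2 := by field_simp
      have hlip := Phi_lip (s := s - ε) (s' := s) (by linarith) (by linarith) hs1.le
      have hΦ : b < Φ (s - ε) := by
        have : s - (s - ε) = ε := by ring
        rw [this] at hlip
        linarith
      obtain ⟨m₀, hm₀⟩ := eventually_atTop.1 ((law_top ha).eventually_ge_atTop (max 1 (4 / (3 * ε))))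
      have hlow : ∀ M : ℕ, (((Finset.range M).filter
          (fun m => cr (a (m + 1)) - cr (a m) ≤ s - ε)).card : ℝ) / M - (m₀ : ℝ) / M ≤
          (((Finset.range M).filter
            (fun m => (a (m + 1) : ℝ) - a m ≤ 3 * s * (a m : ℝ) ^ ((2 : ℝ) / 3))).card : ℝ) / M := by
        intro M
        rw [← sub_div]
        refine div_le_div_of_nonneg_right ?_ (Nat.cast_nonneg M)
        rw [sub_le_iff_le_add]
        have h1 : ((Finset.range M).filter (fun m => cr (a (m + 1)) - cr (a m) ≤ s - ε)).card ≤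
            ((Finset.range M).filter
              (fun m => (a (m + 1) : ℝ) - a m ≤ 3 * s * (a m : ℝ) ^ ((2 : ℝ) / 3))).card + m₀ := by
          have h2 : (Finset.range M).filter (fun m => cr (a (m + 1)) - cr (a m) ≤ s - ε) ⊆
              ((Finset.range M).filter
                (fun m => (a (m + 1) : ℝ) - a m ≤ 3 * s * (a m : ℝ) ^ ((2 : ℝ) / 3))) ∪
                Finset.range m₀ := by
            intro m hm
            obtain ⟨h3, h4⟩ := Finset.mem_filter.1 hm
            rw [Finset.mem_union]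
            by_cases h5 : m₀ ≤ m
            · left
              refine Finset.mem_filter.2 ⟨h3, ?_⟩
              have h6 := hm₀ m h5
              have h7 : 1 ≤ cr (a m) := (le_max_left _ _).trans h6
              have h8 : 4 / (3 * ε) ≤ cr (a m) := (le_max_right _ _).trans h6
              have h9 : cr (a m) < cr (a (m + 1)) := cr_lt.2 (ha (Nat.lt_succ_self m))
              have e1 : (a (m + 1) : ℝ) = cr (a (m + 1)) ^ 3 := (cr_cube _).symm
              have e2 : (a m : ℝ) = cr (a m) ^ 3 := (cr_cube _).symm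
              rw [law_sq, e1]
              conv_lhs => rw [e2]
              set t := cr (a m) with ht
              obtain ⟨u, hu⟩ : ∃ u, u = cr (a (m + 1)) - t := ⟨_, rfl⟩
              have hu1 : cr (a (m + 1)) = t + u := by rw [hu]; ring
              rw [← hu] at h4
              rw [hu1] at h9 ⊢
              have hu0 : 0 < u := by linarith
              have hu2 : u ≤ 1 := by linarith
              rw [div_le_iff₀ (by positivity)] at h8
              have k1 : 4 * t ≤ 3 * ε * t ^ 2 := by nlinarith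
              have k2 : u ^ 2 ≤ 1 := by nlinarith
              have k3 : u ^ 3 ≤ 1 := by nlinarith
              have k4 : 3 * t ^ 2 * u ≤ 3 * t ^ 2 * (s - ε) :=
                mul_le_mul_of_nonneg_left h4 (by positivity)
              have k5 : 3 * t * u ^ 2 ≤ 3 * t * 1 := mul_le_mul_of_nonneg_left k2 (by positivity)
              nlinarith
            · right
              exact Finset.mem_range.2 (not_le.1 h5)
          refine (Finset.card_le_card h2).trans ((Finset.card_union_le _ _).trans ?_)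
          rw [Finset.card_range]
        exact_mod_cast h1
      have hlim : Tendsto (fun M : ℕ => (((Finset.range M).filter
          (fun m => cr (a (m + 1)) - cr (a m) ≤ s - ε)).card : ℝ) / M - (m₀ : ℝ) / M) atTop
          (𝓝 (Φ (s - ε) - 0)) :=
        (law_cr ha hr (by linarith) (by linarith)).sub (tendsto_const_div_atTop_nhds_zero_nat _)
      rw [sub_zero] at hlim
      filter_upwards [hlim.eventually_const_lt hΦ] with M hM
      exact lt_of_lt_of_le hM (hlow M)
    · filter_upwards [(law_cr ha hr hs0 hs1).eventually_lt_const hb] with M hM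
      exact lt_of_le_of_lt (hle M) hM
  · have h1 := law_cr ha hr hs0 hs1
    have h2 : Φ s = 0 := by rw [← hs]; exact Phi_zero
    rw [h2] at h1 ⊢
    exact squeeze_zero (fun M => by positivity) hle h1

end Pool.Agent.GL3
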