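import Pool.Agent.GL3.Law

set_option autoImplicit false

/-!
# A lower bound for the exceptional set, all exponents between 1 and 2

`θ = τ 2 = 16^(1/3)`. By the pigeonhole principle many integers `1 <= j <= S` satisfy `|j θ - i| <= δ` for
some integer `i`, with `δ = c0 S^(c'-2)`; the 3-powerful numbers `16 j^3` and `i^3` are then close, and the
smaller of the two is followed by a small gap. Different `j` give different numbers.
-/

namespace Pool.Agent.GL3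

open Finset Filter Topology

private theorem CF_two : CF 2 := by
  refine ⟨two_pos, fun p hp h => ?_⟩
  have h1 := Nat.le_of_dvd two_pos h
  have h2 : 2 ^ 3 ≤ p ^ 3 := Nat.pow_le_pow_left hp.two_le 3
  omega

private theorem A_two : A 2 = 16 := by
  unfold A rad
  rw [Nat.Prime.primeFactors Nat.prime_two, Finset.prod_singleton]
  norm_num

private theorem A_one : A 1 = 1 := by
  unfold A rad
  simp

private theorem tau_one : τ 1 = 1 := by
  unfold τ rad
  simp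

private theorem tau_two_lo : (5 / 2 : ℝ) ≤ τ 2 := by
  have h := tau_cube 2
  rw [A_two] at h
  by_contra h1
  have h2 : τ 2 < 5 / 2 := not_le.1 h1
  have h3 : τ 2 ^ 3 < (5 / 2 : ℝ) ^ 3 := pow_lt_pow_left₀ h2 (tau_pos CF_two).le (by norm_num)
  rw [h] at h3
  norm_num at h3

private theorem tau_two_hi : τ 2 ≤ 3 := by
  have h := tau_cube 2
  rw [A_two] at h
  by_contra h1
  have h2 : 3 < τ 2 := not_le.1 h1
  have h3 : (3 : ℝ) ^ 3 < τ 2 ^ 3 := pow_lt_pow_left₀ h2 (by norm_num) (by norm_num)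
  rw [h] at h3
  norm_num at h3

open Classical in
private theorem pig (θ : ℝ) {δ : ℝ} (hδ : 0 < δ) (hδ1 : δ ≤ 1) (S : ℕ) :
    ((S : ℝ) + 1) * δ / 2 - 1 ≤
      (((Finset.Icc 1 S).filter fun j : ℕ => ∃ i : ℤ, |(j : ℝ) * θ - i| ≤ δ).card : ℝ) := by
  obtain ⟨K, hK⟩ : ∃ K : ℕ, K = ⌈1 / δ⌉₊ := ⟨_, rfl⟩
  have hK1 : 1 / δ ≤ K := by rw [hK]; exact Nat.le_ceil _
  have hKp : (0 : ℝ) < K := lt_of_lt_of_le (by positivity) hK1
  have hK2 : (K : ℝ) * δ ≤ 2 := by
    have h1 : (K : ℝ) < 1 / δ + 1 := by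
      rw [hK]
      exact Nat.ceil_lt_add_one (by positivity)
    have h2 : (K : ℝ) * δ ≤ (1 / δ + 1) * δ := mul_le_mul_of_nonneg_right h1.le hδ.le
    have h3 : (1 / δ + 1) * δ = 1 + δ := by
      field_simp
    linarith
  have hK3 : 1 ≤ (K : ℝ) * δ := by
    rw [div_le_iff₀ hδ] at hK1
    exact hK1
  obtain ⟨f, hf⟩ : ∃ f : ℕ → ℕ, ∀ j, f j = ⌊Int.fract ((j : ℝ) * θ) * K⌋₊ := ⟨_, fun _ => rfl⟩
  have hfK : ∀ j ∈ Finset.range (S + 1), f j ∈ Finset.range K := by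
    intro j _
    rw [Finset.mem_range, hf, Nat.floor_lt (mul_nonneg (Int.fract_nonneg _) hKp.le)]
    have := Int.fract_lt_one ((j : ℝ) * θ)
    nlinarith
  have hKn : 0 < K := by exact_mod_cast hKp
  obtain ⟨y, hy, hb⟩ := Finset.exists_le_card_fiber_of_nsmul_le_card_of_maps_to
    (b := ((S : ℝ) + 1) * δ / 2) hfK ⟨0, Finset.mem_range.2 hKn⟩ (by
      rw [Finset.card_range, Finset.card_range, nsmul_eq_mul]
      push_cast
      have : (0 : ℝ) ≤ S := Nat.cast_nonneg S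
      nlinarith)
  set F : Finset ℕ := (Finset.range (S + 1)).filter (fun j => f j = y) with hF
  have hFne : F.Nonempty := by
    rw [← Finset.card_pos]
    have h1 : (0 : ℝ) < F.card := lt_of_lt_of_le (by positivity) hb
    exact_mod_cast h1
  set j0 := F.min' hFne with hj0
  have hj0F : j0 ∈ F := Finset.min'_mem F hFne
  have hcl : ∀ j ∈ F, ∀ k ∈ F, |Int.fract ((j : ℝ) * θ) - Int.fract ((k : ℝ) * θ)| ≤ δ := by
    intro j hj k hk
    have h1 := (Finset.mem_filter.1 hj).2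
    have h2 := (Finset.mem_filter.1 hk).2
    rw [hf] at h1 h2
    have a1 := Nat.floor_le (mul_nonneg (Int.fract_nonneg ((j : ℝ) * θ)) hKp.le)
    have a2 := Nat.lt_floor_add_one (Int.fract ((j : ℝ) * θ) * K)
    have a3 := Nat.floor_le (mul_nonneg (Int.fract_nonneg ((k : ℝ) * θ)) hKp.le)
    have a4 := Nat.lt_floor_add_one (Int.fract ((k : ℝ) * θ) * K)
    rw [h1] at a1 a2
    rw [h2] at a3 a4
    rw [abs_le]
    constructor
    · by_contra h3
      push Not at h3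
      nlinarith
    · by_contra h3
      push Not at h3
      nlinarith
  have hcard : (F.erase j0).card ≤
      ((Finset.Icc 1 S).filter fun j : ℕ => ∃ i : ℤ, |(j : ℝ) * θ - i| ≤ δ).card := by
    refine Finset.card_le_card_of_injOn (fun j => j - j0) ?_ ?_
    · intro j hj
      obtain ⟨h1, h2⟩ := Finset.mem_erase.1 hj
      have h3 : j0 ≤ j := Finset.min'_le F j h2
      have h4 : j < S + 1 := Finset.mem_range.1 (Finset.mem_filter.1 h2).1
      rw [Finset.mem_coe, Finset.mem_filter, Finset.mem_Icc]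
      beta_reduce
      refine ⟨⟨by omega, by omega⟩, ⌊(j : ℝ) * θ⌋ - ⌊(j0 : ℝ) * θ⌋, ?_⟩
      have h5 := hcl j h2 j0 hj0F
      have h6 : ((j - j0 : ℕ) : ℝ) * θ - ((⌊(j : ℝ) * θ⌋ - ⌊(j0 : ℝ) * θ⌋ : ℤ) : ℝ) =
          Int.fract ((j : ℝ) * θ) - Int.fract ((j0 : ℝ) * θ) := by
        rw [Nat.cast_sub h3, Int.fract, Int.fract]
        push_cast
        ring
      rw [h6]
      exact h5
    · intro j hj k hk hjk
      have h1 : j0 ≤ j := Finset.min'_le F j (Finset.mem_erase.1 hj).2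
      have h2 : j0 ≤ k := Finset.min'_le F k (Finset.mem_erase.1 hk).2
      simp only at hjk
      omega
  rw [Finset.card_erase_of_mem hj0F] at hcard
  have h7 : (F.card : ℝ) - 1 ≤
      (((Finset.Icc 1 S).filter fun j : ℕ => ∃ i : ℤ, |(j : ℝ) * θ - i| ≤ δ).card : ℝ) := by
    have h8 : F.card ≤
        ((Finset.Icc 1 S).filter fun j : ℕ => ∃ i : ℤ, |(j : ℝ) * θ - i| ≤ δ).card + 1 := by
      omega
    have h9 : (F.card : ℝ) ≤
        (((Finset.Icc 1 S).filter fun j : ℕ => ∃ i : ℤ, |(j : ℝ) * θ - i| ≤ δ).card : ℝ) + 1 := by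
      exact_mod_cast h8
    linarith
  linarith

private theorem PT_card {a : ℕ → ℕ} (ha : StrictMono a)
    (hr : ∀ n : ℕ, (∃ k : ℕ, a k = n) ↔ P3 n) (m : ℕ) : (PT (cr (a m))).card = m + 1 := by
  classical
  have h : PT (cr (a m)) = (Finset.range (m + 1)).image a := by
    ext n
    rw [mem_PT (cr_nonneg _), cr_le, Finset.mem_image, ← hr n]
    constructor
    · rintro ⟨⟨k, rfl⟩, h2⟩
      exact ⟨k, Finset.mem_range.2 (Nat.lt_succ_of_le (ha.le_iff_le.1 h2)), rfl⟩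
    · rintro ⟨k, hk, rfl⟩
      exact ⟨⟨k, rfl⟩, ha.le_iff_le.2 (Nat.le_of_lt_succ (Finset.mem_range.1 hk))⟩
  rw [h, Finset.card_image_of_injective _ ha.injective, Finset.card_range]

private theorem PT_ge {T : ℝ} (hT : 0 ≤ T) : T - 1 ≤ ((PT T).card : ℝ) := by
  classical
  have h1 : (Finset.Icc 1 ⌊T⌋₊).card ≤ (PT T).card := by
    refine Finset.card_le_card_of_injOn (fun j => A 1 * j ^ 3) ?_ ?_
    · intro j hj
      have hj' := Finset.mem_Icc.1 hj
      rw [Finset.mem_coe, mem_PT hT, cr_rep, tau_one, mul_one]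
      exact ⟨P3_rep CF_one hj'.1, (Nat.le_floor_iff hT).1 hj'.2⟩
    · intro j hj k hk hjk
      exact (rep_unique CF_one CF_one (Finset.mem_Icc.1 hj).1 (Finset.mem_Icc.1 hk).1 hjk).2
  rw [Nat.card_Icc, Nat.add_sub_cancel] at h1
  have h2 : (⌊T⌋₊ : ℝ) ≤ ((PT T).card : ℝ) := by exact_mod_cast h1
  have h3 := Nat.lt_floor_add_one T
  linarith

private theorem next_le {a : ℕ → ℕ} (ha : StrictMono a)
    (hr : ∀ n : ℕ, (∃ k : ℕ, a k = n) ↔ P3 n) {m v : ℕ} (hv : P3 v) (h : a m < v) :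
    a (m + 1) ≤ v := by
  obtain ⟨k, rfl⟩ := (hr v).2 hv
  exact ha.le_iff_le.2 (ha.lt_iff_lt.1 h)

private theorem point {a : ℕ → ℕ} (ha : StrictMono a)
    (hr : ∀ n : ℕ, (∃ k : ℕ, a k = n) ↔ P3 n) {j : ℕ} (hj : 1 ≤ j) {δ : ℝ} (hδ : 0 < δ)
    (hδ1 : δ ≤ 1 / 2) {i : ℤ} (hi : |(j : ℝ) * τ 2 - i| ≤ δ) :
    ∃ m i : ℕ, 0 < i ∧ |(j : ℝ) * τ 2 - i| ≤ δ ∧
      (a m = A 2 * j ^ 3 ∨ a m = A 1 * i ^ 3) ∧
      (a (m + 1) : ℝ) - a m ≤ 3 * δ * (j * τ 2 + 1) ^ 2 ∧ (m : ℝ) + 1 ≤ γ * (j * τ 2) ∧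
      j * τ 2 - 2 ≤ (m : ℝ) + 1 := by
  have hlo := tau_two_lo
  have hj1 : (1 : ℝ) ≤ j := by exact_mod_cast hj
  have hx0 : (5 / 2 : ℝ) ≤ j * τ 2 := by nlinarith
  have hi2 := abs_le.1 hi
  have hipos : 0 < i := by
    have : (0 : ℝ) < i := by linarith [hi2.2]
    exact_mod_cast this
  obtain ⟨k, rfl⟩ := Int.eq_ofNat_of_zero_le hipos.le
  have hk0 : 0 < k := by exact_mod_cast hipos
  have hi3 : |(j : ℝ) * τ 2 - k| ≤ δ := by exact_mod_cast hi
  have hi4 := abs_le.1 hi3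
  have hne : A 2 * j ^ 3 ≠ A 1 * k ^ 3 := by
    intro h
    have := (rep_unique CF_two CF_one hj hk0 h).1
    omega
  have c1 : ((A 2 * j ^ 3 : ℕ) : ℝ) = (j * τ 2) ^ 3 := by
    push_cast
    rw [mul_pow, tau_cube]
    ring
  have c2 : ((A 1 * k ^ 3 : ℕ) : ℝ) = (k : ℝ) ^ 3 := by
    rw [A_one]
    push_cast
    ring
  have hγ : 0 < γ := lt_of_lt_of_le one_pos one_le_gamma
  obtain ⟨x, hx⟩ : ∃ x : ℝ, x = j * τ 2 := ⟨_, rfl⟩
  have hk1 : (0 : ℝ) ≤ k := Nat.cast_nonneg k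
  have hdiff : |x ^ 3 - (k : ℝ) ^ 3| ≤ 3 * δ * (x + 1) ^ 2 := by
    have e1 : x ^ 3 - (k : ℝ) ^ 3 = (x - k) * (x ^ 2 + x * k + k ^ 2) := by ring
    rw [e1, abs_mul]
    have e2 : 0 ≤ x ^ 2 + x * k + (k : ℝ) ^ 2 := by
      have : 0 ≤ x := by rw [hx]; linarith
      positivity
    rw [abs_of_nonneg e2]
    have e3 : x ^ 2 + x * k + (k : ℝ) ^ 2 ≤ 3 * (x + 1) ^ 2 := by
      have e4 : (k : ℝ) ≤ x + 1 := by rw [hx]; linarith [hi4.1]
      have e5 : 0 ≤ x := by rw [hx]; linarith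
      nlinarith
    have e6 : |x - k| ≤ δ := by rw [hx]; exact hi3
    calc |x - k| * (x ^ 2 + x * k + (k : ℝ) ^ 2) ≤ δ * (3 * (x + 1) ^ 2) :=
          mul_le_mul e6 e3 e2 hδ.le
      _ = 3 * δ * (x + 1) ^ 2 := by ring
  rcases Nat.lt_or_gt_of_ne hne with h | h
  · obtain ⟨m, hm⟩ := (hr (A 2 * j ^ 3)).2 (P3_rep CF_two hj)
    have hcr : cr (a m) = j * τ 2 := by rw [hm, cr_rep]
    have hcd := PT_card ha hr m
    refine ⟨m, k, hk0, hi3, Or.inl hm, ?_, ?_, ?_⟩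
    · have h1 : a (m + 1) ≤ A 1 * k ^ 3 := next_le ha hr (P3_rep CF_one hk0) (by rw [hm]; exact h)
      have h2 : (a (m + 1) : ℝ) ≤ (k : ℝ) ^ 3 := by
        rw [← c2]
        exact_mod_cast h1
      rw [hm, c1, ← hx]
      have h3 := (abs_le.1 hdiff).1
      linarith
    · have h1 := card_PT_le (cr_nonneg (a m))
      rw [hcd, hcr] at h1
      push_cast at h1
      exact h1
    · have h1 := PT_ge (cr_nonneg (a m))
      rw [hcd, hcr] at h1
      push_cast at h1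
      linarith
  · obtain ⟨m, hm⟩ := (hr (A 1 * k ^ 3)).2 (P3_rep CF_one hk0)
    have hcr : cr (a m) = k := by rw [hm, cr_rep, tau_one, mul_one]
    have hcd := PT_card ha hr m
    have hkx : (k : ℝ) ≤ j * τ 2 := by
      have h1 : cr (A 1 * k ^ 3) ≤ cr (A 2 * j ^ 3) := cr_le.2 (le_of_lt h)
      rw [cr_rep, cr_rep, tau_one, mul_one] at h1
      exact h1
    refine ⟨m, k, hk0, hi3, Or.inr hm, ?_, ?_, ?_⟩
    · have h1 : a (m + 1) ≤ A 2 * j ^ 3 := next_le ha hr (P3_rep CF_two hj) (by rw [hm]; exact h)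
      have h2 : (a (m + 1) : ℝ) ≤ (j * τ 2) ^ 3 := by
        rw [← c1]
        exact_mod_cast h1
      rw [hm, c2]
      rw [← hx] at h2 ⊢
      have h3 := (abs_le.1 hdiff).2
      linarith
    · have h1 := card_PT_le (cr_nonneg (a m))
      rw [hcd, hcr] at h1
      push_cast at h1
      exact h1.trans (mul_le_mul_of_nonneg_left hkx hγ.le)
    · have h1 := PT_ge (cr_nonneg (a m))
      rw [hcd, hcr] at h1
      push_cast at h1
      linarith [hi4.2]

theorem exc_low {a : ℕ → ℕ} (ha : StrictMono a) (hr : ∀ n : ℕ, (∃ k : ℕ, a k = n) ↔ P3 n)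
    {c c' : ℝ} (hc : 0 < c) (hc1 : 1 < c') (hc2 : c' < 2) : ∃ (c1 : ℝ) (M0 : ℕ), 0 < c1 ∧
    ∀ M : ℕ, M0 ≤ M → c1 * (M : ℝ) ^ (c' - 1) ≤ (((Finset.range M).filter
      (fun m => (a (m + 1) : ℝ) - a m ≤ c * ((m : ℝ) + 1) ^ c')).card : ℝ) := by
  classical
  have hθ1 := tau_two_lo
  have hθ2 := tau_two_hi
  have hγ : 0 < γ := lt_of_lt_of_le one_pos one_le_gamma
  obtain ⟨θ, hθ⟩ : ∃ θ : ℝ, θ = τ 2 := ⟨_, rfl⟩
  rw [← hθ] at hθ1 hθ2
  have hθ0 : 0 < θ := by linarith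
  obtain ⟨c0, hc0⟩ : ∃ c0 : ℝ, c0 = min (1 / 2) (c / 192) := ⟨_, rfl⟩
  have hc0p : 0 < c0 := by
    rw [hc0]
    exact lt_min (by norm_num) (by positivity)
  have hc0a : c0 ≤ 1 / 2 := by rw [hc0]; exact min_le_left _ _
  have hc0b : c0 ≤ c / 192 := by rw [hc0]; exact min_le_right _ _
  obtain ⟨U, hU⟩ : ∃ U : ℝ, U = (4 / c0) ^ (1 / (c' - 1)) := ⟨_, rfl⟩
  have hU0 : 0 ≤ U := by rw [hU]; positivity
  obtain ⟨q, hq⟩ : ∃ q : ℝ, q = 1 / (2 * γ * θ) := ⟨_, rfl⟩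
  have hq0 : 0 < q := by rw [hq]; positivity
  obtain ⟨M0, hM0⟩ := exists_nat_ge ((U + 1) / q)
  refine ⟨c0 / 4 * q ^ (c' - 1), M0, by positivity, ?_⟩
  intro M hM
  have hMr : (U + 1) / q ≤ (M : ℝ) := hM0.trans (by exact_mod_cast hM)
  have hqM : U + 1 ≤ q * M := by
    rw [div_le_iff₀ hq0] at hMr
    linarith
  obtain ⟨S, hS⟩ : ∃ S : ℕ, S = ⌊(M : ℝ) / (γ * θ)⌋₊ := ⟨_, rfl⟩
  have hMq : (M : ℝ) / (γ * θ) = 2 * (q * M) := by
    rw [hq]
    field_simp
  have hSle : (S : ℝ) ≤ (M : ℝ) / (γ * θ) := by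
    rw [hS]
    exact Nat.floor_le (by positivity)
  have hSge : q * M ≤ (S : ℝ) := by
    have h1 : (M : ℝ) / (γ * θ) < (S : ℝ) + 1 := by
      rw [hS]
      exact Nat.lt_floor_add_one _
    rw [hMq] at h1
    linarith
  have hS1 : (1 : ℝ) ≤ S := by linarith
  have hSU : U ≤ S := by linarith
  have hS0 : (0 : ℝ) < S := by linarith
  obtain ⟨δ, hδ⟩ : ∃ δ : ℝ, δ = c0 * (S : ℝ) ^ (c' - 2) := ⟨_, rfl⟩
  have hδ0 : 0 < δ := by rw [hδ]; positivity
  have hSc : (S : ℝ) ^ (c' - 2) ≤ 1 := Real.rpow_le_one_of_one_le_of_nonpos hS1 (by linarith)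
  have hδ1 : δ ≤ 1 / 2 := by
    rw [hδ]
    calc c0 * (S : ℝ) ^ (c' - 2) ≤ 1 / 2 * 1 :=
          mul_le_mul hc0a hSc (by positivity) (by norm_num)
      _ = 1 / 2 := by norm_num
  have hpig := pig θ hδ0 (by linarith) S
  set G : Finset ℕ := (Finset.Icc 1 S).filter fun j : ℕ => ∃ i : ℤ, |(j : ℝ) * θ - i| ≤ δ with hG
  -- the points
  have hpt : ∀ j : ℕ, j ∈ G → ∃ m i : ℕ, 0 < i ∧ |(j : ℝ) * θ - i| ≤ δ ∧
      (a m = A 2 * j ^ 3 ∨ a m = A 1 * i ^ 3) ∧
      (a (m + 1) : ℝ) - a m ≤ 3 * δ * (j * θ + 1) ^ 2 ∧ (m : ℝ) + 1 ≤ γ * (j * θ) ∧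
      j * θ - 2 ≤ (m : ℝ) + 1 := by
    intro j hj
    obtain ⟨hj1, i, hi⟩ := Finset.mem_filter.1 hj
    have := point ha hr (Finset.mem_Icc.1 hj1).1 hδ0 hδ1 (i := i) (by rw [← hθ]; exact hi)
    rw [← hθ] at this
    exact this
  choose! m i hi0 hi hv hgap hmle hmge using hpt
  have hcard : G.card ≤ ((Finset.range M).filter
      (fun m => (a (m + 1) : ℝ) - a m ≤ c * ((m : ℝ) + 1) ^ c')).card := by
    refine Finset.card_le_card_of_injOn m ?_ ?_
    · intro j hj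
      have hj' : j ∈ G := hj
      have hjI := Finset.mem_Icc.1 (Finset.mem_filter.1 hj').1
      have hj1 : (1 : ℝ) ≤ j := by exact_mod_cast hjI.1
      have hjS : (j : ℝ) ≤ S := by exact_mod_cast hjI.2
      have g1 := hmle j hj'
      have g2 := hmge j hj'
      have g3 := hgap j hj'
      rw [Finset.mem_coe, Finset.mem_filter, Finset.mem_range]
      constructor
      · have h1 : γ * ((j : ℝ) * θ) ≤ M := by
          have h2 : (j : ℝ) ≤ (M : ℝ) / (γ * θ) := hjS.trans hSle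
          rw [le_div_iff₀ (by positivity)] at h2
          linarith
        have h3 : (m j : ℝ) + 1 ≤ M := g1.trans h1
        have h4 : m j + 1 ≤ M := by exact_mod_cast h3
        omega
      · refine g3.trans ?_
        have h5 : (j : ℝ) / 2 ≤ (m j : ℝ) + 1 := by nlinarith
        have h6 : ((j : ℝ) / 2) ^ c' ≤ ((m j : ℝ) + 1) ^ c' :=
          Real.rpow_le_rpow (by positivity) h5 (by linarith)
        have h7 : (j : ℝ) * θ + 1 ≤ 4 * j := by nlinarith
        have h8 : 3 * δ * ((j : ℝ) * θ + 1) ^ 2 ≤ 48 * δ * (j : ℝ) ^ 2 := by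
          have h9 : ((j : ℝ) * θ + 1) ^ 2 ≤ (4 * j) ^ 2 :=
            pow_le_pow_left₀ (by positivity) h7 2
          nlinarith
        have h10 : δ ≤ c0 * (j : ℝ) ^ (c' - 2) := by
          rw [hδ]
          exact mul_le_mul_of_nonneg_left
            (Real.rpow_le_rpow_of_nonpos (by linarith) hjS (by linarith)) hc0p.le
        have h11 : (j : ℝ) ^ (c' - 2) * (j : ℝ) ^ 2 = (j : ℝ) ^ c' := by
          rw [← Real.rpow_natCast (j : ℝ) 2, ← Real.rpow_add (by linarith)]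
          congr 1
          push_cast
          ring
        have h12 : (j : ℝ) ^ c' / 4 ≤ ((j : ℝ) / 2) ^ c' := by
          rw [Real.div_rpow (by linarith) (by norm_num)]
          refine div_le_div_of_nonneg_left (by positivity) (by positivity) ?_
          calc (2 : ℝ) ^ c' ≤ 2 ^ (2 : ℝ) := Real.rpow_le_rpow_of_exponent_le (by norm_num) hc2.le
            _ = 4 := by norm_num
        have h13 : 0 < (j : ℝ) ^ c' := by positivity
        calc 3 * δ * ((j : ℝ) * θ + 1) ^ 2 ≤ 48 * δ * (j : ℝ) ^ 2 := h8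
          _ ≤ 48 * (c0 * (j : ℝ) ^ (c' - 2)) * (j : ℝ) ^ 2 := by
              have : 0 ≤ (j : ℝ) ^ 2 := by positivity
              nlinarith
          _ = 48 * c0 * (j : ℝ) ^ c' := by rw [← h11]; ring
          _ ≤ 48 * (c / 192) * (j : ℝ) ^ c' := by nlinarith
          _ = c * ((j : ℝ) ^ c' / 4) := by ring
          _ ≤ c * ((m j : ℝ) + 1) ^ c' :=
              mul_le_mul_of_nonneg_left (h12.trans h6) hc.le
    · intro j hj k hk hjk
      have hj' : j ∈ G := hj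
      have hk' : k ∈ G := hk
      have hj1 := (Finset.mem_Icc.1 (Finset.mem_filter.1 hj').1).1
      have hk1 := (Finset.mem_Icc.1 (Finset.mem_filter.1 hk').1).1
      have g1 := hv j hj'
      have g2 := hv k hk'
      rw [hjk] at g1
      rcases g1 with g1 | g1 <;> rcases g2 with g2 | g2
      · exact (rep_unique CF_two CF_two hj1 hk1 (g1.symm.trans g2)).2
      · have := (rep_unique CF_two CF_one hj1 (hi0 k hk') (g1.symm.trans g2)).1
        omega
      · have := (rep_unique CF_one CF_two (hi0 j hj') hk1 (g1.symm.trans g2)).1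
        omega
      · have h1 := (rep_unique CF_one CF_one (hi0 j hj') (hi0 k hk') (g1.symm.trans g2)).2
        have h2 := abs_le.1 (hi j hj')
        have h3 := abs_le.1 (hi k hk')
        have h4 : (i j : ℝ) = i k := by exact_mod_cast h1
        rw [h4] at h2
        have h5 : (j : ℝ) * θ - k * θ ≤ 1 := by linarith [h2.2, h3.1]
        have h6 : (k : ℝ) * θ - j * θ ≤ 1 := by linarith [h2.1, h3.2]
        by_contra hne
        rcases Nat.lt_or_gt_of_ne hne with h7 | h7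
        · have h8 : (j : ℝ) + 1 ≤ k := by exact_mod_cast h7
          nlinarith
        · have h8 : (k : ℝ) + 1 ≤ j := by exact_mod_cast h7
          nlinarith
  have hfin : c0 / 4 * q ^ (c' - 1) * (M : ℝ) ^ (c' - 1) ≤ (G.card : ℝ) := by
    refine le_trans ?_ hpig
    have h1 : (4 / c0) ≤ (S : ℝ) ^ (c' - 1) := by
      have h2 : U ^ (c' - 1) ≤ (S : ℝ) ^ (c' - 1) := Real.rpow_le_rpow hU0 hSU (by linarith)
      have h3 : U ^ (c' - 1) = 4 / c0 := by
        rw [hU, ← Real.rpow_mul (by positivity), one_div_mul_cancel (by linarith), Real.rpow_one]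
      rw [h3] at h2
      exact h2
    have h4 : (S : ℝ) * δ = c0 * (S : ℝ) ^ (c' - 1) := by
      rw [hδ]
      have h5 : (S : ℝ) ^ (c' - 1) = (S : ℝ) ^ (c' - 2) * S := by
        rw [← Real.rpow_add_one hS0.ne']
        congr 1
        ring
      rw [h5]
      ring
    have h6 : q ^ (c' - 1) * (M : ℝ) ^ (c' - 1) ≤ (S : ℝ) ^ (c' - 1) := by
      rw [← Real.mul_rpow hq0.le (Nat.cast_nonneg M)]
      exact Real.rpow_le_rpow (by positivity) hSge (by linarith)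
    have h7 : 4 ≤ c0 * (S : ℝ) ^ (c' - 1) := by
      rw [div_le_iff₀ hc0p] at h1
      linarith
    have h8 : c0 / 4 * q ^ (c' - 1) * (M : ℝ) ^ (c' - 1) ≤ c0 / 4 * (S : ℝ) ^ (c' - 1) := by
      rw [mul_assoc]
      exact mul_le_mul_of_nonneg_left h6 (by positivity)
    nlinarith
  exact hfin.trans (by exact_mod_cast hcard)

end Pool.Agent.GL3
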