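import Pool.Agent.GL3.Rep

set_option autoImplicit false

/-!
# The densities `α w` are linearly independent over the rationals

Fix `w0 ∈ F`. The numbers `x w = α w / α w0` have rational cubes `A w0 / A w`, which are not cubes of rational
numbers for `w <> w0` (`rep_unique`), so their traces vanish in the finite extension `K` of the rational numbers
generated by them, and the trace of `x w0 = 1` is `[K : ℚ] <> 0`.
-/

namespace Pool.Agent.GL3

open Finset Filter Topology

private theorem ind_root {w w0 : ℕ} (hw : CF w) (hw0 : CF w0) (hne : w ≠ w0) (b : ℚ) :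
    b ^ 3 ≠ (A w0 : ℚ) / (A w : ℚ) := by
  intro hb
  have hA : (0 : ℚ) < A w := by exact_mod_cast A_pos hw
  have hA0 : (0 : ℚ) < A w0 := by exact_mod_cast A_pos hw0
  have hb3 : 0 < b ^ 3 := by
    rw [hb]
    positivity
  have hb0 : 0 < b := by
    by_contra h
    have h1 : b ≤ 0 := not_lt.1 h
    have h2 : b ^ 3 = b * b ^ 2 := by ring
    have h3 := mul_nonpos_of_nonpos_of_nonneg h1 (sq_nonneg b)
    rw [h2] at hb3
    linarith
  have hnum : (0 : ℤ) < b.num := Rat.num_pos.2 hb0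
  obtain ⟨y, hy⟩ : ∃ y : ℕ, (y : ℤ) = b.num := ⟨b.num.toNat, Int.toNat_of_nonneg hnum.le⟩
  have hy0 : 0 < y := by
    have h1 : (0 : ℤ) < y := by
      rw [hy]
      exact hnum
    exact_mod_cast h1
  have hd0 : 0 < b.den := b.den_pos
  have h1 : (y : ℚ) = b * b.den := by
    rw [Rat.mul_den_eq_num, ← hy, Int.cast_natCast]
  have h2 : (A w : ℚ) * y ^ 3 = A w0 * b.den ^ 3 := by
    rw [h1, mul_pow, hb]
    field_simp
  have h3 : A w * y ^ 3 = A w0 * b.den ^ 3 := by exact_mod_cast h2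
  exact hne (rep_unique hw hw0 hy0 hd0 h3).1

private theorem ind_trace {K : Type*} [Field K] [Algebra ℚ K] [FiniteDimensional ℚ K] {r : ℚ}
    (hr : ∀ b : ℚ, b ^ 3 ≠ r) (x : K) (hx : x ^ 3 = algebraMap ℚ K r) :
    Algebra.trace ℚ K x = 0 := by
  have hirr : Irreducible (Polynomial.X ^ 3 - Polynomial.C r : Polynomial ℚ) :=
    X_pow_sub_C_irreducible_of_prime Nat.prime_three hr
  have hmon : (Polynomial.X ^ 3 - Polynomial.C r : Polynomial ℚ).Monic :=
    Polynomial.monic_X_pow_sub_C r (by norm_num)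
  have hroot : Polynomial.aeval x (Polynomial.X ^ 3 - Polynomial.C r : Polynomial ℚ) = 0 := by
    rw [map_sub, map_pow, Polynomial.aeval_X, Polynomial.aeval_C, hx, sub_self]
  have hmin := minpoly.eq_of_irreducible_of_monic hirr hroot hmon
  have hnc : (Polynomial.X ^ 3 - Polynomial.C r : Polynomial ℚ).nextCoeff = 0 := by
    rw [Polynomial.nextCoeff_of_natDegree_pos (by
      rw [Polynomial.natDegree_X_pow_sub_C]
      norm_num), Polynomial.natDegree_X_pow_sub_C]
    simp [Polynomial.coeff_X_pow, Polynomial.coeff_C]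
  rw [trace_eq_finrank_mul_minpoly_nextCoeff, ← hmin, hnc, neg_zero, mul_zero]

theorem indep (F : Finset ℕ) (hF : ∀ w ∈ F, CF w) (m : ℕ → ℤ)
    (h : ∑ w ∈ F, (m w : ℝ) * α w = 0) : ∀ w ∈ F, m w = 0 := by
  intro w0 hw0
  have hα0 : α w0 ≠ 0 := (alpha_pos (hF w0 hw0)).ne'
  obtain ⟨x, hx⟩ : ∃ x : ℕ → ℝ, ∀ w, x w = α w / α w0 := ⟨fun w => α w / α w0, fun _ => rfl⟩
  have hx3 : ∀ w ∈ F, x w ^ 3 = algebraMap ℚ ℝ ((A w0 : ℚ) / (A w : ℚ)) := by
    intro w hw
    have h1 : τ w ≠ 0 := (tau_pos (hF w hw)).ne'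
    have h2 : τ w0 ≠ 0 := (tau_pos (hF w0 hw0)).ne'
    have h3 : x w = τ w0 / τ w := by
      rw [hx, alpha_of_CF (hF w hw), alpha_of_CF (hF w0 hw0)]
      field_simp
    rw [h3, div_pow, tau_cube, tau_cube]
    simp
  have hfin : FiniteDimensional ℚ (IntermediateField.adjoin ℚ (x '' (F : Set ℕ))) := by
    have : Finite (x '' (F : Set ℕ)) := (F.finite_toSet.image x).to_subtype
    refine IntermediateField.finiteDimensional_adjoin fun y hy => ?_
    obtain ⟨w, hw, rfl⟩ := hy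
    refine IsIntegral.of_pow (n := 3) (by norm_num) ?_
    rw [hx3 w hw]
    exact isIntegral_algebraMap
  have hmem : ∀ w ∈ F, x w ∈ IntermediateField.adjoin ℚ (x '' (F : Set ℕ)) := fun w hw =>
    IntermediateField.subset_adjoin ℚ _ ⟨w, hw, rfl⟩
  obtain ⟨X, hX⟩ : ∃ X : F → IntermediateField.adjoin ℚ (x '' (F : Set ℕ)),
      ∀ w : F, ((X w : IntermediateField.adjoin ℚ (x '' (F : Set ℕ))) : ℝ) = x w :=
    ⟨fun w => ⟨x w, hmem w w.2⟩, fun _ => rfl⟩
  have hX3 : ∀ w : F, X w ^ 3 = algebraMap ℚ _ ((A w0 : ℚ) / (A w : ℚ)) := by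
    intro w
    apply Subtype.ext
    have h1 := hx3 w w.2
    rw [← hX w] at h1
    exact h1
  have hXt : ∀ w : F, (w : ℕ) ≠ w0 → Algebra.trace ℚ _ (X w) = 0 := fun w hw =>
    ind_trace (ind_root (hF w w.2) (hF w0 hw0) hw) (X w) (hX3 w)
  have hX1 : X ⟨w0, hw0⟩ = 1 := by
    apply Subtype.ext
    rw [hX, hx]
    exact div_self hα0
  have hsum : ∑ w : F, (m w : ℚ) • X w = 0 := by
    apply Subtype.ext
    have h1 : ((∑ w : F, (m w : ℚ) • X w :
        IntermediateField.adjoin ℚ (x '' (F : Set ℕ))) : ℝ) = ∑ w : F, (m w : ℝ) * x w := by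
      rw [IntermediateField.coe_sum]
      refine Finset.sum_congr rfl fun w _ => ?_
      rw [IntermediateField.coe_smul, hX w, Rat.smul_def]
      simp
    rw [h1]
    have h2 : ∑ w : F, (m w : ℝ) * x w = (∑ w ∈ F, (m w : ℝ) * α w) / α w0 := by
      rw [Finset.sum_div, ← Finset.sum_coe_sort F fun w => (m w : ℝ) * α w / α w0]
      refine Finset.sum_congr rfl fun w _ => ?_
      rw [hx, mul_div_assoc]
    rw [h2, h, zero_div]
    rfl
  have htr := congrArg (Algebra.trace ℚ (IntermediateField.adjoin ℚ (x '' (F : Set ℕ)))) hsum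
  rw [map_sum, map_zero, Finset.sum_eq_single ⟨w0, hw0⟩] at htr
  · rw [map_smul, hX1] at htr
    have h1 : Algebra.trace ℚ (IntermediateField.adjoin ℚ (x '' (F : Set ℕ))) 1 =
        Module.finrank ℚ (IntermediateField.adjoin ℚ (x '' (F : Set ℕ))) := by
      have h2 := Algebra.trace_algebraMap (R := ℚ)
        (S := IntermediateField.adjoin ℚ (x '' (F : Set ℕ))) 1
      rw [map_one] at h2
      rw [h2, nsmul_eq_mul, mul_one]
    rw [h1, smul_eq_mul] at htr
    have h3 : (Module.finrank ℚ (IntermediateField.adjoin ℚ (x '' (F : Set ℕ))) : ℚ) ≠ 0 := by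
      exact_mod_cast (Module.finrank_pos).ne'
    rcases mul_eq_zero.1 htr with h4 | h4
    · exact_mod_cast h4
    · exact absurd h4 h3
  · intro w _ hw
    rw [map_smul, hXt w fun h1 => hw (Subtype.ext h1), smul_zero]
  · intro h1
    exact absurd (Finset.mem_univ _) h1

end Pool.Agent.GL3
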