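import Pool.Agent.GL3.IsoW

set_option autoImplicit false

/-!
# The density of the isolated points

Plan. `card_iso`: by Rep, `Iso s T` is the disjoint union over cube-free `w` of the points counted by
`isoW w s T` (as in `card_PT`). `iso_tendsto`: dominated convergence for series
(`tendsto_tsum_of_dominated_convergence`), `isoW_le`, `isoW_tendsto`, `summable_alpha`.
-/

namespace Pool.Agent.GL3

open Finset Filter Topology

open Classical in
private noncomputable def isoS (w : ℕ) (s T : ℝ) : Finset ℕ :=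
  (Finset.Icc 1 ⌊T * α w⌋₊).filter
    fun j : ℕ => ∀ m : ℕ, P3 m → A w * j ^ 3 < m → j * τ w + s < cr m

private theorem isoW_eq (w : ℕ) (s T : ℝ) : isoW w s T = (isoS w s T).card := rfl

private theorem mem_isoS {w j : ℕ} (hw : CF w) {s T : ℝ} (hT : 0 ≤ T) :
    j ∈ isoS w s T ↔ (1 ≤ j ∧ j * τ w ≤ T) ∧
      ∀ m : ℕ, P3 m → A w * j ^ 3 < m → j * τ w + s < cr m := by
  classical
  unfold isoS
  rw [Finset.mem_filter, Finset.mem_Icc, floor_bound hw hT]

private theorem w_le {w j : ℕ} (hw : CF w) {T : ℝ} (hj : 1 ≤ j) (h : j * τ w ≤ T) :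
    w ≤ ⌊T ^ 3⌋₊ := by
  have h1 : (1 : ℝ) ≤ j := by exact_mod_cast hj
  have h2 := tau_pos hw
  have h3 : τ w ≤ T := by nlinarith
  have h4 : τ w ^ 3 ≤ T ^ 3 := pow_le_pow_left₀ h2.le h3 3
  rw [tau_cube] at h4
  apply Nat.le_floor
  refine le_trans ?_ h4
  have h5 : w ≤ A w := by
    unfold A
    exact Nat.le_mul_of_pos_right w (pow_pos (rad_pos w) 3)
  exact_mod_cast h5

open Classical in
theorem card_iso {s T : ℝ} (hT : 0 ≤ T) :
    ((Iso s T).card : ℝ) = ∑' w : ℕ, (if CF w then (isoW w s T : ℝ) else 0) := by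
  set R : Finset ℕ := (Finset.range (⌊T ^ 3⌋₊ + 1)).filter CF with hR
  have h1 : Iso s T = R.biUnion fun w => (isoS w s T).image fun j => A w * j ^ 3 := by
    ext n
    rw [Finset.mem_biUnion]
    unfold Iso
    rw [Finset.mem_filter, mem_PT hT]
    constructor
    · rintro ⟨⟨h2, h3⟩, h4⟩
      obtain ⟨w, j, hw, hj, rfl⟩ := exists_rep h2
      rw [cr_rep] at h3 h4
      refine ⟨w, ?_, Finset.mem_image.2 ⟨j, (mem_isoS hw hT).2 ⟨⟨hj, h3⟩, h4⟩, rfl⟩⟩
      rw [hR, Finset.mem_filter, Finset.mem_range]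
      exact ⟨Nat.lt_succ_of_le (w_le hw hj h3), hw⟩
    · rintro ⟨w, hw, hn⟩
      rw [hR, Finset.mem_filter] at hw
      obtain ⟨j, hj, rfl⟩ := Finset.mem_image.1 hn
      obtain ⟨⟨h5, h6⟩, h7⟩ := (mem_isoS hw.2 hT).1 hj
      rw [cr_rep]
      exact ⟨⟨P3_rep hw.2 h5, h6⟩, h7⟩
  have h2 : (Iso s T).card = ∑ w ∈ R, isoW w s T := by
    rw [h1, Finset.card_biUnion]
    · refine Finset.sum_congr rfl fun w hw => ?_
      rw [hR, Finset.mem_filter] at hw
      rw [isoW_eq, Finset.card_image_of_injOn]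
      intro j hj j' hj' heq
      have h3 := ((mem_isoS hw.2 hT).1 hj).1.1
      have h4 := ((mem_isoS hw.2 hT).1 hj').1.1
      exact (rep_unique hw.2 hw.2 h3 h4 heq).2
    · intro w hw w' hw' hne
      rw [hR, Finset.mem_coe, Finset.mem_filter] at hw hw'
      show Disjoint _ _
      rw [Finset.disjoint_left]
      intro n hn hn'
      obtain ⟨j, hj, rfl⟩ := Finset.mem_image.1 hn
      obtain ⟨j', hj', heq⟩ := Finset.mem_image.1 hn'
      have h3 := ((mem_isoS hw.2 hT).1 hj).1.1
      have h4 := ((mem_isoS hw'.2 hT).1 hj').1.1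
      exact hne (rep_unique hw'.2 hw.2 h4 h3 heq).1.symm
  rw [h2, tsum_eq_sum (s := R)]
  · rw [Nat.cast_sum]
    refine Finset.sum_congr rfl fun w hw => ?_
    rw [hR, Finset.mem_filter] at hw
    rw [if_pos hw.2]
  · intro w hw
    by_cases hc : CF w
    · rw [if_pos hc, isoW_eq]
      have : isoS w s T = ∅ := by
        rw [Finset.eq_empty_iff_forall_notMem]
        intro j hj
        obtain ⟨⟨h5, h6⟩, _⟩ := (mem_isoS hc hT).1 hj
        apply hw
        rw [hR, Finset.mem_filter, Finset.mem_range]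
        exact ⟨Nat.lt_succ_of_le (w_le hc h5 h6), hc⟩
      rw [this, Finset.card_empty, Nat.cast_zero]
    · rw [if_neg hc]

theorem iso_tendsto {s : ℝ} (hs0 : 0 ≤ s) (hs1 : s < 1) :
    Tendsto (fun T : ℝ => ((Iso s T).card : ℝ) / T) atTop (𝓝 (Ψ s)) := by
  classical
  have h1 : Tendsto (fun T : ℝ => ∑' w : ℕ, (if CF w then (isoW w s T : ℝ) / T else 0)) atTop
      (𝓝 (∑' w, α w * PP w s)) := by
    refine tendsto_tsum_of_dominated_convergence summable_alpha (fun w => ?_) ?_
    · by_cases hw : CF w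
      · simp only [if_pos hw]
        exact isoW_tendsto hw hs0 hs1
      · simp only [if_neg hw, alpha_of_not hw, zero_mul]
        exact tendsto_const_nhds
    · filter_upwards [eventually_gt_atTop (0 : ℝ)] with T hT w
      split_ifs with hw
      · rw [Real.norm_of_nonneg (by positivity), div_le_iff₀ hT]
        exact isoW_le hT.le
      · rw [norm_zero]
        exact alpha_nonneg w
  unfold Ψ
  refine h1.congr' ?_
  filter_upwards [eventually_ge_atTop (0 : ℝ)] with T hT
  rw [card_iso hT, ← tsum_div_const]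
  refine tsum_congr fun w => ?_
  split_ifs
  · rfl
  · rw [zero_div]

end Pool.Agent.GL3
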