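import Mathlib

set_option autoImplicit false

/-!
# Weyl equidistribution in boxes

The averages of `mFourier n` over the orbit `j θ` tend to `∫ mFourier n` (geometric sums); by density this holds for all continuous
functions on the torus, so the empirical measures converge weakly; a box has null frontier (portmanteau theorem).
-/

namespace Pool.Agent.GL3

open Finset Filter Topology MeasureTheory

private noncomputable def wyP {ι : Type*} (θ : ι → ℝ) (j : ℕ) : UnitAddTorus ι :=
  fun i => (((j : ℝ) * θ i : ℝ) : UnitAddCircle)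

private noncomputable def wyMu (ι : Type*) [Fintype ι] : Measure (UnitAddTorus ι) :=
  Measure.pi fun _ : ι => (volume : Measure UnitAddCircle)

private instance wyProb1 : IsProbabilityMeasure (volume : Measure UnitAddCircle) :=
  ⟨UnitAddCircle.measure_univ⟩

private instance wyProb (ι : Type*) [Fintype ι] : IsProbabilityMeasure (wyMu ι) := by
  unfold wyMu
  infer_instance

private theorem wy_int1 {k : ℤ} (hk : k ≠ 0) : ∫ x : UnitAddCircle, (fourier k x : ℂ) = 0 := by
  have h1 : ∀ x : UnitAddCircle, (fourier k (x + (((1 : ℝ) / 2 / k : ℝ) : UnitAddCircle)) : ℂ) = -fourier k x :=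
    fun x => fourier_add_half_inv_index hk one_pos x
  have h2 := integral_add_right_eq_self (μ := (volume : Measure UnitAddCircle))
    (fun x : UnitAddCircle => (fourier k x : ℂ)) (((1 : ℝ) / 2 / k : ℝ) : UnitAddCircle)
  simp only [h1] at h2
  rw [integral_neg] at h2
  have h3 : (2 : ℂ) * ∫ x : UnitAddCircle, (fourier k x : ℂ) = 0 := by linear_combination -h2
  rcases mul_eq_zero.1 h3 with h4 | h4
  · norm_num at h4
  · exact h4

private theorem wy_int {ι : Type*} [Fintype ι] {n : ι → ℤ} (hn : n ≠ 0) :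
    ∫ x, (UnitAddTorus.mFourier n x : ℂ) ∂(wyMu ι) = 0 := by
  obtain ⟨i, hi⟩ : ∃ i, n i ≠ 0 := Function.ne_iff.1 hn
  have h1 : ∫ x, (UnitAddTorus.mFourier n x : ℂ) ∂(wyMu ι) = ∏ i, ∫ x : UnitAddCircle, (fourier (n i) x : ℂ) := by
    unfold wyMu
    exact integral_fintype_prod_eq_prod (μ := fun _ : ι => (volume : Measure UnitAddCircle))
      (fun i (x : UnitAddCircle) => (fourier (n i) x : ℂ))
  rw [h1]
  exact Finset.prod_eq_zero (Finset.mem_univ i) (wy_int1 hi)

private theorem wy_z {ι : Type*} [Fintype ι] (θ : ι → ℝ) (n : ι → ℤ) (j : ℕ) :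
    (UnitAddTorus.mFourier n (wyP θ j) : ℂ) =
      Complex.exp (2 * Real.pi * Complex.I * ((∑ i, (n i : ℝ) * θ i : ℝ) : ℂ)) ^ j := by
  show ∏ i, (fourier (n i) (((j : ℝ) * θ i : ℝ) : UnitAddCircle) : ℂ) = _
  simp only [fourier_coe_apply]
  rw [← Complex.exp_sum, ← Complex.exp_nat_mul]
  congr 1
  push_cast
  rw [Finset.mul_sum, Finset.mul_sum]
  refine Finset.sum_congr rfl fun i _ => ?_
  ring

private theorem wy_geom {z : ℂ} (hz : ‖z‖ = 1) (hz1 : z ≠ 1) :
    Tendsto (fun J : ℕ => (∑ j ∈ Finset.range J, z ^ j) / (J : ℂ)) atTop (𝓝 0) := by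
  have h0 : z - 1 ≠ 0 := sub_ne_zero.2 hz1
  refine squeeze_zero_norm (a := fun J : ℕ => (2 / ‖z - 1‖) * (1 / (J : ℝ))) (fun J => ?_) ?_
  · rw [geom_sum_eq hz1, norm_div, norm_div, Complex.norm_natCast, div_eq_mul_one_div (‖z ^ J - 1‖ / ‖z - 1‖)]
    refine mul_le_mul_of_nonneg_right ?_ (by positivity)
    refine div_le_div_of_nonneg_right ?_ (norm_nonneg _)
    refine (norm_sub_le _ _).trans ?_
    rw [norm_pow, hz, one_pow, norm_one]
    norm_num
  · have h1 := (tendsto_one_div_atTop_nhds_zero_nat (𝕜 := ℝ)).const_mul (2 / ‖z - 1‖)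
    simpa using h1

/-- averages over the orbit. -/
private noncomputable def wyA {ι : Type*} (θ : ι → ℝ) (f : UnitAddTorus ι → ℂ) (J : ℕ) : ℂ :=
  (∑ j ∈ Finset.range J, f (wyP θ j)) / (J : ℂ)

private theorem wy_mono {ι : Type*} [Fintype ι] (θ : ι → ℝ)
    (hθ : ∀ m : ι → ℤ, m ≠ 0 → ∀ l : ℤ, ∑ i, (m i : ℝ) * θ i ≠ l) (n : ι → ℤ) :
    Tendsto (wyA θ (UnitAddTorus.mFourier n)) atTop (𝓝 (∫ x, (UnitAddTorus.mFourier n x : ℂ) ∂(wyMu ι))) := by
  by_cases hn : n = 0
  · subst hn
    have h1 : ∀ x : UnitAddTorus ι, (UnitAddTorus.mFourier (0 : ι → ℤ) x : ℂ) = 1 := by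
      intro x
      rw [UnitAddTorus.mFourier_zero]
      rfl
    have h2 : ∫ x, (UnitAddTorus.mFourier (0 : ι → ℤ) x : ℂ) ∂(wyMu ι) = 1 := by
      simp only [h1]
      simp
    rw [h2]
    refine tendsto_const_nhds.congr' ?_
    filter_upwards [eventually_ge_atTop 1] with J hJ
    have h3 : (J : ℂ) ≠ 0 := Nat.cast_ne_zero.2 (by omega)
    simp only [wyA, h1, Finset.sum_const, Finset.card_range, nsmul_eq_mul, mul_one]
    rw [div_self h3]
  · rw [wy_int hn]
    have h1 : wyA θ (UnitAddTorus.mFourier n) = fun J : ℕ => (∑ j ∈ Finset.range J,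
        Complex.exp (2 * Real.pi * Complex.I * ((∑ i, (n i : ℝ) * θ i : ℝ) : ℂ)) ^ j) / (J : ℂ) := by
      funext J
      simp only [wyA, wy_z]
    rw [h1]
    refine wy_geom ?_ ?_
    · have h2 : 2 * Real.pi * Complex.I * ((∑ i, (n i : ℝ) * θ i : ℝ) : ℂ) =
          ((2 * Real.pi * (∑ i, (n i : ℝ) * θ i) : ℝ) : ℂ) * Complex.I := by
        push_cast
        ring
      rw [h2]
      exact Complex.norm_exp_ofReal_mul_I _
    · intro h2
      obtain ⟨l, hl⟩ := Complex.exp_eq_one_iff.1 h2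
      apply hθ n hn l
      have h3 : (2 * Real.pi * Complex.I) ≠ 0 := Complex.two_pi_I_ne_zero
      have h4 : (2 * Real.pi * Complex.I) * ((∑ i, (n i : ℝ) * θ i : ℝ) : ℂ) = (2 * Real.pi * Complex.I) * (l : ℂ) := by
        rw [hl]
        ring
      have h5 := mul_left_cancel₀ h3 h4
      exact_mod_cast h5

private theorem wy_integrable {ι : Type*} [Fintype ι] (f : C(UnitAddTorus ι, ℂ)) : Integrable (fun x => f x) (wyMu ι) :=
  f.continuous.integrable_of_hasCompactSupport (HasCompactSupport.of_compactSpace _)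

private theorem wy_span {ι : Type*} [Fintype ι] (θ : ι → ℝ)
    (hθ : ∀ m : ι → ℤ, m ≠ 0 → ∀ l : ℤ, ∑ i, (m i : ℝ) * θ i ≠ l) (f : C(UnitAddTorus ι, ℂ))
    (hf : f ∈ Submodule.span ℂ (Set.range (UnitAddTorus.mFourier (d := ι)))) :
    Tendsto (wyA θ f) atTop (𝓝 (∫ x, f x ∂(wyMu ι))) := by
  induction hf using Submodule.span_induction with
  | mem x hx =>
    obtain ⟨n, rfl⟩ := hx
    exact wy_mono θ hθ n
  | zero =>
    have h1 : wyA θ (0 : C(UnitAddTorus ι, ℂ)) = fun _ => 0 := by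
      funext J
      simp [wyA]
    rw [h1]
    simp
  | add x y _ _ hx hy =>
    have h1 : wyA θ (x + y : C(UnitAddTorus ι, ℂ)) = fun J => wyA θ x J + wyA θ y J := by
      funext J
      simp only [wyA, ContinuousMap.coe_add, Pi.add_apply, Finset.sum_add_distrib, add_div]
    rw [h1]
    have h2 : ∫ z, (x + y : C(UnitAddTorus ι, ℂ)) z ∂(wyMu ι) = ∫ z, x z ∂(wyMu ι) + ∫ z, y z ∂(wyMu ι) :=
      integral_add (wy_integrable x) (wy_integrable y)
    rw [h2]
    exact hx.add hy
  | smul a x _ hx =>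
    have h1 : wyA θ (a • x : C(UnitAddTorus ι, ℂ)) = fun J => a * wyA θ x J := by
      funext J
      simp only [wyA, ContinuousMap.coe_smul, Pi.smul_apply, smul_eq_mul, ← Finset.mul_sum, mul_div_assoc]
    rw [h1]
    have h2 : ∫ z, (a • x : C(UnitAddTorus ι, ℂ)) z ∂(wyMu ι) = a * ∫ z, x z ∂(wyMu ι) :=
      integral_const_mul a _
    rw [h2]
    exact hx.const_mul a

private theorem wy_cont {ι : Type*} [Fintype ι] (θ : ι → ℝ)
    (hθ : ∀ m : ι → ℤ, m ≠ 0 → ∀ l : ℤ, ∑ i, (m i : ℝ) * θ i ≠ l) (f : C(UnitAddTorus ι, ℂ)) :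
    Tendsto (wyA θ f) atTop (𝓝 (∫ x, f x ∂(wyMu ι))) := by
  rw [Metric.tendsto_atTop]
  intro ε hε
  have h1 : f ∈ (Submodule.span ℂ (Set.range (UnitAddTorus.mFourier (d := ι)))).topologicalClosure := by
    rw [UnitAddTorus.span_mFourier_closure_eq_top]
    exact Submodule.mem_top
  obtain ⟨g, hg, hfg⟩ := Metric.mem_closure_iff.1 h1 (ε / 4) (by linarith)
  have h2 : ∀ z, ‖f z - g z‖ ≤ ε / 4 := by
    intro z
    have h3 := ContinuousMap.dist_apply_le_dist (f := f) (g := g) z
    rw [dist_eq_norm] at h3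
    exact h3.trans hfg.le
  have h4 : ‖(∫ z, f z ∂(wyMu ι)) - ∫ z, g z ∂(wyMu ι)‖ ≤ ε / 4 := by
    rw [← integral_sub (wy_integrable f) (wy_integrable g)]
    have h5 := norm_integral_le_of_norm_le_const (μ := wyMu ι) (f := fun z => f z - g z) (C := ε / 4)
      (Eventually.of_forall h2)
    simpa using h5
  obtain ⟨N, hN⟩ := (Metric.tendsto_atTop.1 (wy_span θ hθ g hg)) (ε / 4) (by linarith)
  refine ⟨N, fun J hJ => ?_⟩
  have h6 := hN J hJ
  have h7 : ‖wyA θ f J - wyA θ g J‖ ≤ ε / 4 := by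
    rcases Nat.eq_zero_or_pos J with hJ0 | hJ0
    · subst hJ0
      simp only [wyA, Finset.range_zero, Finset.sum_empty, zero_div, sub_zero, norm_zero]
      linarith
    · have hn0 : (0 : ℝ) < J := by exact_mod_cast hJ0
      simp only [wyA]
      rw [← sub_div, norm_div, Complex.norm_natCast, div_le_iff₀ hn0, ← Finset.sum_sub_distrib]
      refine (norm_sum_le _ _).trans ((Finset.sum_le_sum fun j _ => h2 _).trans ?_)
      simp only [Finset.sum_const, Finset.card_range, nsmul_eq_mul]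
      linarith
  rw [dist_eq_norm] at h6 ⊢
  have h8 : wyA θ f J - ∫ z, f z ∂(wyMu ι) = (wyA θ f J - wyA θ g J) +
      (wyA θ g J - ∫ z, g z ∂(wyMu ι)) - ((∫ z, f z ∂(wyMu ι)) - ∫ z, g z ∂(wyMu ι)) := by ring
  rw [h8]
  refine (norm_sub_le _ _).trans_lt ?_
  have h9 := norm_add_le (wyA θ f J - wyA θ g J) (wyA θ g J - ∫ z, g z ∂(wyMu ι))
  linarith

/-- the arc `[0, c)`. -/
private def wyArc (c : ℝ) : Set UnitAddCircle := (fun x : ℝ => (x : UnitAddCircle)) '' Set.Ico 0 c

private theorem wy_fract (y : ℝ) : ((Int.fract y : ℝ) : UnitAddCircle) = (y : UnitAddCircle) := by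
  have h1 : (y : ℝ) = Int.fract y + (⌊y⌋ : ℤ) • (1 : ℝ) := by
    rw [zsmul_one]
    exact (Int.fract_add_floor y).symm
  conv_rhs => rw [h1]
  rw [AddCircle.coe_add, AddCircle.coe_zsmul, AddCircle.coe_period, zsmul_zero, add_zero]

private theorem wy_mem {c : ℝ} (hc1 : c ≤ 1) (y : ℝ) : (y : UnitAddCircle) ∈ wyArc c ↔ Int.fract y < c := by
  have : Fact ((0 : ℝ) < 1) := ⟨one_pos⟩
  constructor
  · rintro ⟨x, hx, hxy⟩
    have h1 : ((x : ℝ) : UnitAddCircle) = ((Int.fract y : ℝ) : UnitAddCircle) := by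
      rw [wy_fract]
      exact hxy
    have h2 := (AddCircle.coe_eq_coe_iff_of_mem_Ico (p := (1 : ℝ)) (a := 0)
      (x := x) (y := Int.fract y) ⟨hx.1, by linarith [hx.2]⟩
      ⟨Int.fract_nonneg y, by linarith [Int.fract_lt_one y]⟩).1 h1
    rw [← h2]
    exact hx.2
  · intro h
    exact ⟨Int.fract y, ⟨Int.fract_nonneg y, h⟩, wy_fract y⟩

private theorem wy_vol {c : ℝ} (hc0 : 0 ≤ c) (hc1 : c ≤ 1) :
    (volume : Measure UnitAddCircle) (wyArc c) = ENNReal.ofReal c := by
  have hpre : (fun x : ℝ => (x : UnitAddCircle)) ⁻¹' (wyArc c) = {y : ℝ | Int.fract y < c} := by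
    ext y
    exact wy_mem hc1 y
  have hmeas : MeasurableSet (wyArc c) := by
    rw [measurableSet_quotient]
    show MeasurableSet ((fun x : ℝ => (x : UnitAddCircle)) ⁻¹' (wyArc c))
    rw [hpre]
    exact measurableSet_lt measurable_fract measurable_const
  have h1 := (UnitAddCircle.measurePreserving_mk 0).measure_preimage hmeas.nullMeasurableSet
  rw [← h1]
  show (volume.restrict (Set.Ioc (0 : ℝ) (0 + 1))) ((fun x : ℝ => (x : UnitAddCircle)) ⁻¹' (wyArc c)) = _
  rw [hpre, Measure.restrict_apply (measurableSet_lt measurable_fract measurable_const)]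
  have hfr : ∀ y : ℝ, 0 < y → y < 1 → Int.fract y = y := fun y h1 h2 => Int.fract_eq_self.2 ⟨h1.le, h2⟩
  apply le_antisymm
  · have h2 : {y : ℝ | Int.fract y < c} ∩ Set.Ioc 0 (0 + 1) ⊆ Set.Ioo 0 c ∪ {1} := by
      rintro y ⟨h3, h4, h5⟩
      rw [zero_add] at h5
      rcases h5.lt_or_eq with h6 | h6
      · left
        have h7 : Int.fract y < c := h3
        rw [hfr y h4 h6] at h7
        exact ⟨h4, h7⟩
      · right
        exact h6
    refine (measure_mono h2).trans ((measure_union_le _ _).trans ?_)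
    rw [Real.volume_Ioo, Real.volume_singleton, add_zero, sub_zero]
  · have h2 : Set.Ioo 0 c ⊆ {y : ℝ | Int.fract y < c} ∩ Set.Ioc 0 (0 + 1) := by
      rintro y ⟨h3, h4⟩
      refine ⟨?_, h3, by linarith⟩
      show Int.fract y < c
      rw [hfr y h3 (by linarith)]
      exact h4
    refine le_trans ?_ (measure_mono h2)
    rw [Real.volume_Ioo, sub_zero]

private theorem wy_null {c : ℝ} (hc0 : 0 ≤ c) : (volume : Measure UnitAddCircle) (frontier (wyArc c)) = 0 := by
  have hsub : frontier (wyArc c) ⊆ {((0 : ℝ) : UnitAddCircle), ((c : ℝ) : UnitAddCircle)} := by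
    rintro x ⟨h1, h2⟩
    have h3 : IsClosed ((fun x : ℝ => (x : UnitAddCircle)) '' Set.Icc 0 c) :=
      (isCompact_Icc.image (AddCircle.continuous_mk' 1)).isClosed
    have h4 : closure (wyArc c) ⊆ (fun x : ℝ => (x : UnitAddCircle)) '' Set.Icc 0 c :=
      closure_minimal (Set.image_mono Set.Ico_subset_Icc_self) h3
    obtain ⟨t, ⟨h5, h6⟩, rfl⟩ := h4 h1
    have h7 : IsOpen ((fun x : ℝ => (x : UnitAddCircle)) '' Set.Ioo 0 c) :=
      QuotientAddGroup.isOpenMap_coe _ isOpen_Ioo
    have h8 : (fun x : ℝ => (x : UnitAddCircle)) '' Set.Ioo 0 c ⊆ interior (wyArc c) :=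
      interior_maximal (Set.image_mono Set.Ioo_subset_Ico_self) h7
    rcases h5.eq_or_lt with h9 | h9
    · left
      rw [h9]
    · rcases h6.eq_or_lt with h10 | h10
      · right
        rw [h10]
        rfl
      · exact absurd (h8 ⟨t, ⟨h9, h10⟩, rfl⟩) h2
  have hpt : ∀ x : UnitAddCircle, (volume : Measure UnitAddCircle) {x} = 0 := by
    intro x
    have h1 := AddCircle.volume_closedBall (T := (1 : ℝ)) (x := x) 0
    rw [Metric.closedBall_zero] at h1
    rw [h1]
    simp
  refine measure_mono_null hsub ?_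
  rw [Set.insert_eq]
  exact measure_union_null (hpt _) (hpt _)

theorem weyl_box {ι : Type*} [Fintype ι] (θ : ι → ℝ)
    (hθ : ∀ m : ι → ℤ, m ≠ 0 → ∀ l : ℤ, ∑ i, (m i : ℝ) * θ i ≠ l) (c : ι → ℝ)
    (hc0 : ∀ i, 0 ≤ c i) (hc1 : ∀ i, c i ≤ 1) :
    Tendsto (fun J : ℕ => (((Finset.range J).filter
      (fun j : ℕ => ∀ i, Int.fract ((j : ℝ) * θ i) < c i)).card : ℝ) / J) atTop
      (𝓝 (∏ i, c i)) := by
  classical
  rw [← tendsto_add_atTop_iff_nat 1]
  let νn : ℕ → Measure (UnitAddTorus ι) := fun n =>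
    ENNReal.ofReal (((n : ℝ) + 1)⁻¹) • ∑ j ∈ Finset.range (n + 1), Measure.dirac (wyP θ j)
  have hprob : ∀ n, IsProbabilityMeasure (νn n) := by
    intro n
    constructor
    have h : (0 : ℝ) < (n : ℝ) + 1 := by positivity
    simp only [νn, Measure.smul_apply, Measure.finsetSum_apply, measure_univ, Finset.sum_const, Finset.card_range,
      smul_eq_mul, nsmul_eq_mul, mul_one]
    rw [ENNReal.ofReal_inv_of_pos h, ENNReal.ofReal_add (by positivity) (by norm_num), ENNReal.ofReal_natCast,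
      ENNReal.ofReal_one]
    push_cast
    exact ENNReal.inv_mul_cancel (by simp) (by simp)
  let pm : ℕ → ProbabilityMeasure (UnitAddTorus ι) := fun n => ⟨νn n, hprob n⟩
  let μ : ProbabilityMeasure (UnitAddTorus ι) := ⟨wyMu ι, wyProb ι⟩
  have hlim : Tendsto pm atTop (𝓝 μ) := by
    rw [ProbabilityMeasure.tendsto_iff_forall_integral_rclike_tendsto ℂ]
    intro f
    have h1 := wy_cont θ hθ f.toContinuousMap
    rw [← tendsto_add_atTop_iff_nat 1] at h1
    refine h1.congr fun n => ?_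
    have h : (0 : ℝ) < (n : ℝ) + 1 := by positivity
    show wyA θ f.toContinuousMap (n + 1) = ∫ z, f z ∂(νn n)
    simp only [νn]
    rw [integral_smul_measure, integral_finsetSum_measure]
    · simp only [integral_dirac]
      rw [ENNReal.toReal_ofReal (by positivity), Complex.real_smul, wyA, div_eq_inv_mul]
      push_cast
      rfl
    · intro i _
      exact integrable_dirac (by simp)
  let E : Set (UnitAddTorus ι) := Set.pi Set.univ fun i => wyArc (c i)
  have hfr : (μ : Measure (UnitAddTorus ι)) (frontier E) = 0 := by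
    have hsub : frontier E ⊆ ⋃ i, Function.eval i ⁻¹' (frontier (wyArc (c i))) := by
      rintro x ⟨h1, h2⟩
      rw [closure_pi_set] at h1
      rw [interior_pi_set Set.finite_univ] at h2
      simp only [Set.mem_pi, Set.mem_univ, forall_true_left] at h1 h2
      push Not at h2
      obtain ⟨i, hi⟩ := h2
      exact Set.mem_iUnion.2 ⟨i, h1 i, hi⟩
    refine measure_mono_null hsub (measure_iUnion_null fun i => ?_)
    exact Measure.pi_eval_preimage_null _ (wy_null (hc0 i))
  have hE := ProbabilityMeasure.tendsto_measure_of_null_frontier_of_tendsto' hlim hfr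
  have hμE : (μ : Measure (UnitAddTorus ι)) E = ENNReal.ofReal (∏ i, c i) := by
    show (Measure.pi fun _ : ι => (volume : Measure UnitAddCircle)) (Set.pi Set.univ fun i => wyArc (c i)) = _
    rw [Measure.pi_pi, ENNReal.ofReal_prod_of_nonneg fun i _ => hc0 i]
    exact Finset.prod_congr rfl fun i _ => wy_vol (hc0 i) (hc1 i)
  rw [hμE] at hE
  have hprod : 0 ≤ ∏ i, c i := Finset.prod_nonneg fun i _ => hc0 i
  have h2 := (ENNReal.tendsto_toReal (ENNReal.ofReal_ne_top (r := ∏ i, c i))).comp hE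
  rw [ENNReal.toReal_ofReal hprod] at h2
  refine h2.congr fun n => ?_
  have h : (0 : ℝ) < (n : ℝ) + 1 := by positivity
  show (νn n E).toReal = _
  simp only [νn, Measure.smul_apply, Measure.finsetSum_apply, smul_eq_mul]
  have hEm : MeasurableSet E := by
    refine MeasurableSet.univ_pi fun i => ?_
    rw [measurableSet_quotient]
    show MeasurableSet ((fun x : ℝ => (x : UnitAddCircle)) ⁻¹' (wyArc (c i)))
    have hpre : (fun x : ℝ => (x : UnitAddCircle)) ⁻¹' (wyArc (c i)) = {y : ℝ | Int.fract y < c i} := by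
      ext y
      exact wy_mem (hc1 i) y
    rw [hpre]
    exact measurableSet_lt measurable_fract measurable_const
  have h3 : ∀ j, Measure.dirac (wyP θ j) E = if (∀ i, Int.fract ((j : ℝ) * θ i) < c i) then 1 else 0 := by
    intro j
    rw [Measure.dirac_apply' _ hEm, Set.indicator_apply]
    have h4 : wyP θ j ∈ E ↔ ∀ i, Int.fract ((j : ℝ) * θ i) < c i := by
      constructor
      · intro h5 i
        exact (wy_mem (hc1 i) _).1 (h5 i (Set.mem_univ i))
      · intro h5 i _
        exact (wy_mem (hc1 i) _).2 (h5 i)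
    simp only [h4, Pi.one_apply]
  simp only [h3]
  rw [Finset.sum_boole, ENNReal.toReal_mul, ENNReal.toReal_ofReal (by positivity), ENNReal.toReal_natCast,
    div_eq_inv_mul]
  push_cast
  rfl

end Pool.Agent.GL3
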