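import Pool.Agent.GL3.Indep
import Pool.Agent.GL3.Weyl

set_option autoImplicit false

/-!
# Isolation with respect to finitely many classes

The absence of multiples of `τ w'` in `(j τ w, j τ w + s]` is a condition on the fractional part of `j τ w / τ w'`; the box
theorem of Weyl and the linear independence of the densities give the proportion of the good `j`.
-/

namespace Pool.Agent.GL3

open Finset Filter Topology

private theorem isoF_empt {w w' : ℕ} (hw' : CF w') {s : ℝ} (hw : 0 ≤ τ w) (j : ℕ) :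
    empt w' (j * τ w) s ↔ Int.fract ((j : ℝ) * (τ w * α w')) < 1 - s * α w' := by
  have ht : 0 < τ w' := tau_pos hw'
  have ha : α w' = 1 / τ w' := alpha_of_CF hw'
  set x : ℝ := (j : ℝ) * (τ w * α w') with hx
  have hx0 : 0 ≤ x := by
    rw [hx]
    exact mul_nonneg (Nat.cast_nonneg j) (mul_nonneg hw (alpha_nonneg w'))
  have hxt : (j : ℝ) * τ w = x * τ w' := by
    rw [hx, ha]
    field_simp
  have hst : s = (s * α w') * τ w' := by
    rw [ha]
    field_simp
  have h1 : ∀ i : ℕ, ((j : ℝ) * τ w < i * τ w' ∧ i * τ w' ≤ j * τ w + s) ↔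
      (x < i ∧ (i : ℝ) ≤ x + s * α w') := by
    intro i
    rw [hxt]
    constructor
    · rintro ⟨h2, h3⟩
      refine ⟨lt_of_mul_lt_mul_right h2 ht.le, ?_⟩
      have h4 : (i : ℝ) * τ w' ≤ (x + s * α w') * τ w' := by
        rw [add_mul, ← hst]
        exact h3
      exact le_of_mul_le_mul_right h4 ht
    · rintro ⟨h2, h3⟩
      refine ⟨mul_lt_mul_of_pos_right h2 ht, ?_⟩
      have h4 : (i : ℝ) * τ w' ≤ (x + s * α w') * τ w' := mul_le_mul_of_nonneg_right h3 ht.le
      rw [add_mul, ← hst] at h4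
      exact h4
  have hfl : (⌊x⌋ : ℝ) + Int.fract x = x := Int.floor_add_fract x
  have hnf : ((⌊x⌋₊ : ℕ) : ℝ) = (⌊x⌋ : ℝ) := natCast_floor_eq_intCast_floor hx0
  unfold empt
  constructor
  · intro h
    have h2 := h (⌊x⌋₊ + 1)
    rw [h1] at h2
    push_cast at h2
    rw [hnf] at h2
    by_contra h3
    rw [not_lt] at h3
    apply h2
    have h4 := Int.fract_lt_one x
    constructor <;> linarith
  · intro h i hi
    rw [h1] at hi
    have h2 : (⌊x⌋ : ℤ) < (i : ℤ) := by
      have h3 : (⌊x⌋ : ℝ) < (i : ℝ) := lt_of_le_of_lt (Int.floor_le x) hi.1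
      exact_mod_cast h3
    have h3 : (⌊x⌋ : ℝ) + 1 ≤ (i : ℝ) := by exact_mod_cast h2
    linarith [hi.2]

open Classical in
theorem isoF {w : ℕ} (hw : CF w) (F : Finset ℕ) (hF : ∀ w' ∈ F, CF w') (hwF : w ∉ F) {s : ℝ}
    (hs0 : 0 ≤ s) (hs1 : s ≤ 1) :
    Tendsto (fun J : ℕ => (((Finset.Icc 1 J).filter
      (fun j : ℕ => ∀ w' ∈ F, empt w' (j * τ w) s)).card : ℝ) / J) atTop
      (𝓝 (∏ w' ∈ F, (1 - s * α w'))) := by
  have hτ : 0 < τ w := tau_pos hw
  have hθ : ∀ m : F → ℤ, m ≠ 0 → ∀ l : ℤ, ∑ i : F, (m i : ℝ) * (τ w * α i) ≠ l := by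
    intro m hm l hl
    apply hm
    let m' : ℕ → ℤ := fun v => if h : v ∈ F then m ⟨v, h⟩ else -l
    have hm'F : ∀ i : F, m' i = m i := fun i => by
      simp only [m']
      rw [dif_pos i.2]
    have hm'w : m' w = -l := by
      simp only [m']
      rw [dif_neg hwF]
    have h1 : ∑ v ∈ insert w F, (m' v : ℝ) * α v = 0 := by
      rw [Finset.sum_insert hwF, hm'w, ← Finset.sum_coe_sort F (fun v => (m' v : ℝ) * α v)]
      simp only [hm'F]
      have h2 : ∑ i : F, (m i : ℝ) * (τ w * α i) = τ w * ∑ i : F, (m i : ℝ) * α i := by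
        rw [Finset.mul_sum]
        exact Finset.sum_congr rfl fun i _ => by ring
      rw [h2] at hl
      have h3 : α w = 1 / τ w := alpha_of_CF hw
      have h4 : ∑ i : F, (m i : ℝ) * α i = l * α w := by
        rw [h3, ← hl]
        field_simp
      rw [h4]
      push_cast
      ring
    have h2 := indep (insert w F) (by
      intro v hv
      rcases Finset.mem_insert.1 hv with rfl | hv
      · exact hw
      · exact hF v hv) m' h1
    funext i
    have h3 := h2 i (Finset.mem_insert_of_mem i.2)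
    rw [hm'F] at h3
    exact h3
  have hc0 : ∀ i : F, 0 ≤ 1 - s * α i := fun i => by
    have := mul_le_mul hs1 (alpha_le_one i) (alpha_nonneg i) zero_le_one
    linarith
  have hc1 : ∀ i : F, 1 - s * α i ≤ 1 := fun i => by
    have := mul_nonneg hs0 (alpha_nonneg i)
    linarith
  have hW := weyl_box (fun i : F => τ w * α i) hθ (fun i : F => 1 - s * α i) hc0 hc1
  rw [Finset.prod_coe_sort F (fun v => 1 - s * α v)] at hW
  have hP : ∀ j : ℕ, (∀ i : F, Int.fract ((j : ℝ) * (τ w * α i)) < 1 - s * α i) ↔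
      ∀ w' ∈ F, empt w' (j * τ w) s := by
    intro j
    constructor
    · intro h w' hw'
      exact (isoF_empt (hF w' hw') hτ.le j).2 (h ⟨w', hw'⟩)
    · intro h i
      exact (isoF_empt (hF i i.2) hτ.le j).1 (h i i.2)
  have hW' : Tendsto (fun J : ℕ => (((Finset.range J).filter
      (fun j : ℕ => ∀ w' ∈ F, empt w' (j * τ w) s)).card : ℝ) / J) atTop
      (𝓝 (∏ w' ∈ F, (1 - s * α w'))) := by
    refine hW.congr fun J => ?_
    congr 2
    refine congrArg Finset.card (Finset.filter_congr fun j _ => ?_)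
    exact hP j
  have hd : Tendsto (fun J : ℕ => (((Finset.Icc 1 J).filter
      (fun j : ℕ => ∀ w' ∈ F, empt w' (j * τ w) s)).card : ℝ) / J -
      (((Finset.range J).filter
      (fun j : ℕ => ∀ w' ∈ F, empt w' (j * τ w) s)).card : ℝ) / J) atTop (𝓝 0) := by
    refine squeeze_zero_norm (a := fun J : ℕ => 1 / (J : ℝ)) (fun J => ?_)
      (tendsto_one_div_atTop_nhds_zero_nat (𝕜 := ℝ))
    rcases Nat.eq_zero_or_pos J with rfl | hJ
    · simp
    have hJ' : (0 : ℝ) < J := by exact_mod_cast hJ
    rw [← sub_div, norm_div, Real.norm_natCast]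
    refine div_le_div_of_nonneg_right ?_ hJ'.le
    rw [Real.norm_eq_abs, abs_le]
    set P : ℕ → Prop := fun j => ∀ w' ∈ F, empt w' (j * τ w) s with hPd
    have h1 : ((Finset.Icc 1 J).filter P).card ≤ ((Finset.range J).filter P).card + 1 := by
      refine le_trans (Finset.card_le_card (t := insert J ((Finset.range J).filter P)) ?_)
        (Finset.card_insert_le _ _)
      intro j hj
      rw [Finset.mem_filter, Finset.mem_Icc] at hj
      rw [Finset.mem_insert, Finset.mem_filter, Finset.mem_range]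
      rcases hj.1.2.eq_or_lt with h | h
      · exact Or.inl h
      · exact Or.inr ⟨h, hj.2⟩
    have h2 : ((Finset.range J).filter P).card ≤ ((Finset.Icc 1 J).filter P).card + 1 := by
      refine le_trans (Finset.card_le_card (t := insert 0 ((Finset.Icc 1 J).filter P)) ?_)
        (Finset.card_insert_le _ _)
      intro j hj
      rw [Finset.mem_filter, Finset.mem_range] at hj
      rw [Finset.mem_insert, Finset.mem_filter, Finset.mem_Icc]
      rcases Nat.eq_zero_or_pos j with h | h
      · exact Or.inl h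
      · exact Or.inr ⟨⟨h, hj.1.le⟩, hj.2⟩
    have h1' : (((Finset.Icc 1 J).filter P).card : ℝ) ≤ ((Finset.range J).filter P).card + 1 := by
      exact_mod_cast h1
    have h2' : (((Finset.range J).filter P).card : ℝ) ≤ ((Finset.Icc 1 J).filter P).card + 1 := by
      exact_mod_cast h2
    constructor <;> linarith
  have := hd.add hW'
  simpa using this

end Pool.Agent.GL3
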