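import Pool.Agent.GL3.Sum

set_option autoImplicit false

/-!
# The infinite products `PP w s` and the functions `Ψ`, `Φ`

The product of the `1 - s α w'` is multipliable since `∑ s α w'` converges; bounds and the Lipschitz
estimate pass from the finite products to the limit.
-/

namespace Pool.Agent.GL3

open Finset Filter Topology

private noncomputable def ff (w : ℕ) (s : ℝ) (w' : ℕ) : ℝ := if w' = w then 1 else 1 - s * α w'

private lemma ff_nonneg (w : ℕ) {s : ℝ} (hs0 : 0 ≤ s) (hs1 : s ≤ 1) (w' : ℕ) : 0 ≤ ff w s w' := by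
  unfold ff
  split_ifs
  · exact zero_le_one
  · have h1 : s * α w' ≤ 1 * 1 :=
      mul_le_mul hs1 (alpha_le_one w') (alpha_nonneg w') zero_le_one
    linarith

private lemma ff_le_one (w : ℕ) {s : ℝ} (hs0 : 0 ≤ s) (w' : ℕ) : ff w s w' ≤ 1 := by
  unfold ff
  split_ifs
  · exact le_refl 1
  · have h1 : 0 ≤ s * α w' := mul_nonneg hs0 (alpha_nonneg w')
    linarith

private lemma hasProd_PP (w : ℕ) (s : ℝ) : HasProd (ff w s) (PP w s) := by
  have h1 : Multipliable (ff w s) := by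
    have h2 : ff w s = fun w' => 1 + (if w' = w then 0 else -(s * α w')) := by
      funext w'
      unfold ff
      split_ifs <;> ring
    rw [h2]
    apply multipliable_one_add_of_summable
    have h3 : Summable fun w' : ℕ => |s| * α w' := summable_alpha.mul_left |s|
    refine Summable.of_nonneg_of_le (fun _ => norm_nonneg _) (fun w' => ?_) h3
    split_ifs
    · rw [norm_zero]
      exact mul_nonneg (abs_nonneg s) (alpha_nonneg w')
    · rw [norm_neg, norm_mul, Real.norm_eq_abs, Real.norm_eq_abs, abs_of_nonneg (alpha_nonneg w')]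
  exact h1.hasProd

private lemma tendsto_PP (w : ℕ) (s : ℝ) :
    Tendsto (fun F : Finset ℕ => ∏ w' ∈ F, ff w s w') atTop (𝓝 (PP w s)) := hasProd_PP w s

theorem PP_approx (w : ℕ) {s : ℝ} (hs0 : 0 ≤ s) (hs1 : s ≤ 1) {ε : ℝ} (hε : 0 < ε) :
    ∃ F0 : Finset ℕ, ∀ F : Finset ℕ, F0 ⊆ F →
      |∏ w' ∈ F, (if w' = w then 1 else 1 - s * α w') - PP w s| ≤ ε := by
  obtain ⟨F0, hF0⟩ := Metric.tendsto_atTop.1 (tendsto_PP w s) ε hε
  refine ⟨F0, fun F hF => ?_⟩
  have h := (hF0 F hF).le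
  rw [Real.dist_eq] at h
  exact h

theorem PP_nonneg (w : ℕ) {s : ℝ} (hs0 : 0 ≤ s) (hs1 : s ≤ 1) : 0 ≤ PP w s :=
  ge_of_tendsto' (tendsto_PP w s) fun _ => Finset.prod_nonneg fun w' _ => ff_nonneg w hs0 hs1 w'

theorem PP_le_one (w : ℕ) {s : ℝ} (hs0 : 0 ≤ s) (hs1 : s ≤ 1) : PP w s ≤ 1 :=
  le_of_tendsto' (tendsto_PP w s) fun _ =>
    Finset.prod_le_one (fun w' _ => ff_nonneg w hs0 hs1 w') fun w' _ => ff_le_one w hs0 w'

theorem summable_Psi {s : ℝ} (hs0 : 0 ≤ s) (hs1 : s ≤ 1) : Summable fun w => α w * PP w s := by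
  refine Summable.of_nonneg_of_le
    (fun w => mul_nonneg (alpha_nonneg w) (PP_nonneg w hs0 hs1)) (fun w => ?_) summable_alpha
  calc α w * PP w s ≤ α w * 1 := mul_le_mul_of_nonneg_left (PP_le_one w hs0 hs1) (alpha_nonneg w)
    _ = α w := mul_one _

theorem Psi_zero : Ψ 0 = γ := by
  unfold Ψ γ
  refine tsum_congr fun w => ?_
  have h1 : PP w 0 = 1 := by
    unfold PP
    have h2 : (fun w' : ℕ => (if w' = w then (1 : ℝ) else 1 - 0 * α w')) = fun _ => 1 := by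
      funext w'
      split_ifs <;> ring
    rw [h2]
    exact tprod_one
  rw [h1, mul_one]

private lemma fin_lip (w : ℕ) {s s' : ℝ} (hs0 : 0 ≤ s) (hss : s ≤ s') (hs1 : s' ≤ 1)
    (F : Finset ℕ) : 0 ≤ ∏ w' ∈ F, ff w s w' - ∏ w' ∈ F, ff w s' w' ∧
      ∏ w' ∈ F, ff w s w' - ∏ w' ∈ F, ff w s' w' ≤ (s' - s) * ∑ w' ∈ F, α w' := by
  classical
  have hs'0 : 0 ≤ s' := hs0.trans hss
  induction F using Finset.induction_on with
  | empty => simp
  | insert a F ha ih =>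
    rw [Finset.prod_insert ha, Finset.prod_insert ha, Finset.sum_insert ha]
    have h1 : 0 ≤ ff w s a - ff w s' a ∧ ff w s a - ff w s' a ≤ (s' - s) * α a := by
      unfold ff
      split_ifs
      · rw [sub_self]
        exact ⟨le_refl 0, mul_nonneg (sub_nonneg.2 hss) (alpha_nonneg a)⟩
      · constructor
        · have := mul_nonneg (sub_nonneg.2 hss) (alpha_nonneg a)
          nlinarith
        · linarith
    have h2 : 0 ≤ ∏ w' ∈ F, ff w s w' :=
      Finset.prod_nonneg fun w' _ => ff_nonneg w hs0 (hss.trans hs1) w'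
    have h3 : ∏ w' ∈ F, ff w s w' ≤ 1 :=
      Finset.prod_le_one (fun w' _ => ff_nonneg w hs0 (hss.trans hs1) w') fun w' _ =>
        ff_le_one w hs0 w'
    have h4 := ff_nonneg w hs'0 hs1 a
    have h5 := ff_le_one w hs'0 a
    have e : ff w s a * ∏ w' ∈ F, ff w s w' - ff w s' a * ∏ w' ∈ F, ff w s' w' =
        (ff w s a - ff w s' a) * ∏ w' ∈ F, ff w s w' +
          ff w s' a * (∏ w' ∈ F, ff w s w' - ∏ w' ∈ F, ff w s' w') := by ring
    rw [e]
    constructor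
    · exact add_nonneg (mul_nonneg h1.1 h2) (mul_nonneg h4 ih.1)
    · have h6 : (ff w s a - ff w s' a) * ∏ w' ∈ F, ff w s w' ≤ (s' - s) * α a := by
        calc (ff w s a - ff w s' a) * ∏ w' ∈ F, ff w s w'
            ≤ (ff w s a - ff w s' a) * 1 := mul_le_mul_of_nonneg_left h3 h1.1
          _ ≤ (s' - s) * α a := by rw [mul_one]; exact h1.2
      have h7 : ff w s' a * (∏ w' ∈ F, ff w s w' - ∏ w' ∈ F, ff w s' w') ≤
          (s' - s) * ∑ w' ∈ F, α w' := by
        calc ff w s' a * (∏ w' ∈ F, ff w s w' - ∏ w' ∈ F, ff w s' w')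
            ≤ 1 * (∏ w' ∈ F, ff w s w' - ∏ w' ∈ F, ff w s' w') :=
              mul_le_mul_of_nonneg_right h5 ih.1
          _ ≤ (s' - s) * ∑ w' ∈ F, α w' := by rw [one_mul]; exact ih.2
      rw [mul_add]
      exact add_le_add h6 h7

private lemma PP_lip (w : ℕ) {s s' : ℝ} (hs0 : 0 ≤ s) (hss : s ≤ s') (hs1 : s' ≤ 1) :
    0 ≤ PP w s - PP w s' ∧ PP w s - PP w s' ≤ (s' - s) * γ := by
  have ht := (tendsto_PP w s).sub (tendsto_PP w s')
  constructor
  · exact ge_of_tendsto' ht fun F => (fin_lip w hs0 hss hs1 F).1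
  · refine le_of_tendsto' ht fun F => (fin_lip w hs0 hss hs1 F).2.trans ?_
    refine mul_le_mul_of_nonneg_left ?_ (sub_nonneg.2 hss)
    exact summable_alpha.sum_le_tsum F fun w' _ => alpha_nonneg w'

private lemma gamma_pos : 0 < γ := lt_of_lt_of_le one_pos one_le_gamma

theorem Psi_lip {s s' : ℝ} (hs0 : 0 ≤ s) (hss : s ≤ s') (hs1 : s' ≤ 1) :
    0 ≤ Ψ s - Ψ s' ∧ Ψ s - Ψ s' ≤ γ ^ 2 * (s' - s) := by
  have hA := summable_Psi hs0 (hss.trans hs1)
  have hB := summable_Psi (hs0.trans hss) hs1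
  have h1 : Ψ s - Ψ s' = ∑' w, α w * (PP w s - PP w s') := by
    unfold Ψ
    rw [← hA.tsum_sub hB]
    refine tsum_congr fun w => ?_
    ring
  have hC : Summable fun w => α w * (PP w s - PP w s') := by
    refine (hA.sub hB).congr fun w => ?_
    ring
  rw [h1]
  constructor
  · exact tsum_nonneg fun w => mul_nonneg (alpha_nonneg w) (PP_lip w hs0 hss hs1).1
  · calc ∑' w, α w * (PP w s - PP w s') ≤ ∑' w, α w * ((s' - s) * γ) :=
          hC.tsum_le_tsum (fun w => mul_le_mul_of_nonneg_left (PP_lip w hs0 hss hs1).2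
            (alpha_nonneg w)) (summable_alpha.mul_right _)
      _ = γ ^ 2 * (s' - s) := by
          rw [tsum_mul_right]
          show γ * ((s' - s) * γ) = _
          ring

theorem Phi_zero : Φ 0 = 0 := by
  unfold Φ
  rw [Psi_zero, div_self gamma_pos.ne', sub_self]

theorem Phi_mono {s s' : ℝ} (hs0 : 0 ≤ s) (hss : s ≤ s') (hs1 : s' ≤ 1) : Φ s ≤ Φ s' := by
  unfold Φ
  have h1 := (Psi_lip hs0 hss hs1).1
  have h2 : Ψ s' / γ ≤ Ψ s / γ := div_le_div_of_nonneg_right (by linarith) gamma_pos.le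
  linarith

theorem Phi_lip {s s' : ℝ} (hs0 : 0 ≤ s) (hss : s ≤ s') (hs1 : s' ≤ 1) :
    Φ s' - Φ s ≤ γ * (s' - s) := by
  unfold Φ
  have h1 := (Psi_lip hs0 hss hs1).2
  have h2 : 1 - Ψ s' / γ - (1 - Ψ s / γ) = (Ψ s - Ψ s') / γ := by ring
  rw [h2, div_le_iff₀ gamma_pos]
  calc Ψ s - Ψ s' ≤ γ ^ 2 * (s' - s) := h1
    _ = γ * (s' - s) * γ := by ring

theorem Phi_nonneg {s : ℝ} (hs0 : 0 ≤ s) (hs1 : s ≤ 1) : 0 ≤ Φ s := by
  rw [← Phi_zero]
  exact Phi_mono (le_refl 0) hs0 hs1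

theorem Phi_le_one {s : ℝ} (hs0 : 0 ≤ s) (hs1 : s ≤ 1) : Φ s ≤ 1 := by
  unfold Φ
  have h1 : 0 ≤ Ψ s := tsum_nonneg fun w => mul_nonneg (alpha_nonneg w) (PP_nonneg w hs0 hs1)
  have h2 : 0 ≤ Ψ s / γ := div_nonneg h1 gamma_pos.le
  linarith

end Pool.Agent.GL3
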