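import Pool.Agent.GL3.IsoF
import Pool.Agent.GL3.Prod
import Pool.Agent.GL3.Count

set_option autoImplicit false

/-!
# Isolation of the points of one class

The points of class `w` isolated from above have the density `α w ∏_(w' ≠ w) (1 - s α w')`: finitely many
classes are handled by equidistribution, the others by the density of the union of their points.
-/

namespace Pool.Agent.GL3

open Finset Filter Topology

theorem isoW_le {w : ℕ} {s T : ℝ} (hT : 0 ≤ T) : (isoW w s T : ℝ) ≤ α w * T := by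
  classical
  have h1 : isoW w s T ≤ ⌊T * α w⌋₊ := by
    unfold isoW
    refine (Finset.card_filter_le _ _).trans ?_
    simp
  calc (isoW w s T : ℝ) ≤ ((⌊T * α w⌋₊ : ℕ) : ℝ) := by exact_mod_cast h1
    _ ≤ T * α w := Nat.floor_le (mul_nonneg hT (alpha_nonneg w))
    _ = α w * T := mul_comm _ _

open Classical in
private noncomputable def NF (w : ℕ) (F : Finset ℕ) (s : ℝ) (J : ℕ) : ℕ :=
  ((Finset.Icc 1 J).filter (fun j : ℕ => ∀ w' ∈ F, empt w' (j * τ w) s)).card

private theorem iso_le_NF {w : ℕ} (F : Finset ℕ) (hw : CF w) (hF : ∀ w' ∈ F, CF w')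
    {s T : ℝ} : isoW w s T ≤ NF w F s ⌊T * α w⌋₊ := by
  classical
  unfold isoW NF
  refine Finset.card_le_card fun j hj => ?_
  rw [mem_filter] at hj ⊢
  refine ⟨hj.1, fun w' hw' i hi => ?_⟩
  have hτ := tau_pos hw
  have hj0 : (0 : ℝ) ≤ j * τ w := by positivity
  have hi0 : 0 < i := by
    rcases Nat.eq_zero_or_pos i with h | h
    · exfalso
      have h1 := hi.1
      rw [h, Nat.cast_zero, zero_mul] at h1
      linarith
    · exact h
  have h2 := hj.2 (A w' * i ^ 3) (P3_rep (hF w' hw') hi0) (by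
    rw [← cr_lt, cr_rep, cr_rep]
    exact hi.1)
  rw [cr_rep] at h2
  linarith [hi.2]

open Classical in
private theorem NF_le {w : ℕ} (F : Finset ℕ) (q : ℕ → Prop) (hq : ∀ v, q v ↔ v = w ∨ v ∈ F)
    (hw : CF w) {s T : ℝ} (hs0 : 0 ≤ s)
    (hs1 : s < 1) (hT : 0 ≤ T) : (NF w F s ⌊T * α w⌋₊ : ℝ) ≤ isoW w s T +
      (T + s) * ∑' w' : ℕ, (if q w' then 0 else α w') := by
  have hτ := one_le_tau hw
  set S1 := (Finset.Icc 1 ⌊T * α w⌋₊).filter (fun j : ℕ => ∀ w' ∈ F, empt w' (j * τ w) s)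
    with hS1
  set S2 := (Finset.Icc 1 ⌊T * α w⌋₊).filter
    (fun j : ℕ => ∀ m : ℕ, P3 m → A w * j ^ 3 < m → j * τ w + s < cr m) with hS2
  set Q := (PT (T + s)).filter (fun n => ∃ w' j : ℕ, CF w' ∧ 0 < j ∧ n = A w' * j ^ 3 ∧
    ¬ q w') with hQ
  have hex : ∀ j ∈ S1 \ S2, ∃ m ∈ Q, j * τ w < cr m ∧ cr m ≤ j * τ w + s := by
    intro j hj
    rw [Finset.mem_sdiff, hS1, hS2, mem_filter, mem_filter] at hj
    obtain ⟨⟨hj1, hj2⟩, hj3⟩ := hj
    have hj4 : ∃ m : ℕ, P3 m ∧ A w * j ^ 3 < m ∧ cr m ≤ j * τ w + s := by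
      by_contra hcon
      push Not at hcon
      exact hj3 ⟨hj1, hcon⟩
    obtain ⟨m, hm1, hm2, hm3⟩ := hj4
    have hjT : (j : ℝ) * τ w ≤ T := (floor_bound hw hT).1 (mem_Icc.1 hj1).2
    have hm4 : (j : ℝ) * τ w < cr m := by
      rw [← cr_rep]
      exact cr_lt.2 hm2
    refine ⟨m, ?_, hm4, hm3⟩
    rw [hQ, mem_filter, mem_PT (by linarith)]
    refine ⟨⟨hm1, by linarith⟩, ?_⟩
    obtain ⟨w', i, hw', hi, rfl⟩ := exists_rep hm1
    refine ⟨w', i, hw', hi, rfl, ?_⟩
    rw [cr_rep] at hm3 hm4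
    intro hmem
    rw [hq] at hmem
    rcases hmem with rfl | hmem
    · have h1 : j < i := by
        have := lt_of_mul_lt_mul_right hm4 (by linarith)
        exact_mod_cast this
      have h2 : (j : ℝ) + 1 ≤ i := by exact_mod_cast h1
      nlinarith
    · exact hj2 w' hmem i ⟨hm4, hm3⟩
  choose! f hfQ hf1 hf2 using hex
  have hinj : Set.InjOn f (S1 \ S2 : Finset ℕ) := by
    have aux : ∀ j ∈ S1 \ S2, ∀ j' ∈ S1 \ S2, j < j' → f j ≠ f j' := by
      intro j hj j' hj' hlt heq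
      have h1 := hf2 j hj
      have h2 := hf1 j' hj'
      rw [heq] at h1
      have h3 : (j : ℝ) + 1 ≤ j' := by exact_mod_cast hlt
      nlinarith
    intro j hj j' hj' heq
    rcases lt_trichotomy j j' with h | h | h
    · exact absurd heq (aux j hj j' hj' h)
    · exact h
    · exact absurd heq.symm (aux j' hj' j hj h)
  have hcard : (S1 \ S2).card ≤ Q.card :=
    Finset.card_le_card_of_injOn f (fun j hj => hfQ j hj) hinj
  have h3 : S1.card ≤ S2.card + (S1 \ S2).card := by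
    rw [← Finset.card_inter_add_card_sdiff S1 S2]
    exact Nat.add_le_add_right (Finset.card_le_card Finset.inter_subset_right) _
  have h4 : (Q.card : ℝ) ≤ (T + s) * ∑' w' : ℕ, (if q w' then 0 else α w') :=
    card_class_le (T := T + s) (by linarith) q
  have h5 : (S1.card : ℝ) ≤ S2.card + Q.card := by exact_mod_cast h3.trans (by omega)
  have h6 : NF w F s ⌊T * α w⌋₊ = S1.card := rfl
  have h7 : isoW w s T = S2.card := rfl
  rw [h6, h7]
  linarith

private theorem NF_tendsto {w : ℕ} (hw : CF w) (F : Finset ℕ) (hF : ∀ w' ∈ F, CF w')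
    (hwF : w ∉ F) {s : ℝ} (hs0 : 0 ≤ s) (hs1 : s ≤ 1) :
    Tendsto (fun T : ℝ => (NF w F s ⌊T * α w⌋₊ : ℝ) / T) atTop
      (𝓝 (α w * ∏ w' ∈ F, (1 - s * α w'))) := by
  have h1 := isoF hw F hF hwF hs0 hs1
  have hα := alpha_pos hw
  have h2 : Tendsto (fun T : ℝ => ⌊T * α w⌋₊) atTop atTop :=
    tendsto_nat_floor_atTop.comp (tendsto_id.atTop_mul_const hα)
  have h3 := h1.comp h2
  have h4 : Tendsto (fun T : ℝ => ((⌊α w * T⌋₊ : ℕ) : ℝ) / T) atTop (𝓝 (α w)) :=
    tendsto_nat_floor_mul_div_atTop hα.le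
  have h5 := h4.mul h3
  refine h5.congr' ?_
  filter_upwards [eventually_gt_atTop (1 / α w), eventually_gt_atTop 0] with T hT hT0
  have hJ : 1 ≤ ⌊T * α w⌋₊ := by
    rw [Nat.one_le_floor_iff]
    rw [div_lt_iff₀ hα] at hT
    exact hT.le
  have hJ0 : ((⌊T * α w⌋₊ : ℕ) : ℝ) ≠ 0 := by
    have : (0 : ℝ) < ((⌊T * α w⌋₊ : ℕ) : ℝ) := by exact_mod_cast hJ
    exact this.ne'
  rw [mul_comm (α w) T]
  simp only [Function.comp]
  unfold NF
  field_simp

open Classical in
private theorem tail_small {ε : ℝ} (hε : 0 < ε) : ∃ G : Finset ℕ,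
    ∀ q : ℕ → Prop, (∀ v ∈ G, CF v → q v) →
      ∑' v : ℕ, (if q v then 0 else α v) ≤ ε := by
  have h1 := summable_alpha.hasSum
  have h2 : ∀ᶠ G : Finset ℕ in atTop, (∑' v, α v) - ε < ∑ v ∈ G, α v :=
    (tendsto_order.1 h1).1 _ (by linarith)
  obtain ⟨G, hG⟩ := h2.exists
  refine ⟨G, fun q hq => ?_⟩
  have h3 : ∀ v, (if q v then 0 else α v) = α v - (if q v then α v else 0) := by
    intro v
    split_ifs <;> ring
  have h4 : Summable fun v => if q v then α v else 0 := by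
    refine Summable.of_nonneg_of_le (fun v => ?_) (fun v => ?_) summable_alpha
    · split_ifs
      · exact alpha_nonneg v
      · exact le_rfl
    · split_ifs
      · exact le_rfl
      · exact alpha_nonneg v
  rw [tsum_congr h3, summable_alpha.tsum_sub h4]
  have h5 : ∑ v ∈ G, (if q v then α v else 0) ≤ ∑' v, (if q v then α v else 0) := by
    refine h4.sum_le_tsum G fun v _ => ?_
    split_ifs
    · exact alpha_nonneg v
    · exact le_rfl
  have h6 : ∑ v ∈ G, (if q v then α v else 0) = ∑ v ∈ G, α v := by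
    refine Finset.sum_congr rfl fun v hv => ?_
    by_cases hc : CF v
    · rw [if_pos (hq v hv hc)]
    · rw [alpha_of_not hc, ite_self]
  linarith

theorem isoW_tendsto {w : ℕ} (hw : CF w) {s : ℝ} (hs0 : 0 ≤ s) (hs1 : s < 1) :
    Tendsto (fun T : ℝ => (isoW w s T : ℝ) / T) atTop (𝓝 (α w * PP w s)) := by
  classical
  rw [Metric.tendsto_atTop]
  intro ε hε
  obtain ⟨F0, hF0⟩ := PP_approx w hs0 hs1.le (ε := ε / 8) (by positivity)
  obtain ⟨G, hG⟩ := tail_small (ε := ε / 8) (by positivity)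
  set H := insert w (F0 ∪ G) with hH
  set F := (H.filter CF).erase w with hFdef
  have hFCF : ∀ w' ∈ F, CF w' := fun w' h => (mem_filter.1 (mem_of_mem_erase h)).2
  have hwF : w ∉ F := notMem_erase _ _
  obtain ⟨q, hq⟩ : ∃ q : ℕ → Prop, ∀ v, q v ↔ v = w ∨ v ∈ F := ⟨_, fun _ => Iff.rfl⟩
  have htail := hG q (fun v hv hc => by
    rw [hq]
    by_cases h : v = w
    · exact Or.inl h
    · refine Or.inr (mem_erase.2 ⟨h, mem_filter.2 ⟨?_, hc⟩⟩)
      exact mem_insert_of_mem (mem_union_right _ hv))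
  have hprod : ∏ w' ∈ F, (1 - s * α w') = ∏ w' ∈ H, (if w' = w then 1 else 1 - s * α w') := by
    have e1 : ∏ w' ∈ F, (1 - s * α w') = ∏ w' ∈ F, (if w' = w then 1 else 1 - s * α w') :=
      Finset.prod_congr rfl fun v hv => by rw [if_neg (ne_of_mem_erase hv)]
    rw [e1]
    refine Finset.prod_subset ((erase_subset _ _).trans (filter_subset _ _)) fun v hv hv2 => ?_
    by_cases h : v = w
    · rw [if_pos h]
    · rw [if_neg h]
      have hc : ¬ CF v := fun hc => hv2 (mem_erase.2 ⟨h, mem_filter.2 ⟨hv, hc⟩⟩)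
      rw [alpha_of_not hc]
      ring
  have hPP := hF0 H (fun v hv => mem_insert_of_mem (mem_union_left _ hv))
  rw [← hprod] at hPP
  have hlim := NF_tendsto hw F hFCF hwF hs0 hs1.le
  rw [Metric.tendsto_atTop] at hlim
  obtain ⟨T0, hT0⟩ := hlim (ε / 8) (by positivity)
  refine ⟨max T0 1, fun T hT => ?_⟩
  have hT1 : 1 ≤ T := (le_max_right _ _).trans hT
  have h1 := hT0 T ((le_max_left _ _).trans hT)
  rw [Real.dist_eq] at h1 ⊢
  have h2 : (isoW w s T : ℝ) ≤ NF w F s ⌊T * α w⌋₊ := by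
    exact_mod_cast iso_le_NF F hw hFCF
  have h3 := NF_le F q hq hw hs0 hs1 (T := T) (by linarith)
  have h4 : (T + s) * ∑' w' : ℕ, (if q w' then 0 else α w') ≤ (2 * T) * (ε / 8) := by
    refine mul_le_mul (by linarith) ?_ ?_ (by linarith)
    · exact htail
    · refine tsum_nonneg fun v => ?_
      split_ifs
      · exact le_rfl
      · exact alpha_nonneg v
  have h5 : |(isoW w s T : ℝ) / T - (NF w F s ⌊T * α w⌋₊ : ℝ) / T| ≤ ε / 4 := by
    rw [← sub_div, abs_div, abs_of_pos (by linarith : (0 : ℝ) < T), div_le_iff₀ (by linarith),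
      abs_sub_comm, abs_of_nonneg (by linarith)]
    linarith
  have h6 : |α w * ∏ w' ∈ F, (1 - s * α w') - α w * PP w s| ≤ ε / 8 := by
    rw [← mul_sub, abs_mul, abs_of_nonneg (alpha_nonneg w)]
    calc α w * |∏ w' ∈ F, (1 - s * α w') - PP w s|
        ≤ 1 * (ε / 8) := mul_le_mul (alpha_le_one w) hPP (abs_nonneg _) zero_le_one
      _ = ε / 8 := one_mul _
  rw [abs_lt] at h1 ⊢
  rw [abs_le] at h5 h6
  constructor <;> linarith [h1.1, h1.2, h5.1, h5.2, h6.1, h6.2]

end Pool.Agent.GL3
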