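import Pool.Agent.GL3.Rep

set_option autoImplicit false

/-!
# Liouville

The cubes of `x = j τ w` and `y = i τ w'` are distinct integers, so
`1 ≤ |x^3 - y^3| = |x - y| (x^2 + x y + y^2) ≤ |x - y| 3 T^2`.
-/

namespace Pool.Agent.GL3

open Finset Filter Topology

theorem liou {w w' : ℕ} (hw : CF w) (hw' : CF w') (hne : w ≠ w') {j i : ℕ} (hj : 0 < j)
    (hi : 0 < i) {T : ℝ} (h1 : j * τ w ≤ T) (h2 : i * τ w' ≤ T) :
    1 / (3 * T ^ 2) ≤ |j * τ w - i * τ w'| := by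
  have hj0 : (0 : ℝ) < j := by exact_mod_cast hj
  have hi0 : (0 : ℝ) < i := by exact_mod_cast hi
  obtain ⟨x, hx⟩ : ∃ x : ℝ, x = j * τ w := ⟨_, rfl⟩
  obtain ⟨y, hy⟩ : ∃ y : ℝ, y = i * τ w' := ⟨_, rfl⟩
  have hx0 : 0 < x := by rw [hx]; exact mul_pos hj0 (tau_pos hw)
  have hy0 : 0 < y := by rw [hy]; exact mul_pos hi0 (tau_pos hw')
  have hx3 : x ^ 3 = ((A w * j ^ 3 : ℕ) : ℝ) := by
    rw [hx, mul_pow, tau_cube]
    push_cast
    ring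
  have hy3 : y ^ 3 = ((A w' * i ^ 3 : ℕ) : ℝ) := by
    rw [hy, mul_pow, tau_cube]
    push_cast
    ring
  rw [← hx] at h1
  rw [← hy] at h2
  rw [← hx, ← hy]
  have hT : 0 < T := hx0.trans_le h1
  have hne2 : ((A w * j ^ 3 : ℕ) : ℤ) - ((A w' * i ^ 3 : ℕ) : ℤ) ≠ 0 := by
    intro h0
    have h3 : A w * j ^ 3 = A w' * i ^ 3 := by exact_mod_cast sub_eq_zero.mp h0
    exact hne (rep_unique hw hw' hj hi h3).1
  have h4 : (1 : ℝ) ≤ |x ^ 3 - y ^ 3| := by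
    rw [hx3, hy3]
    have h5 := Int.one_le_abs hne2
    exact_mod_cast h5
  have h6 : |x ^ 3 - y ^ 3| = |x - y| * (x ^ 2 + x * y + y ^ 2) := by
    have h7 : x ^ 3 - y ^ 3 = (x - y) * (x ^ 2 + x * y + y ^ 2) := by ring
    rw [h7, abs_mul, abs_of_nonneg (by positivity : 0 ≤ x ^ 2 + x * y + y ^ 2)]
  have h8 : x ^ 2 + x * y + y ^ 2 ≤ 3 * T ^ 2 := by nlinarith
  rw [div_le_iff₀ (by positivity)]
  calc (1 : ℝ) ≤ |x - y| * (x ^ 2 + x * y + y ^ 2) := by rw [← h6]; exact h4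
    _ ≤ |x - y| * (3 * T ^ 2) := mul_le_mul_of_nonneg_left h8 (abs_nonneg _)

end Pool.Agent.GL3
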