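import Mathlib

set_option autoImplicit false

/-!
# An abstract moment lemma

For `0 < s1 < 1` the number `c = max s1 (min x 1)` satisfies `c ^ β = 1 - β ∫ s in s1..1, s ^ (β - 1) 1{x ≤ s}`; the
averages of these numbers converge by dominated convergence, and they approximate the averages of `x ^ β`.
-/

namespace Pool.Agent.GL3

open Finset Filter Topology MeasureTheory

private theorem int_rpow {β c : ℝ} (hc : 0 < c) (hc1 : c ≤ 1) :
    β * ∫ s in c..1, s ^ (β - 1) = 1 - c ^ β := by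
  by_cases hβ : β = 0
  · rw [hβ]; simp
  · rw [integral_rpow (Or.inr ⟨fun h => hβ (by linarith), ?_⟩)]
    · rw [sub_add_cancel, Real.one_rpow]
      field_simp
    · rw [Set.uIcc_of_le hc1]
      intro h
      exact absurd h.1 (not_le.2 hc)

private theorem rpow_int {β a b : ℝ} (ha : 0 < a) (hab : a ≤ b) :
    IntervalIntegrable (fun s : ℝ => s ^ (β - 1)) volume a b := by
  refine ContinuousOn.intervalIntegrable ?_
  rw [Set.uIcc_of_le hab]
  exact ContinuousOn.rpow_const continuousOn_id fun s hs => Or.inl (ha.trans_le hs.1).ne'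

private theorem mul_int {β a b K : ℝ} (ha : 0 < a) (hab : a ≤ b) {h : ℝ → ℝ}
    (hm : AEStronglyMeasurable h (volume.restrict (Set.uIoc a b))) (hb : ∀ s ∈ Set.uIoc a b, |h s| ≤ K) :
    IntervalIntegrable (fun s : ℝ => s ^ (β - 1) * h s) volume a b := by
  refine ((rpow_int (β := β) ha hab).const_mul K).mono_fun' ?_ ?_
  · exact ((measurable_id.pow_const (β - 1)).aestronglyMeasurable).mul hm
  · refine (ae_restrict_iff' measurableSet_uIoc).2 (Eventually.of_forall fun s hs => ?_)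
    have hs0 : 0 < s := by
      rw [Set.uIoc_of_le hab] at hs
      exact ha.trans hs.1
    have h1 := Real.rpow_nonneg hs0.le (β - 1)
    change ‖s ^ (β - 1) * h s‖ ≤ K * s ^ (β - 1)
    rw [Real.norm_eq_abs, abs_mul, abs_of_nonneg h1, mul_comm]
    exact mul_le_mul_of_nonneg_right (hb s hs) h1

private theorem meas_ind (x : ℝ) : Measurable (fun s : ℝ => if x ≤ s then (1 : ℝ) else 0) :=
  Measurable.ite measurableSet_Ici measurable_const measurable_const

private theorem ind_le (x s : ℝ) : |(if x ≤ s then (1 : ℝ) else 0)| ≤ 1 := by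
  split_ifs <;> simp

private theorem int_ind {β s1 : ℝ} (h0 : 0 < s1) (h1 : s1 < 1) (x : ℝ) :
    β * ∫ s in s1..1, s ^ (β - 1) * (if x ≤ s then (1 : ℝ) else 0) = 1 - (max s1 (min x 1)) ^ β := by
  obtain ⟨c, hc⟩ : ∃ c, c = max s1 (min x 1) := ⟨_, rfl⟩
  have hcs : s1 ≤ c := by rw [hc]; exact le_max_left _ _
  have hc1 : c ≤ 1 := by rw [hc]; exact max_le h1.le (min_le_right _ _)
  have hc0 : 0 < c := h0.trans_le hcs
  rw [← hc, ← int_rpow hc0 hc1]
  refine congrArg (fun t => β * t) ?_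
  rw [← intervalIntegral.integral_add_adjacent_intervals (b := c)
    (mul_int (K := 1) h0 hcs (meas_ind x).aestronglyMeasurable fun s _ => ind_le x s)
    (mul_int (K := 1) hc0 hc1 (meas_ind x).aestronglyMeasurable fun s _ => ind_le x s)]
  have e1 : (∫ s in s1..c, s ^ (β - 1) * (if x ≤ s then (1 : ℝ) else 0)) = ∫ s in s1..c, (0 : ℝ) := by
    refine intervalIntegral.integral_congr_ae ?_
    have hne : ∀ᵐ s : ℝ, s ≠ c := compl_mem_ae_iff.2 (measure_singleton c)
    filter_upwards [hne] with s hs hs'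
    rw [Set.uIoc_of_le hcs] at hs'
    have h2 : s < c := lt_of_le_of_ne hs'.2 hs
    have h3 : ¬ x ≤ s := by
      intro h
      rw [hc] at h2
      rcases lt_max_iff.1 h2 with h4 | h4
      · exact absurd h4 (not_lt.2 hs'.1.le)
      · exact absurd (lt_of_lt_of_le h4 (min_le_left _ _)) (not_lt.2 h)
    rw [if_neg h3, mul_zero]
  have e2 : (∫ s in c..1, s ^ (β - 1) * (if x ≤ s then (1 : ℝ) else 0)) = ∫ s in c..1, s ^ (β - 1) := by
    rcases le_or_gt x 1 with hx | hx
    · refine intervalIntegral.integral_congr fun s hs => ?_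
      rw [Set.uIcc_of_le hc1] at hs
      have h2 : x ≤ s := by
        refine le_trans ?_ hs.1
        rw [hc, min_eq_left hx]
        exact le_max_right _ _
      change s ^ (β - 1) * (if x ≤ s then (1 : ℝ) else 0) = s ^ (β - 1)
      rw [if_pos h2, mul_one]
    · have h2 : c = 1 := by
        rw [hc, min_eq_right hx.le]
        exact max_eq_right h1.le
      rw [h2, intervalIntegral.integral_same, intervalIntegral.integral_same]
  rw [e1, e2, intervalIntegral.integral_zero, zero_add]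

private theorem law_sum (x : ℕ → ℝ) (M : ℕ) (s : ℝ) :
    (((Finset.range M).filter (fun m => x m ≤ s)).card : ℝ) / M =
      (∑ m ∈ Finset.range M, if x m ≤ s then (1 : ℝ) else 0) / M := by
  rw [Finset.sum_boole]

private theorem law_bd (x : ℕ → ℝ) (M : ℕ) (s : ℝ) :
    0 ≤ (((Finset.range M).filter (fun m => x m ≤ s)).card : ℝ) / M ∧
      (((Finset.range M).filter (fun m => x m ≤ s)).card : ℝ) / M ≤ 1 := by
  refine ⟨by positivity, div_le_one_of_le₀ ?_ (Nat.cast_nonneg M)⟩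
  have h := Finset.card_filter_le (Finset.range M) (fun m => x m ≤ s)
  rw [Finset.card_range] at h
  exact_mod_cast h

private theorem law_meas (x : ℕ → ℝ) (M : ℕ) :
    Measurable (fun s : ℝ => (((Finset.range M).filter (fun m => x m ≤ s)).card : ℝ) / M) := by
  have h : (fun s : ℝ => (((Finset.range M).filter (fun m => x m ≤ s)).card : ℝ) / M) =
      fun s => (∑ m ∈ Finset.range M, if x m ≤ s then (1 : ℝ) else 0) / M := by
    funext s
    exact law_sum x M s
  rw [h]
  exact (Finset.measurable_sum _ fun m _ => meas_ind (x m)).div_const _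

/-- the averages of the truncated powers. -/
private theorem trunc_avg {β s1 : ℝ} (h0 : 0 < s1) (h1 : s1 < 1) (x : ℕ → ℝ) {M : ℕ} (hM : 0 < M) :
    (∑ m ∈ Finset.range M, (max s1 (min (x m) 1)) ^ β) / M =
      1 - β * ∫ s in s1..1, s ^ (β - 1) *
        ((((Finset.range M).filter (fun m => x m ≤ s)).card : ℝ) / M) := by
  have hM0 : (M : ℝ) ≠ 0 := by exact_mod_cast hM.ne'
  have e1 : (∫ s in s1..1, s ^ (β - 1) * ((((Finset.range M).filter (fun m => x m ≤ s)).card : ℝ) / M)) =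
      (∑ m ∈ Finset.range M, ∫ s in s1..1, s ^ (β - 1) * (if x m ≤ s then (1 : ℝ) else 0)) / M := by
    rw [← intervalIntegral.integral_finsetSum (fun m _ => mul_int (K := 1) h0 h1.le
      (meas_ind (x m)).aestronglyMeasurable fun s _ => ind_le (x m) s)]
    rw [← intervalIntegral.integral_div]
    refine intervalIntegral.integral_congr fun s _ => ?_
    change s ^ (β - 1) * ((((Finset.range M).filter (fun m => x m ≤ s)).card : ℝ) / M) =
      (∑ m ∈ Finset.range M, s ^ (β - 1) * (if x m ≤ s then (1 : ℝ) else 0)) / M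
    rw [law_sum, ← Finset.mul_sum, mul_div_assoc]
  rw [e1, ← mul_div_assoc, Finset.mul_sum]
  have e2 : ∑ m ∈ Finset.range M, (max s1 (min (x m) 1)) ^ β =
      ∑ m ∈ Finset.range M, (1 - β * ∫ s in s1..1, s ^ (β - 1) * (if x m ≤ s then (1 : ℝ) else 0)) := by
    refine Finset.sum_congr rfl fun m _ => ?_
    rw [int_ind h0 h1 (x m)]
    ring
  rw [e2, Finset.sum_sub_distrib, Finset.sum_const, Finset.card_range, nsmul_eq_mul, mul_one, sub_div,
    div_self hM0]

theorem moment_lemma (x : ℕ → ℝ) (Φ : ℝ → ℝ) (C β : ℝ) (hβ : -1 < β) (hx : ∀ m, 0 < x m)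
    (hup : ∀ e : ℝ, 0 < e → ∃ m1 : ℕ, ∀ m : ℕ, m1 ≤ m → x m ≤ 1 + e)
    (hlaw : ∀ s : ℝ, 0 ≤ s → s < 1 → Tendsto (fun M : ℕ => (((Finset.range M).filter
      (fun m => x m ≤ s)).card : ℝ) / M) atTop (𝓝 (Φ s)))
    (hmono : ∀ s s' : ℝ, 0 ≤ s → s ≤ s' → s' ≤ 1 → Φ s ≤ Φ s')
    (hlip : ∀ s : ℝ, 0 ≤ s → s ≤ 1 → Φ s ≤ C * s)
    (hsmall : ∀ δ : ℝ, 0 < δ → ∃ s1 : ℝ, 0 < s1 ∧ s1 < 1 ∧ ∃ M1 : ℕ, ∀ M : ℕ, M1 ≤ M →
      ∑ m ∈ (Finset.range M).filter (fun m => x m ≤ s1), x m ^ β ≤ δ * M) :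
    Tendsto (fun M : ℕ => (∑ m ∈ Finset.range M, x m ^ β) / M) atTop
      (𝓝 (1 - β * ∫ s in (0 : ℝ)..1, s ^ (β - 1) * Φ s)) := by
  classical
  have hβ1 : 0 < β + 1 := by linarith
  -- facts on Φ
  have hΦ0 : ∀ s : ℝ, 0 ≤ s → s ≤ 1 → 0 ≤ Φ s := by
    intro s hs hs1
    have h1 : 0 ≤ Φ 0 := ge_of_tendsto' (hlaw 0 le_rfl one_pos) fun M => (law_bd x M 0).1
    exact h1.trans (hmono 0 s le_rfl hs hs1)
  have hC : 0 ≤ C := by
    have h1 := (hΦ0 (1 / 2) (by norm_num) (by norm_num)).trans (hlip (1 / 2) (by norm_num) (by norm_num))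
    linarith
  have hΦm : AEStronglyMeasurable Φ (volume.restrict (Set.Ioc (0 : ℝ) 1)) := by
    have h1 : MonotoneOn Φ (Set.Ioc (0 : ℝ) 1) := fun a ha b hb hab => hmono a b ha.1.le hab hb.2
    exact (aemeasurable_restrict_of_monotoneOn measurableSet_Ioc h1).aestronglyMeasurable
  have hfb : ∀ s ∈ Set.Ioc (0 : ℝ) 1, ‖s ^ (β - 1) * Φ s‖ ≤ C * s ^ β := by
    intro s hs
    have h1 := Real.rpow_nonneg hs.1.le (β - 1)
    rw [Real.norm_eq_abs, abs_mul, abs_of_nonneg h1, abs_of_nonneg (hΦ0 s hs.1.le hs.2)]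
    have h2 : s ^ β = s ^ (β - 1) * s := by
      rw [← Real.rpow_add_one hs.1.ne', sub_add_cancel]
    rw [h2]
    calc s ^ (β - 1) * Φ s ≤ s ^ (β - 1) * (C * s) := mul_le_mul_of_nonneg_left (hlip s hs.1.le hs.2) h1
      _ = C * (s ^ (β - 1) * s) := by ring
  have hfint : IntervalIntegrable (fun s : ℝ => s ^ (β - 1) * Φ s) volume 0 1 := by
    refine ((intervalIntegral.intervalIntegrable_rpow' (r := β) hβ).const_mul C).mono_fun' ?_ ?_
    · rw [Set.uIoc_of_le zero_le_one]
      exact ((measurable_id.pow_const (β - 1)).aestronglyMeasurable).mul hΦm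
    · rw [Set.uIoc_of_le zero_le_one]
      exact (ae_restrict_iff' measurableSet_Ioc).2 (Eventually.of_forall hfb)
  -- the part near zero
  have hnear : ∀ s1 : ℝ, 0 < s1 → s1 < 1 →
      |∫ s in (0 : ℝ)..s1, s ^ (β - 1) * Φ s| ≤ C * (s1 ^ (β + 1) / (β + 1)) := by
    intro s1 h0 h1
    have h2 : ‖∫ s in (0 : ℝ)..s1, s ^ (β - 1) * Φ s‖ ≤ ∫ s in (0 : ℝ)..s1, C * s ^ β := by
      refine intervalIntegral.norm_integral_le_of_norm_le h0.le ?_ ?_
      · exact Eventually.of_forall fun s hs => hfb s ⟨hs.1, hs.2.trans h1.le⟩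
      · exact (intervalIntegral.intervalIntegrable_rpow' (r := β) hβ).const_mul C
    rw [intervalIntegral.integral_const_mul, integral_rpow (Or.inl hβ), Real.zero_rpow hβ1.ne',
      sub_zero, Real.norm_eq_abs] at h2
    exact h2
  -- the averages of the truncated powers converge
  have htrunc : ∀ s1 : ℝ, 0 < s1 → s1 < 1 →
      Tendsto (fun M : ℕ => (∑ m ∈ Finset.range M, (max s1 (min (x m) 1)) ^ β) / M) atTop
        (𝓝 (1 - β * ∫ s in s1..1, s ^ (β - 1) * Φ s)) := by
    intro s1 h0 h1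
    have h2 : Tendsto (fun M : ℕ => ∫ s in s1..1, s ^ (β - 1) *
        ((((Finset.range M).filter (fun m => x m ≤ s)).card : ℝ) / M)) atTop
        (𝓝 (∫ s in s1..1, s ^ (β - 1) * Φ s)) := by
      refine intervalIntegral.tendsto_integral_filter_of_dominated_convergence
        (fun s => s ^ (β - 1)) ?_ ?_ (rpow_int h0 h1.le) ?_
      · exact Eventually.of_forall fun M =>
          ((measurable_id.pow_const (β - 1)).mul (law_meas x M)).aestronglyMeasurable
      · refine Eventually.of_forall fun M => Eventually.of_forall fun s hs => ?_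
        rw [Set.uIoc_of_le h1.le] at hs
        have h3 := Real.rpow_nonneg (h0.trans hs.1).le (β - 1)
        obtain ⟨h4, h5⟩ := law_bd x M s
        rw [Real.norm_eq_abs, abs_mul, abs_of_nonneg h3, abs_of_nonneg h4]
        exact mul_le_of_le_one_right h3 h5
      · have hne : ∀ᵐ s : ℝ, s ≠ 1 := compl_mem_ae_iff.2 (measure_singleton 1)
        filter_upwards [hne] with s hs hs'
        rw [Set.uIoc_of_le h1.le] at hs'
        exact (hlaw s (h0.trans hs'.1).le (lt_of_le_of_ne hs'.2 hs)).const_mul _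
    have h3 := (h2.const_mul β).const_sub 1
    refine h3.congr' ?_
    filter_upwards [eventually_gt_atTop 0] with M hM
    exact (trunc_avg h0 h1 x hM).symm
  -- the part above one
  have hy : Tendsto (fun m : ℕ => |(max (x m) 1) ^ β - 1|) atTop (𝓝 0) := by
    have h1 : Tendsto (fun m : ℕ => max (x m) 1) atTop (𝓝 1) := by
      rw [Metric.tendsto_atTop]
      intro e he
      obtain ⟨m1, hm1⟩ := hup (e / 2) (by linarith)
      refine ⟨m1, fun m hm => ?_⟩
      have h2 := hm1 m hm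
      have h3 : max (x m) 1 ≤ 1 + e / 2 := max_le h2 (by linarith)
      have h4 : 1 ≤ max (x m) 1 := le_max_right _ _
      rw [Real.dist_eq, abs_of_nonneg (by linarith)]
      linarith
    have h2 : Tendsto (fun m : ℕ => (max (x m) 1) ^ β) atTop (𝓝 ((1 : ℝ) ^ β)) :=
      h1.rpow_const (Or.inl one_ne_zero)
    rw [Real.one_rpow] at h2
    have h3 := (h2.sub_const 1).abs
    rw [sub_self, abs_zero] at h3
    exact h3
  have hces := hy.cesaro
  rw [Metric.tendsto_atTop]
  intro ε hε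
  obtain ⟨t1, ht0, ht1, M1, hM1⟩ := hsmall (ε / 8) (by linarith)
  -- choice of s1
  have hs1ex : ∃ s1 : ℝ, 0 < s1 ∧ s1 < t1 ∧ C * s1 ^ (β + 1) < ε / 8 ∧
      |β| * (C * (s1 ^ (β + 1) / (β + 1))) < ε / 8 := by
    have hc : Tendsto (fun s : ℝ => s ^ (β + 1)) (𝓝[>] 0) (𝓝 0) := by
      have h1 := (Real.continuousAt_rpow_const 0 (β + 1) (Or.inr hβ1.le)).tendsto
      rw [Real.zero_rpow hβ1.ne'] at h1
      exact h1.mono_left nhdsWithin_le_nhds
    have hc1 : Tendsto (fun s : ℝ => C * s ^ (β + 1)) (𝓝[>] 0) (𝓝 0) := by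
      have := hc.const_mul C
      rwa [mul_zero] at this
    have hc2 : Tendsto (fun s : ℝ => |β| * (C * (s ^ (β + 1) / (β + 1)))) (𝓝[>] 0) (𝓝 0) := by
      have := ((hc.div_const (β + 1)).const_mul C).const_mul |β|
      rwa [zero_div, mul_zero, mul_zero] at this
    have h1 : ∀ᶠ s : ℝ in 𝓝[>] 0, s < t1 := by
      filter_upwards [Ioo_mem_nhdsGT ht0] with s hs
      exact hs.2
    have h2 : ∀ᶠ s : ℝ in 𝓝[>] 0, 0 < s := by
      filter_upwards [self_mem_nhdsWithin] with s hs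
      exact hs
    have h3 := hc1.eventually_lt_const (show (0 : ℝ) < ε / 8 by linarith)
    have h4 := hc2.eventually_lt_const (show (0 : ℝ) < ε / 8 by linarith)
    obtain ⟨s, hs⟩ := (h2.and (h1.and (h3.and h4))).exists
    exact ⟨s, hs.1, hs.2.1, hs.2.2.1, hs.2.2.2⟩
  obtain ⟨s1, hs0, hst, hsC, hsβ⟩ := hs1ex
  have hs1 : s1 < 1 := hst.trans ht1
  -- eventual bounds
  have hev1 : ∀ᶠ M : ℕ in atTop, s1 ^ β * ((((Finset.range M).filter (fun m => x m ≤ s1)).card : ℝ) / M) <
      s1 ^ β * Φ s1 + ε / 8 :=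
    ((hlaw s1 hs0.le hs1).const_mul (s1 ^ β)).eventually_lt_const (by linarith)
  have hev2 : ∀ᶠ M : ℕ in atTop, ((M : ℝ)⁻¹ * ∑ i ∈ Finset.range M, |(max (x i) 1) ^ β - 1|) < ε / 8 :=
    hces.eventually_lt_const (by linarith)
  have hev3 : ∀ᶠ M : ℕ in atTop, |(∑ m ∈ Finset.range M, (max s1 (min (x m) 1)) ^ β) / M -
      (1 - β * ∫ s in s1..1, s ^ (β - 1) * Φ s)| < ε / 8 := by
    have := (Metric.tendsto_atTop.1 (htrunc s1 hs0 hs1)) (ε / 8) (by linarith)
    obtain ⟨N, hN⟩ := this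
    filter_upwards [eventually_ge_atTop N] with M hM
    exact hN M hM
  obtain ⟨N, hN⟩ := eventually_atTop.1 (hev1.and (hev2.and hev3))
  refine ⟨max N (max M1 1), fun M hM => ?_⟩
  obtain ⟨b1, b2, b3⟩ := hN M ((le_max_left _ _).trans hM)
  have hMM1 : M1 ≤ M := (le_max_left _ _).trans ((le_max_right _ _).trans hM)
  have hMpos : 0 < M := lt_of_lt_of_le one_pos ((le_max_right _ _).trans ((le_max_right _ _).trans hM))
  have hMr : (0 : ℝ) < M := by exact_mod_cast hMpos
  -- pointwise comparison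
  have hpt : ∀ m, |x m ^ β - (max s1 (min (x m) 1)) ^ β| ≤
      (if x m ≤ s1 then x m ^ β + s1 ^ β else 0) + |(max (x m) 1) ^ β - 1| := by
    intro m
    by_cases h1 : x m ≤ s1
    · rw [if_pos h1]
      have h2 : max s1 (min (x m) 1) = s1 := max_eq_left ((min_le_left _ _).trans h1)
      rw [h2]
      have h3 := Real.rpow_nonneg (hx m).le β
      have h4 := Real.rpow_nonneg hs0.le β
      have h5 : |x m ^ β - s1 ^ β| ≤ x m ^ β + s1 ^ β := by
        rw [abs_le]
        constructor <;> linarith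
      linarith [abs_nonneg ((max (x m) 1) ^ β - 1)]
    · rw [if_neg h1, zero_add]
      push Not at h1
      rcases le_or_gt (x m) 1 with h2 | h2
      · have h3 : max s1 (min (x m) 1) = x m := by
          rw [min_eq_left h2, max_eq_right h1.le]
        rw [h3, sub_self, abs_zero]
        exact abs_nonneg _
      · have h3 : max s1 (min (x m) 1) = 1 := by
          rw [min_eq_right h2.le, max_eq_right hs1.le]
        rw [h3, max_eq_left h2.le, Real.one_rpow]
  have hdiff : |(∑ m ∈ Finset.range M, x m ^ β) / M -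
      (∑ m ∈ Finset.range M, (max s1 (min (x m) 1)) ^ β) / M| ≤
      ε / 8 + (s1 ^ β * Φ s1 + ε / 8) + ε / 8 := by
    rw [← sub_div, ← Finset.sum_sub_distrib, abs_div, abs_of_pos hMr]
    have c1 : |∑ m ∈ Finset.range M, (x m ^ β - (max s1 (min (x m) 1)) ^ β)| ≤
        ∑ m ∈ Finset.range M, ((if x m ≤ s1 then x m ^ β + s1 ^ β else 0) + |(max (x m) 1) ^ β - 1|) :=
      (Finset.abs_sum_le_sum_abs _ _).trans (Finset.sum_le_sum fun m _ => hpt m)
    rw [Finset.sum_add_distrib, ← Finset.sum_filter, Finset.sum_add_distrib, Finset.sum_const,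
      nsmul_eq_mul] at c1
    have c2 : ∑ m ∈ (Finset.range M).filter (fun m => x m ≤ s1), x m ^ β ≤ ε / 8 * M := by
      refine le_trans ?_ (hM1 M hMM1)
      refine Finset.sum_le_sum_of_subset_of_nonneg ?_ fun m _ _ => Real.rpow_nonneg (hx m).le β
      intro m hm
      rw [Finset.mem_filter] at hm ⊢
      exact ⟨hm.1, hm.2.trans hst.le⟩
    have c3 : (((Finset.range M).filter (fun m => x m ≤ s1)).card : ℝ) * s1 ^ β ≤
        (s1 ^ β * Φ s1 + ε / 8) * M := by
      have h1 : (((Finset.range M).filter (fun m => x m ≤ s1)).card : ℝ) * s1 ^ β =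
          s1 ^ β * ((((Finset.range M).filter (fun m => x m ≤ s1)).card : ℝ) / M) * M := by
        field_simp
      rw [h1]
      exact mul_le_mul_of_nonneg_right b1.le hMr.le
    have c4 : ∑ i ∈ Finset.range M, |(max (x i) 1) ^ β - 1| ≤ ε / 8 * M := by
      have h1 : ∑ i ∈ Finset.range M, |(max (x i) 1) ^ β - 1| =
          ((M : ℝ)⁻¹ * ∑ i ∈ Finset.range M, |(max (x i) 1) ^ β - 1|) * M := by
        field_simp
      rw [h1]
      exact mul_le_mul_of_nonneg_right b2.le hMr.le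
    rw [div_le_iff₀ hMr]
    linarith
  -- the limit
  have hlim : |(1 - β * ∫ s in s1..1, s ^ (β - 1) * Φ s) -
      (1 - β * ∫ s in (0 : ℝ)..1, s ^ (β - 1) * Φ s)| < ε / 8 := by
    have i1 : IntervalIntegrable (fun s : ℝ => s ^ (β - 1) * Φ s) volume 0 s1 :=
      hfint.mono_set (by
        rw [Set.uIcc_of_le hs0.le, Set.uIcc_of_le zero_le_one]
        exact Set.Icc_subset_Icc_right hs1.le)
    have i2 : IntervalIntegrable (fun s : ℝ => s ^ (β - 1) * Φ s) volume s1 1 :=
      hfint.mono_set (by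
        rw [Set.uIcc_of_le hs1.le, Set.uIcc_of_le zero_le_one]
        exact Set.Icc_subset_Icc_left hs0.le)
    rw [← intervalIntegral.integral_add_adjacent_intervals i1 i2]
    have h1 : (1 - β * ∫ s in s1..1, s ^ (β - 1) * Φ s) -
        (1 - β * ((∫ s in (0 : ℝ)..s1, s ^ (β - 1) * Φ s) + ∫ s in s1..1, s ^ (β - 1) * Φ s)) =
        β * ∫ s in (0 : ℝ)..s1, s ^ (β - 1) * Φ s := by ring
    rw [h1, abs_mul]
    exact lt_of_le_of_lt (mul_le_mul_of_nonneg_left (hnear s1 hs0 hs1) (abs_nonneg β)) hsβ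
  have hΦs : s1 ^ β * Φ s1 ≤ C * s1 ^ (β + 1) := by
    have h1 := mul_le_mul_of_nonneg_left (hlip s1 hs0.le hs1.le) (Real.rpow_nonneg hs0.le β)
    have h2 : s1 ^ β * (C * s1) = C * s1 ^ (β + 1) := by
      rw [Real.rpow_add_one hs0.ne']
      ring
    rw [h2] at h1
    exact h1
  rw [Real.dist_eq]
  have t1 := abs_sub_le ((∑ m ∈ Finset.range M, x m ^ β) / M)
    ((∑ m ∈ Finset.range M, (max s1 (min (x m) 1)) ^ β) / M)
    (1 - β * ∫ s in (0 : ℝ)..1, s ^ (β - 1) * Φ s)
  have t2 := abs_sub_le ((∑ m ∈ Finset.range M, (max s1 (min (x m) 1)) ^ β) / M)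
    (1 - β * ∫ s in s1..1, s ^ (β - 1) * Φ s) (1 - β * ∫ s in (0 : ℝ)..1, s ^ (β - 1) * Φ s)
  linarith

end Pool.Agent.GL3
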