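import Pool.Agent.GL3.Law
import Pool.Agent.GL3.MomA
import Pool.Agent.Pow3.Final
import Pool.Agent.Results.MP_8e25e3_nt.FewSmallGaps

set_option autoImplicit false

/-!
# The moments of the gaps

`moment_lemma` for `x m = g_m / (3 (a m)^(2/3))`. The hypothesis on small gaps: trivial for `β >= 0`; for negative `β` the
bound FewSmallGaps for the number of small gaps and a layer cake over dyadic levels.
-/

namespace Pool.Agent.GL3

open Finset Filter Topology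

private theorem momb_dy {b s x : ℝ} (hb : 0 ≤ b) (hs : 0 < s) (hx : x ≤ s) : ∀ I : ℕ,
    s / 2 ^ (I + 1) ≤ x →
      x ^ (-b) ≤ ∑ i ∈ range (I + 1), (if x ≤ s / 2 ^ i then (s / 2 ^ (i + 1)) ^ (-b) else 0) := by
  intro I
  induction I with
  | zero =>
    intro h
    have h1 : s / 2 ^ (0 + 1) ≤ x := h
    rw [zero_add, Finset.sum_range_one, if_pos (by simpa using hx)]
    exact Real.rpow_le_rpow_of_nonpos (by positivity) h1 (by linarith)
  | succ I ih =>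
    intro h
    have hnn : 0 ≤ ∑ i ∈ range (I + 1), (if x ≤ s / 2 ^ i then (s / 2 ^ (i + 1)) ^ (-b) else 0) :=
      Finset.sum_nonneg fun i _ => by
        split_ifs
        · positivity
        · exact le_rfl
    rw [Finset.sum_range_succ]
    by_cases h2 : s / 2 ^ (I + 1) ≤ x
    · have h3 := ih h2
      have h4 : 0 ≤ (if x ≤ s / 2 ^ (I + 1) then (s / 2 ^ (I + 1 + 1)) ^ (-b) else 0) := by
        split_ifs
        · positivity
        · exact le_rfl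
      linarith
    · rw [if_pos (not_le.1 h2).le]
      have h5 : x ^ (-b) ≤ (s / 2 ^ (I + 1 + 1)) ^ (-b) :=
        Real.rpow_le_rpow_of_nonpos (by positivity) h (by linarith)
      linarith

private theorem momb_pow (p : ℝ) (i : ℕ) : ((2 : ℝ) ^ i) ^ p = ((2 : ℝ) ^ p) ^ i := by
  rw [← Real.rpow_natCast, ← Real.rpow_natCast, ← Real.rpow_mul (by norm_num),
    ← Real.rpow_mul (by norm_num), mul_comm]

/-- layer cake -/
private theorem momb_layer (x : ℕ → ℝ) {b s : ℝ} (hb : 0 ≤ b) (hs : 0 < s) (M I : ℕ)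
    (hlow : ∀ m, m < M → s / 2 ^ (I + 1) ≤ x m) :
    ∑ m ∈ (range M).filter (fun m => x m ≤ s), x m ^ (-b) ≤
      ∑ i ∈ range (I + 1), (s / 2 ^ (i + 1)) ^ (-b) *
        (((range M).filter (fun m => x m ≤ s / 2 ^ i)).card : ℝ) := by
  calc ∑ m ∈ (range M).filter (fun m => x m ≤ s), x m ^ (-b)
      ≤ ∑ m ∈ (range M).filter (fun m => x m ≤ s),
          ∑ i ∈ range (I + 1), (if x m ≤ s / 2 ^ i then (s / 2 ^ (i + 1)) ^ (-b) else 0) := by
        refine Finset.sum_le_sum fun m hm => ?_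
        rw [Finset.mem_filter, Finset.mem_range] at hm
        exact momb_dy hb hs hm.2 I (hlow m hm.1)
    _ ≤ ∑ m ∈ range M,
          ∑ i ∈ range (I + 1), (if x m ≤ s / 2 ^ i then (s / 2 ^ (i + 1)) ^ (-b) else 0) := by
        refine Finset.sum_le_sum_of_subset_of_nonneg (Finset.filter_subset _ _) fun m _ _ => ?_
        refine Finset.sum_nonneg fun i _ => ?_
        split_ifs
        · positivity
        · exact le_rfl
    _ = ∑ i ∈ range (I + 1), (s / 2 ^ (i + 1)) ^ (-b) *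
        (((range M).filter (fun m => x m ≤ s / 2 ^ i)).card : ℝ) := by
        rw [Finset.sum_comm]
        refine Finset.sum_congr rfl fun i _ => ?_
        rw [← Finset.sum_filter, Finset.sum_const, nsmul_eq_mul, mul_comm]

/-- the two geometric sums -/
private theorem momb_geo {b κ₅ κ s K M C : ℝ} (hs : 0 < s) (hK : 0 < K) (hM : 0 < M) (hC : 0 ≤ C)
    (h5 : b < κ₅) (hκ : κ < b) (I : ℕ) (hI : (2 : ℝ) ^ I ≤ K * M ^ 2) :
    ∑ i ∈ range (I + 1), (s / 2 ^ (i + 1)) ^ (-b) *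
        (C * (M * ((K * (s / 2 ^ i)) ^ κ₅ + (K * (s / 2 ^ i) / M) ^ κ))) ≤
      M * (C * 2 ^ b * K ^ κ₅ * (1 - (2 : ℝ) ^ (b - κ₅))⁻¹ * s ^ (κ₅ - b) +
        C * 2 ^ b * (s ^ (-b) * (K * s) ^ κ) * ((2 : ℝ) ^ (b - κ) / ((2 : ℝ) ^ (b - κ) - 1)) *
          K ^ (b - κ) * M ^ (-(3 * κ - 2 * b))) := by
  have h2 : (0 : ℝ) < 2 := by norm_num
  have hq5 : (2 : ℝ) ^ (b - κ₅) < 1 := Real.rpow_lt_one_of_one_lt_of_neg (by norm_num) (by linarith)
  have hq : 1 < (2 : ℝ) ^ (b - κ) := Real.one_lt_rpow (by norm_num) (by linarith)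
  have e1 : ∀ i : ℕ, (s / 2 ^ (i + 1)) ^ (-b) = s ^ (-b) * 2 ^ b * ((2 : ℝ) ^ b) ^ i := by
    intro i
    rw [Real.div_rpow hs.le (by positivity), Real.rpow_neg (by positivity : (0 : ℝ) ≤ 2 ^ (i + 1)),
      div_inv_eq_mul, momb_pow, pow_succ]
    ring
  have e2 : ∀ i : ℕ, (K * (s / 2 ^ i)) ^ κ₅ = (K * s) ^ κ₅ * (((2 : ℝ) ^ κ₅) ^ i)⁻¹ := by
    intro i
    rw [← mul_div_assoc, Real.div_rpow (by positivity) (by positivity), momb_pow, div_eq_mul_inv]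
  have e3 : ∀ i : ℕ, (K * (s / 2 ^ i) / M) ^ κ = (K * s) ^ κ * M ^ (-κ) * (((2 : ℝ) ^ κ) ^ i)⁻¹ := by
    intro i
    rw [Real.div_rpow (by positivity) hM.le, ← mul_div_assoc, Real.div_rpow (by positivity) (by positivity),
      momb_pow, Real.rpow_neg hM.le]
    ring
  have e4 : ∀ i : ℕ, ((2 : ℝ) ^ b) ^ i * (((2 : ℝ) ^ κ₅) ^ i)⁻¹ = ((2 : ℝ) ^ (b - κ₅)) ^ i := by
    intro i
    rw [Real.rpow_sub h2, div_pow, div_eq_mul_inv]
  have e5 : ∀ i : ℕ, ((2 : ℝ) ^ b) ^ i * (((2 : ℝ) ^ κ) ^ i)⁻¹ = ((2 : ℝ) ^ (b - κ)) ^ i := by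
    intro i
    rw [Real.rpow_sub h2, div_pow, div_eq_mul_inv]
  have e6 : ∀ i : ℕ, (s / 2 ^ (i + 1)) ^ (-b) *
        (C * (M * ((K * (s / 2 ^ i)) ^ κ₅ + (K * (s / 2 ^ i) / M) ^ κ))) =
      (C * M * 2 ^ b * (s ^ (-b) * (K * s) ^ κ₅)) * ((2 : ℝ) ^ (b - κ₅)) ^ i +
        (C * M * 2 ^ b * (s ^ (-b) * (K * s) ^ κ) * M ^ (-κ)) * ((2 : ℝ) ^ (b - κ)) ^ i := by
    intro i
    rw [e1, e2, e3, ← e4, ← e5]
    ring
  simp only [e6]
  rw [Finset.sum_add_distrib, ← Finset.mul_sum, ← Finset.mul_sum]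
  have g1 : ∑ i ∈ range (I + 1), ((2 : ℝ) ^ (b - κ₅)) ^ i ≤ (1 - (2 : ℝ) ^ (b - κ₅))⁻¹ := by
    rw [← tsum_geometric_of_lt_one (by positivity) hq5]
    exact (summable_geometric_of_lt_one (by positivity) hq5).sum_le_tsum _ fun _ _ => by positivity
  have g2 : ∑ i ∈ range (I + 1), ((2 : ℝ) ^ (b - κ)) ^ i ≤
      (2 : ℝ) ^ (b - κ) / ((2 : ℝ) ^ (b - κ) - 1) * (K ^ (b - κ) * M ^ (2 * (b - κ))) := by
    rw [geom_sum_eq hq.ne']
    have h3 : 0 < (2 : ℝ) ^ (b - κ) - 1 := by linarith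
    have h4 : ((2 : ℝ) ^ (b - κ)) ^ I ≤ K ^ (b - κ) * M ^ (2 * (b - κ)) := by
      rw [← momb_pow]
      have h6 : ((2 : ℝ) ^ I) ^ (b - κ) ≤ (K * M ^ 2) ^ (b - κ) :=
        Real.rpow_le_rpow (by positivity) hI (by linarith)
      refine h6.trans (le_of_eq ?_)
      rw [Real.mul_rpow hK.le (by positivity), ← Real.rpow_natCast M 2, ← Real.rpow_mul hM.le]
      norm_num
    rw [div_mul_eq_mul_div, div_le_div_iff_of_pos_right h3, pow_succ]
    have h5 : 0 ≤ (2 : ℝ) ^ (b - κ) := by positivity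
    nlinarith [mul_le_mul_of_nonneg_left h4 h5]
  have hm : M ^ (-κ) * M ^ (2 * (b - κ)) = M ^ (-(3 * κ - 2 * b)) := by
    rw [← Real.rpow_add hM]
    congr 1
    ring
  have hs2 : s ^ (-b) * (K * s) ^ κ₅ = K ^ κ₅ * s ^ (κ₅ - b) := by
    rw [Real.mul_rpow hK.le hs.le, sub_eq_add_neg, Real.rpow_add hs]
    ring
  have k1 := mul_le_mul_of_nonneg_left g1
    (by positivity : 0 ≤ C * M * 2 ^ b * (s ^ (-b) * (K * s) ^ κ₅))
  have k2 := mul_le_mul_of_nonneg_left g2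
    (by positivity : 0 ≤ C * M * 2 ^ b * (s ^ (-b) * (K * s) ^ κ) * M ^ (-κ))
  refine (add_le_add k1 k2).trans (le_of_eq ?_)
  rw [hs2, ← hm]
  ring

private theorem momb_small (x : ℕ → ℝ) {K b δ' C : ℝ} (hK : 1 ≤ K)
    (hb1 : 1 / 20 ≤ b) (hb2 : b < 1 / 14) (hδ' : δ' = (1 / 7 - 2 * b) / 6) (hC : 0 ≤ C)
    (hlow : ∀ M m : ℕ, m < M → 1 / (K * (M : ℝ) ^ 2) ≤ x m)
    (hcount : ∀ (M : ℕ) (s : ℝ), 1 ≤ M → 0 < s →
      (((range M).filter (fun m => x m ≤ s)).card : ℝ) ≤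
        C * (M * ((K * s) ^ (1 / 5 - δ') + (K * s / M) ^ (1 / 21 - δ')))) :
    ∀ δ : ℝ, 0 < δ → ∃ s1 : ℝ, 0 < s1 ∧ s1 < 1 ∧ ∃ M1 : ℕ, ∀ M : ℕ, M1 ≤ M →
      ∑ m ∈ (range M).filter (fun m => x m ≤ s1), x m ^ (-b) ≤ δ * M := by
  intro δ hδ
  have hK0 : 0 < K := by linarith
  obtain ⟨κ₅, hκ₅⟩ : ∃ κ₅, κ₅ = 1 / 5 - δ' := ⟨_, rfl⟩
  obtain ⟨κ, hκ⟩ : ∃ κ, κ = 1 / 21 - δ' := ⟨_, rfl⟩
  rw [← hκ₅, ← hκ] at hcount
  have h5 : b < κ₅ := by rw [hκ₅, hδ']; linarith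
  have hκb : κ < b := by rw [hκ, hδ']; linarith
  have hη : 0 < 3 * κ - 2 * b := by rw [hκ, hδ']; linarith
  obtain ⟨c1, hc1⟩ : ∃ c1, c1 = C * 2 ^ b * K ^ κ₅ * (1 - (2 : ℝ) ^ (b - κ₅))⁻¹ := ⟨_, rfl⟩
  have ht1 : Tendsto (fun s : ℝ => c1 * s ^ (κ₅ - b)) (𝓝[>] 0) (𝓝 0) := by
    have h1 : ContinuousAt (fun s : ℝ => c1 * s ^ (κ₅ - b)) 0 :=
      continuousAt_const.mul (Real.continuousAt_rpow_const _ _ (Or.inr (by linarith)))
    have h2 := h1.tendsto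
    rw [Real.zero_rpow (by linarith), mul_zero] at h2
    exact h2.mono_left nhdsWithin_le_nhds
  have he1 : ∀ᶠ s : ℝ in 𝓝[>] 0, c1 * s ^ (κ₅ - b) < δ / 2 :=
    ht1.eventually (gt_mem_nhds (by linarith))
  have he2 : ∀ᶠ s : ℝ in 𝓝[>] 0, s < 1 :=
    nhdsWithin_le_nhds (gt_mem_nhds (by norm_num))
  obtain ⟨s, ⟨hs1, hs2⟩, hs0⟩ := ((he1.and he2).and self_mem_nhdsWithin).exists
  have hs0 : 0 < s := hs0
  refine ⟨s, hs0, hs2, ?_⟩
  obtain ⟨c2, hc2⟩ : ∃ c2, c2 = C * 2 ^ b * (s ^ (-b) * (K * s) ^ κ) *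
    ((2 : ℝ) ^ (b - κ) / ((2 : ℝ) ^ (b - κ) - 1)) * K ^ (b - κ) := ⟨_, rfl⟩
  have ht2 : Tendsto (fun M : ℕ => c2 * (M : ℝ) ^ (-(3 * κ - 2 * b))) atTop (𝓝 0) := by
    have h1 := ((tendsto_rpow_neg_atTop hη).comp tendsto_natCast_atTop_atTop).const_mul c2
    rw [mul_zero] at h1
    exact h1
  obtain ⟨M1, hM1⟩ := eventually_atTop.1 (ht2.eventually (gt_mem_nhds (show (0 : ℝ) < δ / 2 by linarith)))
  refine ⟨max M1 1, fun M hM => ?_⟩
  have hM1' : 1 ≤ M := (le_max_right _ _).trans hM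
  have hMR : (1 : ℝ) ≤ M := by exact_mod_cast hM1'
  have hM0 : (0 : ℝ) < M := by linarith
  have hKM : 1 ≤ K * (M : ℝ) ^ 2 := by
    have : (1 : ℝ) ≤ (M : ℝ) ^ 2 := one_le_pow₀ hMR
    nlinarith
  obtain ⟨I, hI1, hI2⟩ := exists_nat_pow_near hKM (by norm_num : (1 : ℝ) < 2)
  have hl := momb_layer x (b := b) (s := s) (by linarith) hs0 M I (fun m hm => by
    refine le_trans ?_ (hlow M m hm)
    rw [div_le_div_iff₀ (by positivity) (by positivity)]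
    nlinarith)
  refine hl.trans ?_
  have hg := momb_geo hs0 hK0 hM0 hC h5 hκb I hI1
  rw [← hc1, ← hc2] at hg
  have hsum : ∑ i ∈ range (I + 1), (s / 2 ^ (i + 1)) ^ (-b) *
        (((range M).filter (fun m => x m ≤ s / 2 ^ i)).card : ℝ) ≤
      ∑ i ∈ range (I + 1), (s / 2 ^ (i + 1)) ^ (-b) *
        (C * (M * ((K * (s / 2 ^ i)) ^ κ₅ + (K * (s / 2 ^ i) / M) ^ κ))) := by
    refine Finset.sum_le_sum fun i _ => mul_le_mul_of_nonneg_left ?_ (by positivity)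
    exact hcount M _ hM1' (by positivity)
  refine hsum.trans (hg.trans ?_)
  have h7 := hM1 M ((le_max_left _ _).trans hM)
  have h8 : c1 * s ^ (κ₅ - b) + c2 * (M : ℝ) ^ (-(3 * κ - 2 * b)) ≤ δ := by linarith
  calc (M : ℝ) * (c1 * s ^ (κ₅ - b) + c2 * (M : ℝ) ^ (-(3 * κ - 2 * b))) ≤ M * δ :=
        mul_le_mul_of_nonneg_left h8 hM0.le
    _ = δ * M := mul_comm _ _

private theorem momb_cr_sq (n : ℕ) : (n : ℝ) ^ ((2 : ℝ) / 3) = cr n ^ 2 := by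
  unfold cr
  rw [← Real.rpow_natCast, ← Real.rpow_mul (Nat.cast_nonneg n)]
  norm_num

private theorem momb_apos {a : ℕ → ℕ} (hr : ∀ n : ℕ, (∃ k : ℕ, a k = n) ↔ P3 n) (m : ℕ) : 0 < a m :=
  ((hr (a m)).1 ⟨m, rfl⟩).1

private theorem momb_crpos {n : ℕ} (h : 0 < n) : 0 < cr n :=
  Real.rpow_pos_of_pos (by exact_mod_cast h) _

/-- the next 3-powerful number is at most the next cube -/
private theorem momb_next {a : ℕ → ℕ} (ha : StrictMono a) (hr : ∀ n : ℕ, (∃ k : ℕ, a k = n) ↔ P3 n) (m : ℕ) :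
    (a (m + 1) : ℝ) ≤ (cr (a m) + 1) ^ 3 := by
  have h0 := cr_nonneg (a m)
  have h1 : P3 ((⌊cr (a m)⌋₊ + 1) ^ 3) := by
    refine ⟨by positivity, fun p hp hd => ?_⟩
    exact pow_dvd_pow_of_dvd (hp.dvd_of_dvd_pow hd) 3
  obtain ⟨k, hk⟩ := (hr _).2 h1
  have h2 : a m < a k := by
    rw [hk]
    have h3 : cr (a m) < (⌊cr (a m)⌋₊ : ℝ) + 1 := Nat.lt_floor_add_one _
    have h4 : (a m : ℝ) < ((⌊cr (a m)⌋₊ : ℝ) + 1) ^ 3 := by
      rw [← cr_cube (a m)]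
      exact pow_lt_pow_left₀ h3 h0 (by norm_num)
    exact_mod_cast h4
  have h3 : m + 1 ≤ k := ha.lt_iff_lt.1 h2
  have h4 : a (m + 1) ≤ a k := ha.monotone h3
  rw [hk] at h4
  have h5 : (⌊cr (a m)⌋₊ : ℝ) ≤ cr (a m) := Nat.floor_le h0
  calc (a (m + 1) : ℝ) ≤ (((⌊cr (a m)⌋₊ + 1) ^ 3 : ℕ) : ℝ) := by exact_mod_cast h4
    _ = ((⌊cr (a m)⌋₊ : ℝ) + 1) ^ 3 := by push_cast; ring
    _ ≤ (cr (a m) + 1) ^ 3 := pow_le_pow_left₀ (by positivity) (by linarith) 3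

private theorem momb_gam : 0 < γ := by
  have := one_le_gamma
  linarith

theorem moments {a : ℕ → ℕ} (ha : StrictMono a) (hr : ∀ n : ℕ, (∃ k : ℕ, a k = n) ↔ P3 n) {β : ℝ}
    (hβ : -(1 / 14) < β) :
    Tendsto (fun M : ℕ => (∑ m ∈ Finset.range M,
      (((a (m + 1) : ℝ) - a m) / (3 * (a m : ℝ) ^ ((2 : ℝ) / 3))) ^ β) / M) atTop
      (𝓝 (1 - β * ∫ s in (0 : ℝ)..1, s ^ (β - 1) * Φ s)) := by
  have hcr : ∀ m, 0 < cr (a m) := fun m => momb_crpos (momb_apos hr m)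
  have hden : ∀ m, 0 < 3 * (a m : ℝ) ^ ((2 : ℝ) / 3) := fun m => by
    rw [momb_cr_sq]
    have := hcr m
    positivity
  have hgap : ∀ m, (1 : ℝ) ≤ (a (m + 1) : ℝ) - a m := fun m => by
    have h1 : a m + 1 ≤ a (m + 1) := ha (Nat.lt_succ_self m)
    have h2 : (a m : ℝ) + 1 ≤ a (m + 1) := by exact_mod_cast h1
    linarith
  have hx : ∀ m, 0 < ((a (m + 1) : ℝ) - a m) / (3 * (a m : ℝ) ^ ((2 : ℝ) / 3)) := fun m =>
    div_pos (by linarith [hgap m]) (hden m)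
  have hlaw : ∀ s : ℝ, 0 ≤ s → s < 1 → Tendsto (fun M : ℕ => (((Finset.range M).filter
      (fun m => ((a (m + 1) : ℝ) - a m) / (3 * (a m : ℝ) ^ ((2 : ℝ) / 3)) ≤ s)).card : ℝ) / M) atTop
      (𝓝 (Φ s)) := by
    intro s h0 h1
    refine (law ha hr h0 h1).congr fun M => ?_
    congr 3
    refine Finset.filter_congr fun m _ => ?_
    rw [div_le_iff₀ (hden m), ← mul_assoc, mul_comm s 3]
  refine moment_lemma _ Φ γ β (by linarith) hx ?_ hlaw (fun s s' h0 h1 h2 => Phi_mono h0 h1 h2)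
    (fun s h0 h1 => ?_) ?_
  · intro e he
    obtain ⟨m1, hm1⟩ := exists_nat_gt ((2 / e) ^ 3)
    refine ⟨m1, fun m hm => ?_⟩
    have h1 : (m1 : ℝ) ≤ a m := by
      have h2 : m ≤ a m := ha.id_le m
      exact_mod_cast hm.trans h2
    have h2 : 2 / e < cr (a m) := by
      by_contra hlt
      have h3 : cr (a m) ^ 3 ≤ (2 / e) ^ 3 := pow_le_pow_left₀ (cr_nonneg _) (not_lt.1 hlt) 3
      rw [cr_cube] at h3
      linarith
    have h3 : 1 ≤ cr (a m) := by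
      have h4 : (1 : ℝ) ≤ a m := by exact_mod_cast momb_apos hr m
      by_contra hlt
      have h5 : cr (a m) ^ 3 < 1 := pow_lt_one₀ (cr_nonneg _) (not_le.1 hlt) (by norm_num)
      rw [cr_cube] at h5
      linarith
    rw [div_le_iff₀ (hden m), momb_cr_sq]
    have h4 := momb_next ha hr m
    have h5 := cr_cube (a m)
    have h6 : 2 ≤ e * cr (a m) := by
      rw [div_lt_iff₀ he] at h2
      linarith
    nlinarith [h4, h5, h6, mul_nonneg (cr_nonneg (a m)) (sub_nonneg.2 h6)]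
  · have h2 := Phi_lip (le_refl (0 : ℝ)) h0 h1
    rw [Phi_zero] at h2
    linarith
  · rcases le_or_gt 0 β with hβ0 | hβ0
    · intro δ hδ
      have hg := momb_gam
      refine ⟨min (1 / 2) (δ / (2 * γ)), by positivity, (min_le_left _ _).trans_lt (by norm_num), ?_⟩
      have hs0 : 0 ≤ min (1 / 2) (δ / (2 * γ)) := by positivity
      have hs1 : min (1 / 2) (δ / (2 * γ)) < 1 := (min_le_left _ _).trans_lt (by norm_num)
      have h2 := Phi_lip (le_refl (0 : ℝ)) hs0 hs1.le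
      rw [Phi_zero] at h2
      have h3 : γ * min (1 / 2) (δ / (2 * γ)) ≤ δ / 2 := by
        calc γ * min (1 / 2) (δ / (2 * γ)) ≤ γ * (δ / (2 * γ)) :=
              mul_le_mul_of_nonneg_left (min_le_right _ _) hg.le
          _ = δ / 2 := by field_simp
      have h4 : Φ (min (1 / 2) (δ / (2 * γ))) < δ := by linarith
      obtain ⟨M1, hM1⟩ := eventually_atTop.1 ((hlaw _ hs0 hs1).eventually (gt_mem_nhds h4))
      refine ⟨max M1 1, fun M hM => ?_⟩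
      have hM0 : (0 : ℝ) < M := by exact_mod_cast (le_max_right M1 1).trans hM
      have h5 := hM1 M ((le_max_left _ _).trans hM)
      rw [div_lt_iff₀ hM0] at h5
      refine le_trans ?_ h5.le
      rw [← nsmul_one, ← Finset.sum_const]
      refine Finset.sum_le_sum fun m hm => ?_
      rw [Finset.mem_filter] at hm
      exact Real.rpow_le_one (hx m).le (hm.2.trans hs1.le) hβ0
    · obtain ⟨b, hb⟩ : ∃ b, b = max (-β) (1 / 20) := ⟨_, rfl⟩
      have hb1 : 1 / 20 ≤ b := hb ▸ le_max_right _ _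
      have hb2 : b < 1 / 14 := by rw [hb]; exact max_lt (by linarith) (by norm_num)
      have hbβ : -b ≤ β := by
        have : -β ≤ b := hb ▸ le_max_left _ _
        linarith
      obtain ⟨δ', hδ'⟩ : ∃ δ', δ' = (1 / 7 - 2 * b) / 6 := ⟨_, rfl⟩
      obtain ⟨C, hC0, hC⟩ := Pool.Agent.Results.MP_8e25e3_nt.FewSmallGaps.result δ' (by linarith) (by linarith)
      obtain ⟨D, hD⟩ := (a_asymp ha hr).bddAbove_range
      have hD' : ∀ m : ℕ, cr (a m) ≤ D * ((m : ℝ) + 1) := by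
        intro m
        have h1 : cr (a m) / ((m : ℝ) + 1) ≤ D := hD ⟨m, rfl⟩
        rwa [div_le_iff₀ (by positivity)] at h1
      obtain ⟨K, hK⟩ : ∃ K, K = 3 * D ^ 2 + 1 := ⟨_, rfl⟩
      have hK1 : 1 ≤ K := by rw [hK]; nlinarith [sq_nonneg D]
      have hK0 : 0 < K := by linarith
      have hup : ∀ M m : ℕ, m < M → 3 * (a m : ℝ) ^ ((2 : ℝ) / 3) ≤ K * (M : ℝ) ^ 2 := by
        intro M m hm
        rw [momb_cr_sq]
        have h1 : ((m : ℝ) + 1) ≤ M := by exact_mod_cast hm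
        have h2 : cr (a m) ^ 2 ≤ (D * ((m : ℝ) + 1)) ^ 2 := pow_le_pow_left₀ (cr_nonneg _) (hD' m) 2
        have h3 : ((m : ℝ) + 1) ^ 2 ≤ (M : ℝ) ^ 2 := pow_le_pow_left₀ (by positivity) h1 2
        have h4 : D ^ 2 * ((m : ℝ) + 1) ^ 2 ≤ D ^ 2 * (M : ℝ) ^ 2 := mul_le_mul_of_nonneg_left h3 (sq_nonneg _)
        have h5 : 0 ≤ (M : ℝ) ^ 2 := sq_nonneg _
        rw [hK]
        nlinarith
      have hlow : ∀ M m : ℕ, m < M → 1 / (K * (M : ℝ) ^ 2) ≤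
          ((a (m + 1) : ℝ) - a m) / (3 * (a m : ℝ) ^ ((2 : ℝ) / 3)) := by
        intro M m hm
        exact div_le_div₀ (by linarith [hgap m]) (hgap m) (hden m) (hup M m hm)
      have hcount : ∀ (M : ℕ) (s : ℝ), 1 ≤ M → 0 < s →
          (((range M).filter (fun m => ((a (m + 1) : ℝ) - a m) / (3 * (a m : ℝ) ^ ((2 : ℝ) / 3)) ≤ s)).card : ℝ) ≤
            C * (M * ((K * s) ^ (1 / 5 - δ') + (K * s / M) ^ (1 / 21 - δ'))) := by
        intro M s hM hs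
        have hM0 : (0 : ℝ) < M := by exact_mod_cast hM
        have h1 := hC a ha hr M (K * s * (M : ℝ) ^ 2) hM (by positivity)
        have e1 : K * s * (M : ℝ) ^ 2 / (M : ℝ) ^ 2 = K * s := by field_simp
        have e2 : K * s * (M : ℝ) ^ 2 / (M : ℝ) ^ 3 = K * s / M := by field_simp
        rw [e1, e2] at h1
        refine le_trans ?_ h1
        have h2 : (range M).filter (fun m => ((a (m + 1) : ℝ) - a m) / (3 * (a m : ℝ) ^ ((2 : ℝ) / 3)) ≤ s) ⊆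
            (range M).filter (fun m => (a (m + 1) : ℝ) - (a m : ℝ) ≤ K * s * (M : ℝ) ^ 2) := by
          intro m hm
          rw [Finset.mem_filter] at hm ⊢
          refine ⟨hm.1, ?_⟩
          have h3 := hm.2
          rw [div_le_iff₀ (hden m)] at h3
          refine h3.trans ?_
          have h4 := mul_le_mul_of_nonneg_left (hup M m (Finset.mem_range.1 hm.1)) hs.le
          linarith
        exact_mod_cast Finset.card_le_card h2
      have hmain := momb_small (fun m => ((a (m + 1) : ℝ) - a m) / (3 * (a m : ℝ) ^ ((2 : ℝ) / 3)))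
        hK1 hb1 hb2 hδ' hC0.le hlow hcount
      intro δ hδ
      obtain ⟨s1, h1, h2, M1, hM1⟩ := hmain δ hδ
      refine ⟨s1, h1, h2, M1, fun M hM => le_trans ?_ (hM1 M hM)⟩
      refine Finset.sum_le_sum fun m hm => ?_
      rw [Finset.mem_filter] at hm
      exact Real.rpow_le_rpow_of_exponent_ge (hx m) (hm.2.trans h2.le) hbβ

end Pool.Agent.GL3
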