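import Pool.Agent.GL3.Liou
import Pool.Agent.GL3.Count

set_option autoImplicit false

/-!
# Asymptotics for the near coincidences of two fixed classes

`θ = τ w / τ w'`; `j` is counted iff `(j θ, j θ + s α w']` contains an integer. A good rational approximation `p/q` of `θ` with
`q <= √T` (Dirichlet) has `q >= c T^(1/4)` (Liouville), and in every block of `q` consecutive `j` the number of the counted `j` is
`q s α w' + O(1)` (`ps_block`, by Hermite's identity).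
-/

namespace Pool.Agent.GL3

open Finset Filter Topology

/-- Hermite: the sum of the quotients of `q` consecutive integers. -/
private theorem ps_div (q : ℕ) (hq : 0 < q) (N : ℤ) : ∑ k ∈ range q, ((N + (k : ℤ)) / (q : ℤ)) = N := by
  have hq0 : (q : ℤ) ≠ 0 := by exact_mod_cast hq.ne'
  have step : ∀ N : ℤ, ∑ k ∈ range q, ((N + 1 + (k : ℤ)) / (q : ℤ)) =
      ∑ k ∈ range q, ((N + (k : ℤ)) / (q : ℤ)) + 1 := by
    intro N
    have h1 := Finset.sum_range_succ (fun k : ℕ => (N + (k : ℤ)) / (q : ℤ)) q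
    have h2 := Finset.sum_range_succ' (fun k : ℕ => (N + (k : ℤ)) / (q : ℤ)) q
    rw [h1] at h2
    have h3 : (N + (q : ℤ)) / (q : ℤ) = N / q + 1 := by
      rw [Int.add_ediv_of_dvd_right (dvd_refl _), Int.ediv_self hq0]
    have h4 : ∀ k : ℕ, (N + ((k + 1 : ℕ) : ℤ)) / (q : ℤ) = (N + 1 + (k : ℤ)) / (q : ℤ) := by
      intro k; congr 1; push_cast; ring
    simp only [h4, Nat.cast_zero, add_zero] at h2
    rw [h3] at h2
    linarith
  have h0 : ∑ k ∈ range q, (((0 : ℤ) + (k : ℤ)) / (q : ℤ)) = 0 := by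
    refine Finset.sum_eq_zero fun k hk => ?_
    rw [zero_add]
    exact Int.ediv_eq_zero_of_lt (by positivity) (by exact_mod_cast Finset.mem_range.1 hk)
  induction N using Int.induction_on with
  | zero => exact h0
  | succ i ih => rw [step, ih]
  | pred i ih =>
    have := step (-(i : ℤ) - 1)
    rw [sub_add_cancel, ih] at this
    linarith

private theorem ps_perm {q : ℕ} (hq : 0 < q) {p : ℤ} (hc : IsCoprime p (q : ℤ)) (N : ℤ) :
    ∑ r ∈ range q, ((N + (r : ℤ) * p) / (q : ℤ)) = N + ∑ r ∈ range q, (((r : ℤ) * p) / (q : ℤ)) := by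
  have hq0 : (q : ℤ) ≠ 0 := by exact_mod_cast hq.ne'
  have hqp : (0 : ℤ) < q := by exact_mod_cast hq
  set f : ℕ → ℕ := fun r => (((r : ℤ) * p) % (q : ℤ)).toNat with hf
  have hfc : ∀ r : ℕ, ((f r : ℕ) : ℤ) = ((r : ℤ) * p) % (q : ℤ) := fun r =>
    Int.toNat_of_nonneg (Int.emod_nonneg _ hq0)
  have hfm : ∀ r ∈ range q, f r ∈ range q := by
    intro r _
    rw [Finset.mem_range]
    have h1 : ((f r : ℕ) : ℤ) < q := by rw [hfc]; exact Int.emod_lt_of_pos _ hqp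
    exact_mod_cast h1
  have hinj : Set.InjOn f (range q : Set ℕ) := by
    intro r hr r' hr' he
    have hr := Finset.mem_range.1 (Finset.mem_coe.1 hr)
    have hr' := Finset.mem_range.1 (Finset.mem_coe.1 hr')
    have h1 : ((r : ℤ) * p) % (q : ℤ) = ((r' : ℤ) * p) % (q : ℤ) := by
      rw [← hfc, ← hfc, he]
    have h2 : (q : ℤ) ∣ (r : ℤ) * p - (r' : ℤ) * p := (show (r' : ℤ) * p ≡ (r : ℤ) * p [ZMOD q] from h1.symm).dvd
    have h3 : (q : ℤ) ∣ (r : ℤ) - (r' : ℤ) := by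
      rw [← sub_mul] at h2
      exact hc.symm.dvd_of_dvd_mul_right h2
    have h4 : |(r : ℤ) - (r' : ℤ)| < q := by
      rw [abs_lt]; constructor <;> omega
    have h5 := Int.eq_zero_of_abs_lt_dvd h3 h4
    omega
  have himg : (range q).image f = range q :=
    Finset.eq_of_subset_of_card_le (fun x hx => by
      obtain ⟨r, hr, rfl⟩ := Finset.mem_image.1 hx
      exact hfm r hr) (by rw [Finset.card_image_of_injOn hinj])
  have h1 : ∑ r ∈ range q, ((N + ((f r : ℕ) : ℤ)) / (q : ℤ)) = N := by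
    rw [← Finset.sum_image (f := fun k : ℕ => (N + (k : ℤ)) / (q : ℤ)) hinj, himg]
    exact ps_div q hq N
  have h2 : ∀ r ∈ range q, (N + (r : ℤ) * p) / (q : ℤ) = (N + ((f r : ℕ) : ℤ)) / (q : ℤ) +
      ((r : ℤ) * p) / (q : ℤ) := by
    intro r _
    have e : N + (r : ℤ) * p = N + ((f r : ℕ) : ℤ) + (q : ℤ) * (((r : ℤ) * p) / (q : ℤ)) := by
      rw [hfc]
      have := Int.emod_add_mul_ediv ((r : ℤ) * p) q
      linarith
    conv_lhs => rw [e]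
    rw [Int.add_mul_ediv_left _ _ hq0]
  rw [Finset.sum_congr rfl h2, Finset.sum_add_distrib, h1]

private theorem ps_floor {q : ℕ} (hq : 0 < q) {p : ℤ} (hc : IsCoprime p (q : ℤ)) (y : ℝ) :
    ∑ r ∈ range q, ⌊y + (r : ℝ) * ((p : ℝ) / q)⌋ = ⌊(q : ℝ) * y⌋ + ∑ r ∈ range q, (((r : ℤ) * p) / (q : ℤ)) := by
  have hqr : (q : ℝ) ≠ 0 := by exact_mod_cast hq.ne'
  rw [← ps_perm hq hc]
  refine Finset.sum_congr rfl fun r _ => ?_
  have e : y + (r : ℝ) * ((p : ℝ) / q) = ((q : ℝ) * y + (((r : ℤ) * p : ℤ) : ℝ)) / (q : ℝ) := by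
    push_cast
    field_simp
  rw [e, Int.floor_div_natCast, Int.floor_add_intCast]

/-- one block. -/
private theorem ps_block {θ : ℝ} {q : ℕ} (hq : 0 < q) {p : ℤ} (hc : IsCoprime p (q : ℤ))
    (h : |(q : ℝ) * θ - p| ≤ 1 / q) (y δ : ℝ) :
    |((∑ r ∈ range q, (⌊y + (r : ℝ) * θ + δ⌋ - ⌊y + (r : ℝ) * θ⌋) : ℤ) : ℝ) - q * δ| ≤ 3 := by
  have hqr : (0 : ℝ) < q := by exact_mod_cast hq
  have happ : ∀ r ∈ range q, |(r : ℝ) * θ - (r : ℝ) * ((p : ℝ) / q)| ≤ 1 / q := by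
    intro r hr
    have hr := Finset.mem_range.1 hr
    have e : (r : ℝ) * θ - (r : ℝ) * ((p : ℝ) / q) = ((r : ℝ) / q) * ((q : ℝ) * θ - p) := by
      field_simp
    rw [e, abs_mul, abs_of_nonneg (by positivity)]
    have h1 : (r : ℝ) / q ≤ 1 := by
      rw [div_le_one hqr]; exact_mod_cast hr.le
    calc (r : ℝ) / q * |(q : ℝ) * θ - p| ≤ 1 * (1 / q) :=
          mul_le_mul h1 h (abs_nonneg _) zero_le_one
      _ = 1 / q := one_mul _
  set c : ℤ := ∑ r ∈ range q, (((r : ℤ) * p) / (q : ℤ)) with hcdef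
  have hup : ∀ z : ℝ, ∑ r ∈ range q, ⌊z + (r : ℝ) * θ⌋ ≤ ⌊(q : ℝ) * z⌋ + 1 + c := by
    intro z
    have h1 : ∑ r ∈ range q, ⌊z + (r : ℝ) * θ⌋ ≤ ∑ r ∈ range q, ⌊(z + 1 / q) + (r : ℝ) * ((p : ℝ) / q)⌋ := by
      refine Finset.sum_le_sum fun r hr => Int.floor_le_floor ?_
      have := (abs_le.1 (happ r hr)).2
      linarith
    rw [ps_floor hq hc] at h1
    have e : (q : ℝ) * (z + 1 / q) = (q : ℝ) * z + 1 := by field_simp
    rw [e, Int.floor_add_one] at h1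
    exact h1
  have hlo : ∀ z : ℝ, ⌊(q : ℝ) * z⌋ - 1 + c ≤ ∑ r ∈ range q, ⌊z + (r : ℝ) * θ⌋ := by
    intro z
    have h1 : ∑ r ∈ range q, ⌊(z - 1 / q) + (r : ℝ) * ((p : ℝ) / q)⌋ ≤ ∑ r ∈ range q, ⌊z + (r : ℝ) * θ⌋ := by
      refine Finset.sum_le_sum fun r hr => Int.floor_le_floor ?_
      have := (abs_le.1 (happ r hr)).1
      linarith
    rw [ps_floor hq hc] at h1
    have e : (q : ℝ) * (z - 1 / q) = (q : ℝ) * z - 1 := by field_simp
    rw [e, Int.floor_sub_one] at h1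
    exact h1
  have hsum : ∑ r ∈ range q, (⌊y + (r : ℝ) * θ + δ⌋ - ⌊y + (r : ℝ) * θ⌋) =
      ∑ r ∈ range q, ⌊(y + δ) + (r : ℝ) * θ⌋ - ∑ r ∈ range q, ⌊y + (r : ℝ) * θ⌋ := by
    rw [← Finset.sum_sub_distrib]
    refine Finset.sum_congr rfl fun r _ => ?_
    congr 2
    ring
  rw [hsum]
  have u1 := hup (y + δ)
  have u2 := hup y
  have l1 := hlo (y + δ)
  have l2 := hlo y
  set S1 := ∑ r ∈ range q, ⌊(y + δ) + (r : ℝ) * θ⌋
  set S2 := ∑ r ∈ range q, ⌊y + (r : ℝ) * θ⌋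
  have a1 : S1 - S2 ≤ ⌊(q : ℝ) * (y + δ)⌋ - ⌊(q : ℝ) * y⌋ + 2 := by linarith
  have a2 : ⌊(q : ℝ) * (y + δ)⌋ - ⌊(q : ℝ) * y⌋ - 2 ≤ S1 - S2 := by linarith
  have a1' : ((S1 - S2 : ℤ) : ℝ) ≤ (⌊(q : ℝ) * (y + δ)⌋ : ℝ) - ⌊(q : ℝ) * y⌋ + 2 := by exact_mod_cast a1
  have a2' : (⌊(q : ℝ) * (y + δ)⌋ : ℝ) - ⌊(q : ℝ) * y⌋ - 2 ≤ ((S1 - S2 : ℤ) : ℝ) := by exact_mod_cast a2
  have f1 := Int.floor_le ((q : ℝ) * (y + δ))
  have f2 := Int.lt_floor_add_one ((q : ℝ) * (y + δ))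
  have f3 := Int.floor_le ((q : ℝ) * y)
  have f4 := Int.lt_floor_add_one ((q : ℝ) * y)
  have e1 : (q : ℝ) * (y + δ) = (q : ℝ) * y + q * δ := by ring
  rw [abs_le]
  constructor <;> linarith

/-- many blocks. -/
private theorem ps_blocks {θ : ℝ} {q : ℕ} (hq : 0 < q) {p : ℤ} (hc : IsCoprime p (q : ℤ))
    (h : |(q : ℝ) * θ - p| ≤ 1 / q) (δ : ℝ) (m : ℕ) :
    |((∑ j ∈ range (q * m), (⌊((j + 1 : ℕ) : ℝ) * θ + δ⌋ - ⌊((j + 1 : ℕ) : ℝ) * θ⌋) : ℤ) : ℝ) - (q * m : ℕ) * δ| ≤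
      3 * m := by
  induction m with
  | zero => simp
  | succ m ih =>
    rw [Nat.mul_succ, Finset.sum_range_add]
    have hb := ps_block hq hc h (((q * m + 1 : ℕ) : ℝ) * θ) δ
    have e : ∑ r ∈ range q, (⌊(((q * m + r) + 1 : ℕ) : ℝ) * θ + δ⌋ - ⌊(((q * m + r) + 1 : ℕ) : ℝ) * θ⌋) =
        ∑ r ∈ range q, (⌊((q * m + 1 : ℕ) : ℝ) * θ + (r : ℝ) * θ + δ⌋ - ⌊((q * m + 1 : ℕ) : ℝ) * θ + (r : ℝ) * θ⌋) := by
      refine Finset.sum_congr rfl fun r _ => ?_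
      have e1 : (((q * m + r) + 1 : ℕ) : ℝ) * θ = ((q * m + 1 : ℕ) : ℝ) * θ + (r : ℝ) * θ := by push_cast; ring
      rw [e1]
    rw [e]
    set A := ∑ j ∈ range (q * m), (⌊((j + 1 : ℕ) : ℝ) * θ + δ⌋ - ⌊((j + 1 : ℕ) : ℝ) * θ⌋)
    set B := ∑ r ∈ range q, (⌊((q * m + 1 : ℕ) : ℝ) * θ + (r : ℝ) * θ + δ⌋ - ⌊((q * m + 1 : ℕ) : ℝ) * θ + (r : ℝ) * θ⌋)
    have e2 : ((A + B : ℤ) : ℝ) - (q * m + q : ℕ) * δ = ((A : ℤ) : ℝ) - (q * m : ℕ) * δ + (((B : ℤ) : ℝ) - q * δ) := by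
      push_cast; ring
    rw [e2]
    refine le_trans (abs_add_le _ _) ?_
    push_cast
    push_cast at ih
    linarith

/-- the number of the `j <= J` with an integer in `(j θ, j θ + δ]`. -/
private theorem ps_total {θ : ℝ} {q : ℕ} (hq : 0 < q) {p : ℤ} (hc : IsCoprime p (q : ℤ))
    (h : |(q : ℝ) * θ - p| ≤ 1 / q) {δ : ℝ} (h0 : 0 ≤ δ) (h1 : δ ≤ 1) (J : ℕ) :
    |((∑ j ∈ range J, (⌊((j + 1 : ℕ) : ℝ) * θ + δ⌋ - ⌊((j + 1 : ℕ) : ℝ) * θ⌋) : ℤ) : ℝ) - J * δ| ≤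
      3 * (J / q) + q := by
  have hqr : (0 : ℝ) < q := by exact_mod_cast hq
  obtain ⟨m, r, hr, hJ⟩ : ∃ m r : ℕ, r < q ∧ J = q * m + r := ⟨J / q, J % q, Nat.mod_lt _ hq, (Nat.div_add_mod J q).symm⟩
  rw [hJ, Finset.sum_range_add]
  have hb := ps_blocks hq hc h δ m
  have hg : ∀ a : ℝ, 0 ≤ ⌊a + δ⌋ - ⌊a⌋ ∧ ⌊a + δ⌋ - ⌊a⌋ ≤ 1 := by
    intro a
    have b1 : ⌊a⌋ ≤ ⌊a + δ⌋ := Int.floor_le_floor (by linarith)
    have b2 : ⌊a + δ⌋ ≤ ⌊a + 1⌋ := Int.floor_le_floor (by linarith)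
    rw [Int.floor_add_one] at b2
    constructor <;> linarith
  set A := ∑ j ∈ range (q * m), (⌊((j + 1 : ℕ) : ℝ) * θ + δ⌋ - ⌊((j + 1 : ℕ) : ℝ) * θ⌋)
  set B := ∑ x ∈ range r, (⌊((q * m + x + 1 : ℕ) : ℝ) * θ + δ⌋ - ⌊((q * m + x + 1 : ℕ) : ℝ) * θ⌋) with hB
  have hB0 : 0 ≤ B := Finset.sum_nonneg fun x _ => (hg _).1
  have hB1 : B ≤ r := by
    calc B ≤ ∑ x ∈ range r, (1 : ℤ) := Finset.sum_le_sum fun x _ => (hg _).2
      _ = r := by simp
  have hB0' : (0 : ℝ) ≤ (B : ℝ) := by exact_mod_cast hB0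
  have hB1' : (B : ℝ) ≤ r := by exact_mod_cast hB1
  have hm : (m : ℝ) ≤ ((q * m + r : ℕ) : ℝ) / q := by
    rw [le_div_iff₀ hqr]
    push_cast
    have : (0 : ℝ) ≤ r := by positivity
    nlinarith
  have hrq : (r : ℝ) ≤ q := by exact_mod_cast hr.le
  have hrd0 : 0 ≤ (r : ℝ) * δ := by positivity
  have hrd1 : (r : ℝ) * δ ≤ r := mul_le_of_le_one_right (by positivity) h1
  have e2 : ((A + B : ℤ) : ℝ) - (q * m + r : ℕ) * δ = ((A : ℤ) : ℝ) - (q * m : ℕ) * δ + (((B : ℤ) : ℝ) - r * δ) := by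
    push_cast; ring
  rw [e2]
  refine le_trans (abs_add_le _ _) ?_
  have h5 : |((B : ℤ) : ℝ) - r * δ| ≤ r := by
    rw [abs_le]; constructor <;> linarith
  linarith

private theorem ps_range (f : ℕ → ℤ) (J : ℕ) : ∑ j ∈ Finset.Icc 1 J, f j = ∑ j ∈ range J, f (j + 1) := by
  induction J with
  | zero => simp
  | succ J ih => rw [Finset.sum_Icc_succ_top (by omega), ih, Finset.sum_range_succ]

open Classical in
private theorem ps_card {w w' : ℕ} (hw : CF w) (hw' : CF w') {T s : ℝ} (hs0 : 0 ≤ s) (hs1 : s ≤ 1) :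
    (((NP w w' s T).card : ℤ)) = ∑ j ∈ range ⌊T * α w⌋₊,
      (⌊((j + 1 : ℕ) : ℝ) * (τ w / τ w') + s * α w'⌋ - ⌊((j + 1 : ℕ) : ℝ) * (τ w / τ w')⌋) := by
  have ht' := tau_pos hw'
  have ht := tau_pos hw
  have hα := alpha_of_CF hw'
  have hα0 := alpha_nonneg w'
  have hα1 := alpha_le_one w'
  rw [← ps_range (fun j : ℕ => ⌊(j : ℝ) * (τ w / τ w') + s * α w'⌋ - ⌊(j : ℝ) * (τ w / τ w')⌋)]
  unfold NP
  rw [Finset.card_filter]
  push_cast
  refine Finset.sum_congr rfl fun j _ => ?_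
  have hδ0 : 0 ≤ s * α w' := mul_nonneg hs0 hα0
  have hδ1 : s * α w' ≤ 1 := by nlinarith
  have b1 : ⌊(j : ℝ) * (τ w / τ w')⌋ ≤ ⌊(j : ℝ) * (τ w / τ w') + s * α w'⌋ := Int.floor_le_floor (by linarith)
  have b2 : ⌊(j : ℝ) * (τ w / τ w') + s * α w'⌋ ≤ ⌊(j : ℝ) * (τ w / τ w')⌋ + 1 := by
    rw [← Int.floor_add_one]
    exact Int.floor_le_floor (by linarith)
  have hiff : (∃ i : ℕ, (j : ℝ) * τ w < i * τ w' ∧ i * τ w' ≤ j * τ w + s) ↔
      ⌊(j : ℝ) * (τ w / τ w')⌋ < ⌊(j : ℝ) * (τ w / τ w') + s * α w'⌋ := by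
    have e1 : (j : ℝ) * (τ w / τ w') = (j * τ w) / τ w' := by ring
    have e2 : (j : ℝ) * (τ w / τ w') + s * α w' = (j * τ w + s) / τ w' := by rw [hα]; ring
    constructor
    · rintro ⟨i, h1, h2⟩
      have c1 : (i : ℤ) ≤ ⌊(j : ℝ) * (τ w / τ w') + s * α w'⌋ := by
        rw [Int.le_floor, e2]
        push_cast
        rw [le_div_iff₀ ht']
        exact h2
      have c2 : ⌊(j : ℝ) * (τ w / τ w')⌋ < (i : ℤ) := by
        rw [Int.floor_lt, e1]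
        push_cast
        rw [div_lt_iff₀ ht']
        exact h1
      exact lt_of_lt_of_le c2 c1
    · intro h
      have hn : 0 ≤ ⌊(j : ℝ) * (τ w / τ w') + s * α w'⌋ := by
        rw [Int.floor_nonneg]
        positivity
      obtain ⟨i, hi⟩ := Int.eq_ofNat_of_zero_le hn
      refine ⟨i, ?_, ?_⟩
      · rw [hi, Int.floor_lt, e1] at h
        push_cast at h
        rw [div_lt_iff₀ ht'] at h
        exact h
      · have c1 : (i : ℤ) ≤ ⌊(j : ℝ) * (τ w / τ w') + s * α w'⌋ := le_of_eq hi.symm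
        rw [Int.le_floor, e2] at c1
        push_cast at c1
        rw [le_div_iff₀ ht'] at c1
        exact c1
  by_cases h : ∃ i : ℕ, (j : ℝ) * τ w < i * τ w' ∧ i * τ w' ≤ j * τ w + s
  · rw [if_pos h]
    have := hiff.1 h
    omega
  · rw [if_neg h]
    have : ¬ ⌊(j : ℝ) * (τ w / τ w')⌋ < ⌊(j : ℝ) * (τ w / τ w') + s * α w'⌋ := fun h' => h (hiff.2 h')
    omega

/-- the denominator of a good approximation. -/
private theorem ps_dio {w w' : ℕ} (hw : CF w) (hw' : CF w') (hne : w ≠ w') {N : ℕ} (hN : 0 < N)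
    (hθ : 1 < ((N : ℝ) + 1) * (τ w / τ w')) :
    ∃ (q : ℕ) (p : ℤ), 0 < q ∧ q ≤ N ∧ IsCoprime p (q : ℤ) ∧ |(q : ℝ) * (τ w / τ w') - p| ≤ 1 / q ∧
      (N : ℝ) ≤ 3 * τ w' * (τ w + τ w') ^ 2 * (q : ℝ) ^ 2 := by
  have ht' := tau_pos hw'
  have ht := tau_pos hw
  obtain ⟨x, hx, hxN⟩ := Real.exists_rat_abs_sub_le_and_den_le (τ w / τ w') hN
  set θ := τ w / τ w' with hθd
  have hθ0 : 0 < θ := div_pos ht ht'
  have hq : 0 < x.den := x.den_pos
  have hqr : (0 : ℝ) < x.den := by exact_mod_cast hq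
  have hN0 : (0 : ℝ) < (N : ℝ) + 1 := by positivity
  have hxe : (x : ℝ) = (x.num : ℝ) / x.den := by
    exact_mod_cast (Rat.num_div_den x).symm
  have h1 : |(x.den : ℝ) * θ - x.num| ≤ 1 / ((N : ℝ) + 1) := by
    have e : (x.den : ℝ) * θ - x.num = x.den * (θ - x) := by rw [hxe]; field_simp
    rw [e, abs_mul, abs_of_pos hqr]
    calc (x.den : ℝ) * |θ - x| ≤ x.den * (1 / ((N + 1) * x.den)) := mul_le_mul_of_nonneg_left hx hqr.le
      _ = 1 / ((N : ℝ) + 1) := by field_simp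
  have hqN : (x.den : ℝ) ≤ N := by exact_mod_cast hxN
  have h2 : (1 : ℝ) / ((N : ℝ) + 1) ≤ 1 / x.den := one_div_le_one_div_of_le hqr (by linarith)
  have hq1 : (1 : ℝ) ≤ x.den := by exact_mod_cast hq
  -- the numerator is positive
  have hp : 0 < x.num := by
    by_contra hcon
    have hcon : x.num ≤ 0 := not_lt.1 hcon
    have hcon' : (x.num : ℝ) ≤ 0 := by exact_mod_cast hcon
    have h3 := (abs_le.1 h1).2
    have h4 : θ ≤ (x.den : ℝ) * θ := le_mul_of_one_le_left hθ0.le hq1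
    have h5 : 1 / ((N : ℝ) + 1) < θ := by
      rw [div_lt_iff₀ hN0]; linarith
    linarith
  obtain ⟨p, hpe⟩ := Int.eq_ofNat_of_zero_le hp.le
  have hp0 : 0 < p := by
    have : (0 : ℤ) < (p : ℤ) := by rw [← hpe]; exact hp
    exact_mod_cast this
  have hpr : (x.num : ℝ) = (p : ℝ) := by rw [hpe]; simp
  refine ⟨x.den, x.num, hq, hxN, ?_, h1.trans h2, ?_⟩
  · have := x.reduced
    rw [Int.isCoprime_iff_gcd_eq_one]
    have e : Int.gcd x.num (x.den : ℤ) = Nat.gcd x.num.natAbs x.den := rfl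
    rw [e]
    exact this
  · -- Liouville
    have h3 : (x.den : ℝ) * τ w ≤ x.den * (τ w + τ w') := by nlinarith
    have hle1 : 1 / ((N : ℝ) + 1) ≤ 1 := by
      rw [div_le_one hN0]; linarith
    have h4 : (p : ℝ) * τ w' ≤ x.den * (τ w + τ w') := by
      have h5 := (abs_le.1 h1).1
      rw [hpr] at h5
      have h6 : (p : ℝ) ≤ x.den * θ + 1 := by linarith
      have h7 : x.den * θ * τ w' = x.den * τ w := by rw [hθd]; field_simp
      have h8 : (p : ℝ) * τ w' ≤ (x.den * θ + 1) * τ w' := mul_le_mul_of_nonneg_right h6 ht'.le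
      have h9 : τ w' ≤ x.den * τ w' := le_mul_of_one_le_left ht'.le hq1
      nlinarith
    have h5 := liou hw hw' hne hq hp0 h3 h4
    have h6 : |(x.den : ℝ) * τ w - p * τ w'| = τ w' * |(x.den : ℝ) * θ - x.num| := by
      rw [← abs_of_pos ht', ← abs_mul, abs_of_pos ht', hpr, hθd]
      congr 1
      field_simp
    rw [h6] at h5
    have h7 : 1 / (3 * ((x.den : ℝ) * (τ w + τ w')) ^ 2) ≤ τ w' * (1 / ((N : ℝ) + 1)) :=
      h5.trans (mul_le_mul_of_nonneg_left h1 ht'.le)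
    have hsum : 0 < τ w + τ w' := by linarith
    have hpos : 0 < 3 * ((x.den : ℝ) * (τ w + τ w')) ^ 2 := by positivity
    rw [div_le_iff₀ hpos] at h7
    have h8 : τ w' * (1 / ((N : ℝ) + 1)) * (3 * ((x.den : ℝ) * (τ w + τ w')) ^ 2) =
        (3 * τ w' * (τ w + τ w') ^ 2 * (x.den : ℝ) ^ 2) / ((N : ℝ) + 1) := by
      field_simp
    rw [h8, le_div_iff₀ hN0] at h7
    linarith

theorem pair_as {w w' : ℕ} (hw : CF w) (hw' : CF w') (hne : w ≠ w') {ε : ℝ} (hε : 0 < ε) :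
    ∃ T0 : ℝ, 1 ≤ T0 ∧ ∀ T s : ℝ, T0 ≤ T → T ^ (-((1 : ℝ) / 20)) ≤ s → s ≤ 1 →
      |((NP w w' s T).card : ℝ) - α w * α w' * s * T| ≤ ε * s * T := by
  have ht' := tau_pos hw'
  have ht := tau_pos hw
  set θ := τ w / τ w' with hθd
  have hθ0 : 0 < θ := div_pos ht ht'
  set K : ℝ := 3 * τ w' * (τ w + τ w') ^ 2 with hK
  have hK0 : 0 < K := by positivity
  -- parameters
  set L : ℝ := max (max (1 / θ) 1) ((6 * K + 5) / ε) with hL
  have hL1 : 1 ≤ L := le_max_of_le_left (le_max_right _ _)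
  have hLθ : 1 / θ ≤ L := le_max_of_le_left (le_max_left _ _)
  have hLε : (6 * K + 5) / ε ≤ L := le_max_right _ _
  refine ⟨(L + 1) ^ 20, one_le_pow₀ (by linarith), ?_⟩
  intro T s hT hs hs1
  have hT1 : 1 ≤ T := (one_le_pow₀ (by linarith : (1 : ℝ) ≤ L + 1)).trans hT
  have hT0 : 0 < T := by linarith
  set u : ℝ := T ^ ((1 : ℝ) / 20) with hu
  have hu0 : 0 < u := Real.rpow_pos_of_pos hT0 _
  have huT : u ^ 20 = T := by
    rw [hu, ← Real.rpow_natCast, ← Real.rpow_mul hT0.le]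
    norm_num
  have huL : L + 1 ≤ u := by
    have : (L + 1) ^ 20 ≤ u ^ 20 := by rw [huT]; exact hT
    exact le_of_pow_le_pow_left₀ (by norm_num) hu0.le this
  have hu1 : 1 ≤ u := by linarith
  have hsu : 1 ≤ s * u := by
    have e : T ^ (-((1 : ℝ) / 20)) = u⁻¹ := by rw [hu, Real.rpow_neg hT0.le]
    rw [e] at hs
    calc (1 : ℝ) = u⁻¹ * u := by field_simp
      _ ≤ s * u := mul_le_mul_of_nonneg_right hs hu0.le
  have hs0 : 0 < s := by
    by_contra h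
    have : s * u ≤ 0 := mul_nonpos_of_nonpos_of_nonneg (not_lt.1 h) hu0.le
    linarith
  -- Dirichlet
  set N : ℕ := ⌊u ^ 10⌋₊ with hN
  have hu10 : 1 ≤ u ^ 10 := one_le_pow₀ hu1
  have hN1 : (N : ℝ) ≤ u ^ 10 := Nat.floor_le (by positivity)
  have hN2 : u ^ 10 < (N : ℝ) + 1 := Nat.lt_floor_add_one _
  have hN0 : 0 < N := Nat.floor_pos.2 hu10
  have hu_le : u ≤ u ^ 10 := le_self_pow₀ hu1 (by norm_num)
  obtain ⟨q, p, hq, hqN, hc, hap, hlow⟩ := ps_dio hw hw' hne hN0 (by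
    rw [← hθd]
    have h1 : 1 / θ < (N : ℝ) + 1 := by linarith
    rw [div_lt_iff₀ hθ0] at h1
    linarith)
  have hqr : (0 : ℝ) < q := by exact_mod_cast hq
  have hqN' : (q : ℝ) ≤ u ^ 10 := le_trans (by exact_mod_cast hqN) hN1
  -- lower bound for `q`
  have hq2 : u ^ 10 ≤ 2 * K * (q : ℝ) ^ 2 := by
    have hNN : (N : ℝ) + 1 ≤ 2 * N := by
      have : (1 : ℝ) ≤ N := by exact_mod_cast hN0
      linarith
    rw [← hK] at hlow
    linarith
  -- `J / q <= 2 K u ^ 15`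
  have hα := alpha_of_CF hw
  have hα0 := alpha_nonneg w
  have hα1 := alpha_le_one w
  have hα0' := alpha_nonneg w'
  have hα1' := alpha_le_one w'
  set J : ℕ := ⌊T * α w⌋₊ with hJ
  have hJ1 : (J : ℝ) ≤ T * α w := Nat.floor_le (by positivity)
  have hJ2 : T * α w < (J : ℝ) + 1 := Nat.lt_floor_add_one _
  have hJT : (J : ℝ) ≤ T := hJ1.trans (mul_le_of_le_one_right hT0.le hα1)
  have hJq : (J : ℝ) / q ≤ (2 * K + 1) * u ^ 15 := by
    rw [div_le_iff₀ hqr]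
    have h1 : u ^ 5 ≤ (2 * K + 1) * q := by
      -- square both sides
      have h2 : (u ^ 5) ^ 2 ≤ ((2 * K + 1) * q) ^ 2 := by
        calc (u ^ 5) ^ 2 = u ^ 10 := by ring
          _ ≤ 2 * K * (q : ℝ) ^ 2 := hq2
          _ ≤ (2 * K + 1) ^ 2 * (q : ℝ) ^ 2 := by
            refine mul_le_mul_of_nonneg_right ?_ (by positivity)
            nlinarith [sq_nonneg (2 * K)]
          _ = ((2 * K + 1) * q) ^ 2 := by ring
      exact le_of_sq_le_sq h2 (by positivity)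
    calc (J : ℝ) ≤ T := hJT
      _ = u ^ 15 * u ^ 5 := by rw [← huT]; ring
      _ ≤ u ^ 15 * ((2 * K + 1) * q) := mul_le_mul_of_nonneg_left h1 (by positivity)
      _ = (2 * K + 1) * u ^ 15 * q := by ring
  -- the count
  have hδ0 : 0 ≤ s * α w' := by positivity
  have hδ1 : s * α w' ≤ 1 := by nlinarith
  have htot := ps_total hq hc hap hδ0 hδ1 J
  have hcard := ps_card (T := T) hw hw' hs0.le hs1
  rw [← hJ] at hcard
  rw [← hcard] at htot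
  rw [Int.cast_natCast] at htot
  have e : ((NP w w' s T).card : ℝ) - α w * α w' * s * T =
      (((NP w w' s T).card : ℝ) - J * (s * α w')) + ((J : ℝ) - T * α w) * (s * α w') := by ring
  rw [e]
  refine (abs_add_le _ _).trans ?_
  have h2 : |((J : ℝ) - T * α w) * (s * α w')| ≤ 1 := by
    rw [abs_mul, abs_of_nonneg hδ0]
    have h3 : |(J : ℝ) - T * α w| ≤ 1 := by
      rw [abs_le]; constructor <;> linarith
    calc |(J : ℝ) - T * α w| * (s * α w') ≤ 1 * 1 := mul_le_mul h3 hδ1 hδ0 zero_le_one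
      _ = 1 := one_mul 1
  have h3 : u ^ 10 ≤ u ^ 15 := pow_le_pow_right₀ hu1 (by norm_num)
  have h4 : (1 : ℝ) ≤ u ^ 15 := one_le_pow₀ hu1
  have h5 : 3 * ((J : ℝ) / q) + q + 1 ≤ (6 * K + 5) * u ^ 15 := by nlinarith
  have h6 : ε * s * T = ε * (s * u) * u ^ 19 := by rw [← huT]; ring
  have h7 : (6 * K + 5) * u ^ 15 ≤ ε * s * T := by
    rw [h6]
    have k1 : 6 * K + 5 ≤ ε * u := by
      have k2 : (6 * K + 5) / ε ≤ u := by linarith
      rw [div_le_iff₀ hε] at k2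
      linarith
    have k3 : u ≤ u ^ 4 := le_self_pow₀ hu1 (by norm_num)
    calc (6 * K + 5) * u ^ 15 ≤ (ε * u) * u ^ 15 := mul_le_mul_of_nonneg_right k1 (by positivity)
      _ ≤ (ε * u ^ 4) * u ^ 15 :=
          mul_le_mul_of_nonneg_right (mul_le_mul_of_nonneg_left k3 hε.le) (by positivity)
      _ = ε * 1 * u ^ 19 := by ring
      _ ≤ ε * (s * u) * u ^ 19 :=
          mul_le_mul_of_nonneg_right (mul_le_mul_of_nonneg_left hsu hε.le) (by positivity)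
  linarith

end Pool.Agent.GL3
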