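import Pool.Agent.GL3.Indep
import Pool.Agent.GL3.Liou
import Pool.Agent.GL3.Count

set_option autoImplicit false

/-!
# Triple coincidences are rare

Plan. Write `τ1, τ2, τ3` for `τ w, τ w', τ w''`. For `r > 0` let `V(r)` be the set of integer vectors
`(d, b, c)` with `|d τ1 - b τ2| <= r` and `|d τ1 - c τ3| <= r`. Every `j ∈ TR` gives `(j, i, k) ∈ V(s)`,
differences are in `V(2s)`. Let `K` be large (in terms of `ε`), `J = ⌊T α w⌋`. If `TR` has at least two
elements let `v0 = (d0, b0, c0) ∈ V(2s)` have minimal `d0 >= 1` (it is primitive), and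
`η = max |d0 τ1 - b0 τ2| |d0 τ1 - c0 τ3| <= 2s`, `η >= c / d0^2` (Liouville).
Case A: `d0 >= K/s`. Then `#TR <= J/d0 + 1 <= J s/K + 1`.
Case B: `d0 < K/s`. Two members `v, v'` of `V(s)` on the same line parallel to `v0` differ by an integer
multiple of `v0`; each line carries at most `min (2s/η) (J/d0) + 1` of them. If `u = v - v' = (a, b, c)` is
not parallel to `v0` the cross product `m = u × v0` is a nonzero integer vector with entries bounded by
`C (|a| η + s d0 + s) <= C (|a| η + 2K)` (for instance `a b0 - b d0 = (a (b0 τ2 - d0 τ1) + d0 (a τ1 - b τ2))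
/ τ2`). If `|a| η <= K` then `|m| <= 3 C K`, and since `m · v0 = 0` and `v0 = d0 τ1 (1/τ1, 1/τ2, 1/τ3) +
O(η)`, `|m1 α w + m2 α w' + m3 α w''| <= C' K η / d0 <= 2 C' K s`; there are finitely many nonzero `m` of
size `<= 3 C K` and the linear form does not vanish on them (`indep`), so this is impossible for
`s <= s0(K)`. Hence `|a| > K/η`: the lines have their least members more than `K/η` apart, there are at
most `J η/K + 1` lines and `#TR <= (J η/K + 1) (min (2s/η) (J/d0) + 1) <= 2 J s/K + J η/K +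
min (2s/η) (J/d0) + 1 <= 4 J s/K + C'' (s J^2)^(1/3) + 1` by Liouville, and
`(s J^2)^(1/3) <= ε s T / 4`, `1 <= ε s T / 4` for `T >= T0` because `s >= T^(-1/20)`.
-/

namespace Pool.Agent.GL3

open Finset Filter Topology

/-- Separated sets of naturals. -/
private theorem tr_card_sep (F : Finset ℕ) {D d : ℝ} (hd : 0 < d) (hD : 0 ≤ D)
    (h1 : ∀ j ∈ F, ∀ j' ∈ F, j < j' → d ≤ (j' : ℝ) - j)
    (h2 : ∀ j ∈ F, ∀ j' ∈ F, j < j' → (j' : ℝ) - j ≤ D) : (F.card : ℝ) ≤ D / d + 1 := by
  classical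
  rcases F.eq_empty_or_nonempty with rfl | hne
  · simp only [Finset.card_empty, Nat.cast_zero]
    positivity
  set j0 := F.min' hne with hj0def
  have hmin : ∀ j ∈ F, j0 ≤ j := fun j hj => F.min'_le j hj
  have hj0 : j0 ∈ F := F.min'_mem hne
  have hnn : ∀ j ∈ F, 0 ≤ ((j : ℝ) - j0) / d := by
    intro j hj
    have : (j0 : ℝ) ≤ j := by exact_mod_cast hmin j hj
    exact div_nonneg (by linarith) hd.le
  have key : ∀ j ∈ F, ∀ j' ∈ F, j < j' → ⌊((j : ℝ) - j0) / d⌋₊ ≠ ⌊((j' : ℝ) - j0) / d⌋₊ := by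
    intro j hj j' hj' hlt
    have h3 : ((j : ℝ) - j0) / d + 1 ≤ ((j' : ℝ) - j0) / d := by
      have := h1 j hj j' hj' hlt
      rw [div_add_one hd.ne', div_le_div_iff_of_pos_right hd]
      linarith
    have h4 := Nat.floor_le_floor h3
    rw [Nat.floor_add_one (hnn j hj)] at h4
    omega
  have hcard : F.card ≤ (Finset.range (⌊D / d⌋₊ + 1)).card := by
    refine Finset.card_le_card_of_injOn (fun j : ℕ => ⌊((j : ℝ) - j0) / d⌋₊) ?_ ?_
    · intro j hj
      have hj2 : j ∈ F := by simpa using hj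
      have : ⌊((j : ℝ) - j0) / d⌋₊ ≤ ⌊D / d⌋₊ := by
        apply Nat.floor_le_floor
        apply div_le_div_of_nonneg_right _ hd.le
        rcases (hmin j hj2).eq_or_lt with h | h
        · rw [← h]
          simp only [sub_self]
          exact hD
        · exact h2 j0 hj0 j hj2 h
      simp only [Finset.coe_range, Set.mem_Iio]
      omega
    · intro j hj j' hj' hEq
      have hj2 : j ∈ F := by simpa using hj
      have hj2' : j' ∈ F := by simpa using hj'
      by_contra hne'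
      rcases lt_or_gt_of_ne hne' with h | h
      · exact key j hj2 j' hj2' h hEq
      · exact key j' hj2' j hj2 h hEq.symm
  rw [Finset.card_range] at hcard
  have h5 : (F.card : ℝ) ≤ ((⌊D / d⌋₊ + 1 : ℕ) : ℝ) := by exact_mod_cast hcard
  have h6 : ((⌊D / d⌋₊ : ℕ) : ℝ) ≤ D / d := Nat.floor_le (by positivity)
  push_cast at h5
  linarith

/-- A positive lower bound on a finite set. -/
private theorem tr_pos_min {ι : Type*} (S : Finset ι) (f : ι → ℝ) (h : ∀ x ∈ S, 0 < f x) :
    ∃ δ : ℝ, 0 < δ ∧ ∀ x ∈ S, δ ≤ f x := by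
  classical
  rcases S.eq_empty_or_nonempty with rfl | hne
  · exact ⟨1, one_pos, by simp⟩
  · obtain ⟨x, hx, hmin⟩ := Finset.exists_min_image S f hne
    exact ⟨f x, h x hx, hmin⟩

/-- The linear form in three densities is bounded below on small integer vectors. -/
private theorem tr_form {w w' w'' : ℕ} (hw : CF w) (hw' : CF w') (hw'' : CF w'') (h1 : w ≠ w')
    (h2 : w ≠ w'') (h3 : w' ≠ w'') (X : ℝ) :
    ∃ δ : ℝ, 0 < δ ∧ ∀ m1 m2 m3 : ℤ, |(m1 : ℝ)| ≤ X → |(m2 : ℝ)| ≤ X → |(m3 : ℝ)| ≤ X →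
      |(m1 : ℝ) * α w + m2 * α w' + m3 * α w''| < δ → m1 = 0 ∧ m2 = 0 ∧ m3 = 0 := by
  classical
  set M : ℤ := ⌈X⌉ with hM
  set S : Finset (ℤ × ℤ × ℤ) :=
    ((Finset.Icc (-M) M) ×ˢ ((Finset.Icc (-M) M) ×ˢ (Finset.Icc (-M) M))).filter
      (fun x => x ≠ 0) with hS
  obtain ⟨δ, hδ, hmin⟩ := tr_pos_min S
    (fun x => |(x.1 : ℝ) * α w + x.2.1 * α w' + x.2.2 * α w''|) (by
      rintro ⟨m1, m2, m3⟩ hx
      rw [hS, Finset.mem_filter] at hx
      rw [abs_pos]
      intro h0
      apply hx.2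
      have hi := indep {w, w', w''} (by
        intro v hv
        simp only [Finset.mem_insert, Finset.mem_singleton] at hv
        rcases hv with rfl | rfl | rfl <;> assumption)
        (fun v => if v = w then m1 else if v = w' then m2 else m3) (by
          rw [Finset.sum_insert (by simp [h1, h2]), Finset.sum_pair h3]
          simp only [if_true, if_neg h1.symm, if_neg h2.symm, if_neg h3.symm]
          simp only at h0
          linarith)
      have i1 := hi w (by simp)
      have i2 := hi w' (by simp)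
      have i3 := hi w'' (by simp)
      simp only [if_true, if_neg h1.symm, if_neg h2.symm, if_neg h3.symm] at i1 i2 i3
      rw [i1, i2, i3]
      rfl)
  refine ⟨δ, hδ, fun m1 m2 m3 b1 b2 b3 hlt => ?_⟩
  have hIcc : ∀ m : ℤ, |(m : ℝ)| ≤ X → m ∈ Finset.Icc (-M) M := by
    intro m hm
    have h4 : |(m : ℝ)| ≤ (M : ℝ) := hm.trans (Int.le_ceil X)
    have h5 : |m| ≤ M := by exact_mod_cast h4
    rw [Finset.mem_Icc]
    exact abs_le.1 h5
  by_contra hcon
  have hmem : (m1, m2, m3) ∈ S := by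
    rw [hS, Finset.mem_filter, Finset.mem_product, Finset.mem_product]
    refine ⟨⟨hIcc _ b1, hIcc _ b2, hIcc _ b3⟩, ?_⟩
    intro h0
    apply hcon
    rw [Prod.mk_eq_zero, Prod.mk_eq_zero] at h0
    exact ⟨h0.1, h0.2.1, h0.2.2⟩
  exact absurd (hmin _ hmem) (not_le.2 hlt)

theorem triple {w w' w'' : ℕ} (hw : CF w) (hw' : CF w') (hw'' : CF w'') (h1 : w ≠ w')
    (h2 : w ≠ w'') (h3 : w' ≠ w'') {ε : ℝ} (hε : 0 < ε) :
    ∃ s0 T0 : ℝ, 0 < s0 ∧ s0 ≤ 1 ∧ 1 ≤ T0 ∧ ∀ T s : ℝ, T0 ≤ T → T ^ (-((1 : ℝ) / 20)) ≤ s →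
      s ≤ s0 → ((TR w w' w'' s T).card : ℝ) ≤ ε * s * T := by
  classical
  have hτ1 := one_le_tau hw
  have hτ2 := one_le_tau hw'
  have hτ3 := one_le_tau hw''
  set K : ℝ := max 1 (8 / ε) with hKdef
  have hK1 : 1 ≤ K := le_max_left _ _
  have hK0 : 0 < K := by linarith
  have hKe : 8 / ε ≤ K := le_max_right _ _
  have hKe' : 8 ≤ ε * K := by
    rw [div_le_iff₀ hε] at hKe
    linarith
  obtain ⟨δ, hδ, hform⟩ := tr_form hw hw' hw'' h1 h2 h3 (14 * τ w * K)
  set C2 : ℝ := max (3456 * τ w ^ 2 / ε ^ 3) (4 / ε) with hC2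
  obtain ⟨T1, hT1⟩ := (Filter.eventually_atTop.1
    ((tendsto_rpow_atTop (by norm_num : (0 : ℝ) < 9 / 10)).eventually_ge_atTop C2))
  refine ⟨min (1 / 4) (δ / (24 * K)), max 1 T1, by positivity, ?_, le_max_left _ _, ?_⟩
  · exact (min_le_left _ _).trans (by norm_num)
  intro T s hT hsT hs0
  have hT1' : 1 ≤ T := (le_max_left _ _).trans hT
  have hT0 : 0 < T := by linarith
  have hs : 0 < s := lt_of_lt_of_le (Real.rpow_pos_of_pos hT0 _) hsT
  have hs4 : s ≤ 1 / 4 := hs0.trans (min_le_left _ _)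
  have hsδ : 12 * K * s < δ := by
    have := hs0.trans (min_le_right _ _)
    rw [le_div_iff₀ (by positivity)] at this
    linarith
  have hC2T : C2 ≤ s ^ 2 * T := by
    have a1 : C2 ≤ T ^ ((9 : ℝ) / 10) := hT1 T ((le_max_right _ _).trans hT)
    have a2 : (T ^ (-((1 : ℝ) / 20))) ^ 2 * T = T ^ ((9 : ℝ) / 10) := by
      rw [← Real.rpow_natCast, ← Real.rpow_mul hT0.le]
      nth_rewrite 2 [← Real.rpow_one T]
      rw [← Real.rpow_add hT0]
      norm_num
    rw [← a2] at a1
    refine a1.trans ?_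
    have a3 : (T ^ (-((1 : ℝ) / 20))) ^ 2 ≤ s ^ 2 :=
      pow_le_pow_left₀ (Real.rpow_nonneg hT0.le _) hsT 2
    exact mul_le_mul_of_nonneg_right a3 hT0.le
  have hone : 1 ≤ ε / 4 * (s * T) := by
    have a1 : 4 / ε ≤ s ^ 2 * T := (le_max_right _ _).trans hC2T
    have a2 : s ^ 2 * T ≤ s * T := by
      apply mul_le_mul_of_nonneg_right _ hT0.le
      rw [sq]
      exact mul_le_of_le_one_right hs.le (by linarith)
    have a3 : 4 / ε ≤ s * T := a1.trans a2
    rw [div_le_iff₀ hε] at a3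
    linarith
  -- members
  have hmem : ∀ j ∈ TR w w' w'' s T, (j : ℝ) ≤ T ∧ (∃ i : ℕ, |(j : ℝ) * τ w - i * τ w'| ≤ s) ∧
      ∃ k : ℕ, |(j : ℝ) * τ w - k * τ w''| ≤ s := by
    intro j hj
    unfold TR at hj
    rw [Finset.mem_filter, Finset.mem_Icc] at hj
    refine ⟨?_, hj.2⟩
    have a1 : (j : ℝ) ≤ ((⌊T * α w⌋₊ : ℕ) : ℝ) := by exact_mod_cast hj.1.2
    have a2 : ((⌊T * α w⌋₊ : ℕ) : ℝ) ≤ T * α w := Nat.floor_le (mul_nonneg hT0.le (alpha_nonneg w))
    have a3 : T * α w ≤ T * 1 := mul_le_mul_of_nonneg_left (alpha_le_one w) hT0.le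
    linarith
  -- differences
  have hdiff : ∀ j ∈ TR w w' w'' s T, ∀ j' ∈ TR w w' w'' s T, j < j' →
      ∃ b c : ℤ, |((j' - j : ℕ) : ℝ) * τ w - b * τ w'| ≤ 2 * s ∧
        |((j' - j : ℕ) : ℝ) * τ w - c * τ w''| ≤ 2 * s := by
    intro j hj j' hj' hlt
    obtain ⟨-, ⟨i, hi⟩, ⟨k, hk⟩⟩ := hmem j hj
    obtain ⟨-, ⟨i', hi'⟩, ⟨k', hk'⟩⟩ := hmem j' hj'
    refine ⟨(i' : ℤ) - i, (k' : ℤ) - k, ?_, ?_⟩
    · rw [Nat.cast_sub hlt.le]
      push_cast
      have : ((j' : ℝ) - j) * τ w - ((i' : ℝ) - i) * τ w' =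
          (j' * τ w - i' * τ w') - (j * τ w - i * τ w') := by ring
      rw [this]
      calc _ ≤ |(j' : ℝ) * τ w - i' * τ w'| + |(j : ℝ) * τ w - i * τ w'| := abs_sub _ _
        _ ≤ 2 * s := by linarith
    · rw [Nat.cast_sub hlt.le]
      push_cast
      have : ((j' : ℝ) - j) * τ w - ((k' : ℝ) - k) * τ w'' =
          (j' * τ w - k' * τ w'') - (j * τ w - k * τ w'') := by ring
      rw [this]
      calc _ ≤ |(j' : ℝ) * τ w - k' * τ w''| + |(j : ℝ) * τ w - k * τ w''| := abs_sub _ _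
        _ ≤ 2 * s := by linarith
  have hdist : ∀ j ∈ TR w w' w'' s T, ∀ j' ∈ TR w w' w'' s T, j < j' → (j' : ℝ) - j ≤ T := by
    intro j _ j' hj' _
    have a1 := (hmem j' hj').1
    have a2 : (0 : ℝ) ≤ j := Nat.cast_nonneg j
    linarith
  by_cases hA : ∀ d : ℕ, (1 ≤ d ∧ ∃ b c : ℤ, |(d : ℝ) * τ w - b * τ w'| ≤ 2 * s ∧
      |(d : ℝ) * τ w - c * τ w''| ≤ 2 * s) → K / s ≤ d
  · -- Case A
    have hKs : 0 < K / s := by positivity
    have a1 := tr_card_sep (TR w w' w'' s T) hKs hT0.le (fun j hj j' hj' hlt => by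
      have := hA (j' - j) ⟨by omega, hdiff j hj j' hj' hlt⟩
      rwa [Nat.cast_sub hlt.le] at this) hdist
    have a2 : T / (K / s) = s * T / K := by field_simp
    rw [a2] at a1
    have a3 : s * T / K ≤ ε / 8 * (s * T) := by
      rw [div_le_iff₀ hK0]
      have hp : 0 < s * T := by positivity
      have := mul_le_mul_of_nonneg_left hKe' hp.le
      linarith
    have : 0 < ε * (s * T) := by positivity
    linarith
  · -- Case B
    push Not at hA
    have hex : ∃ d : ℕ, (1 ≤ d ∧ ∃ b c : ℤ, |(d : ℝ) * τ w - b * τ w'| ≤ 2 * s ∧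
      |(d : ℝ) * τ w - c * τ w''| ≤ 2 * s) := by
      obtain ⟨d, hd, -⟩ := hA
      exact ⟨d, hd⟩
    obtain ⟨d1, hd1, hd1K⟩ := hA
    set d0 := Nat.find hex with hd0
    obtain ⟨hd0pos, b0, c0, hb0, hc0⟩ := Nat.find_spec hex
    rw [← hd0] at hd0pos hb0 hc0
    have hmin : ∀ d : ℕ, (1 ≤ d ∧ ∃ b c : ℤ, |(d : ℝ) * τ w - b * τ w'| ≤ 2 * s ∧
      |(d : ℝ) * τ w - c * τ w''| ≤ 2 * s) → d0 ≤ d := fun d hd => Nat.find_min' hex hd
    have hd0K : (d0 : ℝ) < K / s := by
      have : (d0 : ℝ) ≤ d1 := by exact_mod_cast hmin d1 hd1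
      linarith
    have hd0s : (d0 : ℝ) * s ≤ K := by
      rw [lt_div_iff₀ hs] at hd0K
      exact hd0K.le
    have hd0r : (1 : ℝ) ≤ d0 := by exact_mod_cast hd0pos
    set η : ℝ := max |(d0 : ℝ) * τ w - b0 * τ w'| |(d0 : ℝ) * τ w - c0 * τ w''| with hη
    have hη2 : |(d0 : ℝ) * τ w - b0 * τ w'| ≤ η := le_max_left _ _
    have hη3 : |(d0 : ℝ) * τ w - c0 * τ w''| ≤ η := le_max_right _ _
    have hηs : η ≤ 2 * s := max_le hb0 hc0
    have hA0 : 1 ≤ (d0 : ℝ) * τ w := one_le_mul_of_one_le_of_one_le hd0r hτ1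
    -- Liouville
    have hLiou : 1 / (27 * τ w ^ 2 * (d0 : ℝ) ^ 2) ≤ η := by
      have hb0pos : 0 < b0 := by
        by_contra hneg
        have : (b0 : ℝ) ≤ 0 := by exact_mod_cast not_lt.1 hneg
        have a1 := (abs_le.1 hb0).2
        have a2 : (b0 : ℝ) * τ w' ≤ 0 := mul_nonpos_of_nonpos_of_nonneg this (tau_pos hw').le
        linarith
      obtain ⟨b, rfl⟩ : ∃ b : ℕ, b0 = b := ⟨b0.toNat, (Int.toNat_of_nonneg hb0pos.le).symm⟩
      have hbpos : 0 < b := by exact_mod_cast hb0pos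
      have a1 := liou hw hw' h1 (j := d0) (i := b) hd0pos hbpos (T := 3 * (d0 * τ w))
        (by linarith) (by
          have := (abs_le.1 hb0).1
          push_cast at this
          linarith)
      refine le_trans ?_ (a1.trans ?_)
      · apply one_div_le_one_div_of_le
        · positivity
        · exact le_of_eq (by ring)
      · refine le_trans (le_of_eq ?_) hη2
        push_cast
        rfl
    have hηpos : 0 < η := lt_of_lt_of_le (by positivity) hLiou
    set G : ℝ := K / η with hG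
    have hGpos : 0 < G := by positivity
    set L : ℝ := min (2 * s * d0 / η) T / d0 with hL
    have hd0pos' : (0 : ℝ) < d0 := by linarith
    have hL0 : 0 ≤ L := by
      rw [hL]
      apply div_nonneg _ hd0pos'.le
      exact le_min (by positivity) hT0.le
    have hLη : η * L ≤ 2 * s := by
      have a1 : L ≤ (2 * s * d0 / η) / d0 := by
        rw [hL]
        exact div_le_div_of_nonneg_right (min_le_left _ _) hd0pos'.le
      have a2 : (2 * s * d0 / η) / d0 = 2 * s / η := by field_simp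
      rw [a2] at a1
      calc η * L ≤ η * (2 * s / η) := mul_le_mul_of_nonneg_left a1 hηpos.le
        _ = 2 * s := by field_simp
    have hLT : L * d0 ≤ T := by
      rw [hL, div_mul_cancel₀ _ hd0pos'.ne']
      exact min_le_right _ _
    -- parallel
    have hpar : ∀ (a : ℕ) (b c : ℤ), |(a : ℝ) * τ w - b * τ w'| ≤ 2 * s →
        |(a : ℝ) * τ w - c * τ w''| ≤ 2 * s → (a : ℝ) * η ≤ K → (a : ℝ) ≤ 2 * s * d0 / η := by
      intro a b c hb hc haK
      have ha0 : (0 : ℝ) ≤ a := Nat.cast_nonneg a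
      set e := (a : ℝ) * τ w - b * τ w' with he
      set f := (a : ℝ) * τ w - c * τ w'' with hf
      set e0 := (d0 : ℝ) * τ w - b0 * τ w' with he0
      set f0 := (d0 : ℝ) * τ w - c0 * τ w'' with hf0
      have m3 : |((a * b0 - b * d0 : ℤ) : ℝ)| ≤ 3 * K := by
        have e1 : ((a * b0 - b * d0 : ℤ) : ℝ) * τ w' = d0 * e - a * e0 := by
          rw [he, he0]
          push_cast
          ring
        have e2 : |((a * b0 - b * d0 : ℤ) : ℝ)| * τ w' ≤ 3 * K := by
          rw [← abs_of_pos (tau_pos hw'), ← abs_mul, e1]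
          calc |(d0 : ℝ) * e - a * e0| ≤ |(d0 : ℝ) * e| + |(a : ℝ) * e0| := abs_sub _ _
            _ = d0 * |e| + a * |e0| := by rw [abs_mul, abs_mul, abs_of_pos hd0pos', abs_of_nonneg ha0]
            _ ≤ d0 * (2 * s) + a * η := by gcongr
            _ ≤ 3 * K := by linarith
        have e3 : |((a * b0 - b * d0 : ℤ) : ℝ)| * 1 ≤ |((a * b0 - b * d0 : ℤ) : ℝ)| * τ w' :=
          mul_le_mul_of_nonneg_left hτ2 (abs_nonneg _)
        linarith
      have m2 : |((c * d0 - a * c0 : ℤ) : ℝ)| ≤ 3 * K := by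
        have e1 : ((c * d0 - a * c0 : ℤ) : ℝ) * τ w'' = a * f0 - d0 * f := by
          rw [hf, hf0]
          push_cast
          ring
        have e2 : |((c * d0 - a * c0 : ℤ) : ℝ)| * τ w'' ≤ 3 * K := by
          rw [← abs_of_pos (tau_pos hw''), ← abs_mul, e1]
          calc |(a : ℝ) * f0 - d0 * f| ≤ |(a : ℝ) * f0| + |(d0 : ℝ) * f| := abs_sub _ _
            _ = a * |f0| + d0 * |f| := by rw [abs_mul, abs_mul, abs_of_pos hd0pos', abs_of_nonneg ha0]
            _ ≤ a * η + d0 * (2 * s) := by gcongr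
            _ ≤ 3 * K := by linarith
        have e3 : |((c * d0 - a * c0 : ℤ) : ℝ)| * 1 ≤ |((c * d0 - a * c0 : ℤ) : ℝ)| * τ w'' :=
          mul_le_mul_of_nonneg_left hτ3 (abs_nonneg _)
        linarith
      have m1 : |((b * c0 - c * b0 : ℤ) : ℝ)| ≤ 14 * τ w * K := by
        have e1 : ((b * c0 - c * b0 : ℤ) : ℝ) * (τ w' * τ w'') =
            a * τ w * (e0 - f0) + d0 * τ w * (f - e) + (e * f0 - f * e0) := by
          rw [he, hf, he0, hf0]
          push_cast
          ring
        have t1 : |e * f0 - f * e0| ≤ 2 * (2 * s) * η := by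
          calc |e * f0 - f * e0| ≤ |e * f0| + |f * e0| := abs_sub _ _
            _ = |e| * |f0| + |f| * |e0| := by rw [abs_mul, abs_mul]
            _ ≤ (2 * s) * η + (2 * s) * η := by gcongr
            _ = _ := by ring
        have t2 : |e0 - f0| ≤ 2 * η := by
          calc |e0 - f0| ≤ |e0| + |f0| := abs_sub _ _
            _ ≤ 2 * η := by linarith
        have t3 : |f - e| ≤ 4 * s := by
          calc |f - e| ≤ |f| + |e| := abs_sub _ _
            _ ≤ 4 * s := by linarith
        have e2 : |((b * c0 - c * b0 : ℤ) : ℝ)| * (τ w' * τ w'') ≤ 14 * τ w * K := by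
          have hp : 0 < τ w' * τ w'' := mul_pos (tau_pos hw') (tau_pos hw'')
          have hτ0 : 0 < τ w := tau_pos hw
          rw [← abs_of_pos hp, ← abs_mul, e1]
          calc |a * τ w * (e0 - f0) + d0 * τ w * (f - e) + (e * f0 - f * e0)|
              ≤ |a * τ w * (e0 - f0)| + |d0 * τ w * (f - e)| + |e * f0 - f * e0| := abs_add_three _ _ _
            _ = a * τ w * |e0 - f0| + d0 * τ w * |f - e| + |e * f0 - f * e0| := by
                rw [abs_mul, abs_mul (d0 * τ w), abs_of_nonneg (by positivity : 0 ≤ (a : ℝ) * τ w),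
                  abs_of_nonneg (by positivity : 0 ≤ (d0 : ℝ) * τ w)]
            _ ≤ a * τ w * (2 * η) + d0 * τ w * (4 * s) + 2 * (2 * s) * η := by gcongr
            _ = 2 * τ w * (a * η) + 4 * τ w * (d0 * s) + 4 * s * η := by ring
            _ ≤ 2 * τ w * K + 4 * τ w * K + 4 * s * η := by gcongr
            _ ≤ 14 * τ w * K := by
                have z0 : s * η ≤ 1 / 4 * (1 / 2) :=
                  mul_le_mul hs4 (by linarith) hηpos.le (by norm_num)
                have z2 : 1 ≤ τ w * K := one_le_mul_of_one_le_of_one_le hτ1 hK1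
                linarith
        have hp1 : 1 ≤ τ w' * τ w'' := one_le_mul_of_one_le_of_one_le hτ2 hτ3
        have e3 : |((b * c0 - c * b0 : ℤ) : ℝ)| * 1 ≤ |((b * c0 - c * b0 : ℤ) : ℝ)| * (τ w' * τ w'') :=
          mul_le_mul_of_nonneg_left hp1 (abs_nonneg _)
        linarith
      have hτK : 3 * K ≤ 14 * τ w * K := by
        have : 1 * K ≤ τ w * K := mul_le_mul_of_nonneg_right hτ1 hK0.le
        linarith
      have hlin : |((b * c0 - c * b0 : ℤ) : ℝ) * α w + ((c * d0 - a * c0 : ℤ) : ℝ) * α w' +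
          ((a * b0 - b * d0 : ℤ) : ℝ) * α w''| < δ := by
        rw [alpha_of_CF hw, alpha_of_CF hw', alpha_of_CF hw'']
        have n1 := (tau_pos hw).ne'
        have n2 := (tau_pos hw').ne'
        have n3 := (tau_pos hw'').ne'
        have e1 : ((b * c0 - c * b0 : ℤ) : ℝ) * (1 / τ w) + ((c * d0 - a * c0 : ℤ) : ℝ) * (1 / τ w') +
          ((a * b0 - b * d0 : ℤ) : ℝ) * (1 / τ w'') =
            (((c * d0 - a * c0 : ℤ) : ℝ) * (e0 / τ w') + ((a * b0 - b * d0 : ℤ) : ℝ) * (f0 / τ w'')) /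
              (d0 * τ w) := by
          rw [he0, hf0]
          push_cast
          field_simp
          ring
        rw [e1, abs_div, abs_of_pos (by linarith : 0 < (d0 : ℝ) * τ w)]
        have g1 : |e0 / τ w'| ≤ η := by
          rw [abs_div, abs_of_pos (tau_pos hw'), div_le_iff₀ (tau_pos hw')]
          exact hη2.trans (le_mul_of_one_le_right hηpos.le hτ2)
        have g2 : |f0 / τ w''| ≤ η := by
          rw [abs_div, abs_of_pos (tau_pos hw''), div_le_iff₀ (tau_pos hw'')]
          exact hη3.trans (le_mul_of_one_le_right hηpos.le hτ3)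
        have g3 : |((c * d0 - a * c0 : ℤ) : ℝ) * (e0 / τ w') +
            ((a * b0 - b * d0 : ℤ) : ℝ) * (f0 / τ w'')| ≤ 6 * K * η := by
          calc _ ≤ |((c * d0 - a * c0 : ℤ) : ℝ) * (e0 / τ w')| +
              |((a * b0 - b * d0 : ℤ) : ℝ) * (f0 / τ w'')| := abs_add_le _ _
            _ = |((c * d0 - a * c0 : ℤ) : ℝ)| * |e0 / τ w'| +
              |((a * b0 - b * d0 : ℤ) : ℝ)| * |f0 / τ w''| := by rw [abs_mul, abs_mul]
            _ ≤ 3 * K * η + 3 * K * η := by gcongr
            _ = _ := by ring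
        calc _ ≤ |((c * d0 - a * c0 : ℤ) : ℝ) * (e0 / τ w') +
            ((a * b0 - b * d0 : ℤ) : ℝ) * (f0 / τ w'')| := div_le_self (abs_nonneg _) hA0
          _ ≤ 6 * K * η := g3
          _ ≤ 6 * K * (2 * s) := by gcongr
          _ < δ := by linarith
      obtain ⟨-, z2, z3⟩ := hform _ _ _ m1 (m2.trans hτK) (m3.trans hτK) hlin
      have z3r : (a : ℝ) * b0 = b * d0 := by
        have : a * b0 = b * d0 := by linarith
        exact_mod_cast this
      have z2r : (c : ℝ) * d0 = a * c0 := by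
        have : c * d0 = a * c0 := by linarith
        exact_mod_cast this
      have r1 : (a : ℝ) * |e0| ≤ 2 * s * d0 := by
        have : (a : ℝ) * e0 = d0 * e := by
          rw [he0, he]
          linear_combination (-(τ w')) * z3r
        calc (a : ℝ) * |e0| = |(a : ℝ) * e0| := by rw [abs_mul, abs_of_nonneg ha0]
          _ = |(d0 : ℝ) * e| := by rw [this]
          _ = d0 * |e| := by rw [abs_mul, abs_of_pos hd0pos']
          _ ≤ d0 * (2 * s) := by gcongr
          _ = _ := by ring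
      have r2 : (a : ℝ) * |f0| ≤ 2 * s * d0 := by
        have : (a : ℝ) * f0 = d0 * f := by
          rw [hf0, hf]
          linear_combination (τ w'') * z2r
        calc (a : ℝ) * |f0| = |(a : ℝ) * f0| := by rw [abs_mul, abs_of_nonneg ha0]
          _ = |(d0 : ℝ) * f| := by rw [this]
          _ = d0 * |f| := by rw [abs_mul, abs_of_pos hd0pos']
          _ ≤ d0 * (2 * s) := by gcongr
          _ = _ := by ring
      rw [le_div_iff₀ hηpos]
      rcases max_choice |e0| |f0| with hmx | hmx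
      · rw [hη, hmx]
        exact r1
      · rw [hη, hmx]
        exact r2
    -- fibers
    have hcount : (TR w w' w'' s T).card ≤ ⌊L + 1⌋₊ * (Finset.range (⌊T / G⌋₊ + 1)).card := by
      refine Finset.card_le_mul_card_image_of_maps_to (f := fun j : ℕ => ⌊(j : ℝ) / G⌋₊) ?_ _ ?_
      · intro j hj
        rw [Finset.mem_range, Nat.lt_succ_iff]
        exact Nat.floor_le_floor (div_le_div_of_nonneg_right (hmem j hj).1 hGpos.le)
      · intro q _
        apply Nat.le_floor
        have hsub : ∀ j ∈ (TR w w' w'' s T).filter (fun j : ℕ => ⌊(j : ℝ) / G⌋₊ = q),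
            j ∈ TR w w' w'' s T ∧ ⌊(j : ℝ) / G⌋₊ = q := fun j hj => Finset.mem_filter.1 hj
        refine tr_card_sep _ hd0pos' (le_min (by positivity) hT0.le) ?_ ?_
        · intro j hj j' hj' hlt
          have a1 := hmin (j' - j) ⟨by omega, hdiff j (hsub j hj).1 j' (hsub j' hj').1 hlt⟩
          have a2 : (d0 : ℝ) ≤ ((j' - j : ℕ) : ℝ) := by exact_mod_cast a1
          rwa [Nat.cast_sub hlt.le] at a2
        · intro j hj j' hj' hlt
          refine le_min ?_ (hdist j (hsub j hj).1 j' (hsub j' hj').1 hlt)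
          obtain ⟨b, c, hb, hc⟩ := hdiff j (hsub j hj).1 j' (hsub j' hj').1 hlt
          have a1 : (((j' - j : ℕ) : ℝ)) * η ≤ K := by
            rw [Nat.cast_sub hlt.le]
            have b1 : (q : ℝ) ≤ (j : ℝ) / G := by
              rw [← (hsub j hj).2]
              exact Nat.floor_le (by positivity)
            have b2 : (j' : ℝ) / G < q + 1 := by
              rw [← (hsub j' hj').2]
              exact Nat.lt_floor_add_one _
            rw [le_div_iff₀ hGpos] at b1
            rw [div_lt_iff₀ hGpos] at b2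
            have b3 : (j' : ℝ) - j ≤ G := by linarith
            calc ((j' : ℝ) - j) * η ≤ G * η := mul_le_mul_of_nonneg_right b3 hηpos.le
              _ = K := by rw [hG]; field_simp
          have a2 := hpar (j' - j) b c hb hc a1
          rwa [Nat.cast_sub hlt.le] at a2
    have hcountR : ((TR w w' w'' s T).card : ℝ) ≤ (L + 1) * (T / G + 1) := by
      have a1 : ((TR w w' w'' s T).card : ℝ) ≤ ((⌊L + 1⌋₊ * (⌊T / G⌋₊ + 1) : ℕ) : ℝ) := by
        rw [Finset.card_range] at hcount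
        exact_mod_cast hcount
      push_cast at a1
      refine a1.trans ?_
      have a2 : ((⌊L + 1⌋₊ : ℕ) : ℝ) ≤ L + 1 := Nat.floor_le (by linarith)
      have a3 : ((⌊T / G⌋₊ : ℕ) : ℝ) ≤ T / G := Nat.floor_le (by positivity)
      have a4 : (0 : ℝ) ≤ T / G := by positivity
      gcongr
    have hTG : T / G = T * η / K := by rw [hG]; field_simp
    rw [hTG] at hcountR
    have hTsK : T * s / K ≤ ε / 8 * (s * T) := by
      rw [div_le_iff₀ hK0]
      have hp : 0 < s * T := by positivity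
      have := mul_le_mul_of_nonneg_left hKe' hp.le
      linarith
    -- the three terms
    have t1 : L * (T * η / K) ≤ 2 * (T * s / K) := by
      have : L * (T * η / K) = (η * L) * (T / K) := by ring
      rw [this]
      have : 2 * (T * s / K) = (2 * s) * (T / K) := by ring
      rw [this]
      exact mul_le_mul_of_nonneg_right hLη (by positivity)
    have t2 : T * η / K ≤ 2 * (T * s / K) := by
      have e1 : T * η / K = η * (T / K) := by ring
      have e2 : 2 * (T * s / K) = (2 * s) * (T / K) := by ring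
      rw [e1, e2]
      exact mul_le_mul_of_nonneg_right hηs (by positivity)
    have t3 : L ≤ ε / 4 * (s * T) := by
      have hτ0 : 0 < τ w := tau_pos hw
      have c1 : L ^ 3 ≤ 54 * τ w ^ 2 * s * T ^ 2 := by
        have u1 : 1 ≤ η * (27 * τ w ^ 2 * (d0 : ℝ) ^ 2) := by
          rw [div_le_iff₀ (by positivity)] at hLiou
          exact hLiou
        have u2 : (L * d0) ^ 2 ≤ T ^ 2 := pow_le_pow_left₀ (by positivity) hLT 2
        have u3 : 0 ≤ L ^ 3 := by positivity
        calc L ^ 3 = L ^ 3 * 1 := by ring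
          _ ≤ L ^ 3 * (η * (27 * τ w ^ 2 * (d0 : ℝ) ^ 2)) := mul_le_mul_of_nonneg_left u1 u3
          _ = 27 * τ w ^ 2 * ((η * L) * (L * d0) ^ 2) := by ring
          _ ≤ 27 * τ w ^ 2 * ((2 * s) * T ^ 2) := by gcongr
          _ = _ := by ring
      have c2 : 54 * τ w ^ 2 * s * T ^ 2 ≤ (ε / 4 * (s * T)) ^ 3 := by
        have v1 : 3456 * τ w ^ 2 / ε ^ 3 ≤ s ^ 2 * T := (le_max_left _ _).trans hC2T
        rw [div_le_iff₀ (by positivity)] at v1
        have v2 : 0 ≤ s * T ^ 2 := by positivity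
        have v3 := mul_le_mul_of_nonneg_left v1 v2
        have v4 : (ε / 4 * (s * T)) ^ 3 = s * T ^ 2 * (s ^ 2 * T * ε ^ 3) / 64 := by ring
        rw [v4]
        linarith
      exact le_of_pow_le_pow_left₀ (by norm_num) (by positivity) (c1.trans c2)
    have hexp : (L + 1) * (T * η / K + 1) = L * (T * η / K) + T * η / K + L + 1 := by ring
    rw [hexp] at hcountR
    linarith

end Pool.Agent.GL3
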