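import Pool.Agent.GL3.Liou
import Pool.Agent.GL3.Count

set_option autoImplicit false

/-!
# Upper bound for the near coincidences of two classes

Proof. `S = NP w w' s T`, each `j ∈ S` comes with its `i`. If `S` has at most one element, done. Otherwise
let `(d, e)` be positive integers with `|d τ w - e τ w'| < s` and minimal `d` (differences of members of
`S` are such), `δ = |d τ w - e τ w'|`; by Liouville `δ >= 1 / (12 (d τ w)^2)`. For `(j, i)` in `S` the integer
`D = j e - i d` equals `(j (e τ w' - d τ w) + d (j τ w - i τ w')) / τ w'`, so it lies in an interval of length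
`R = (T δ α w + d s) α w'`. For a fixed value of `D` two members `j` differ by at least `d` and at most
`d * min (s / δ) (T / (d τ w))`. Hence `#S <= (R + 1) (min (s / δ) (T / (d τ w)) + 1)`.
-/

namespace Pool.Agent.GL3

open Finset Filter Topology

private theorem card_sep (S : Finset ℕ) (d : ℕ) (hd : 0 < d) (L : ℝ) (hL : 0 ≤ L)
    (h : ∀ x ∈ S, ∀ y ∈ S, x < y → d ≤ y - x ∧ ((y : ℝ) - x ≤ L * d)) : (S.card : ℝ) ≤ L + 1 := by
  rcases S.eq_empty_or_nonempty with rfl | hne
  · simp only [Finset.card_empty, Nat.cast_zero]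
    linarith
  set m0 := S.min' hne with hm0
  have hmin : ∀ x ∈ S, m0 ≤ x := fun x hx => S.min'_le x hx
  have hm0S : m0 ∈ S := S.min'_mem hne
  have hinj : Set.InjOn (fun x => (x - m0) / d) (S : Set ℕ) := by
    have key : ∀ x ∈ S, ∀ y ∈ S, x < y → (x - m0) / d < (y - m0) / d := by
      intro x hx y hy hxy
      have h1 := (h x hx y hy hxy).1
      have h2 := hmin x hx
      have h3 : (x - m0) + d ≤ y - m0 := by omega
      calc (x - m0) / d < (x - m0) / d + 1 := Nat.lt_succ_self _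
        _ = (x - m0 + d) / d := (Nat.add_div_right _ hd).symm
        _ ≤ (y - m0) / d := Nat.div_le_div_right h3
    intro x hx y hy hxy
    rcases lt_trichotomy x y with h1 | h1 | h1
    · exact absurd hxy (key x hx y hy h1).ne
    · exact h1
    · exact absurd hxy (key y hy x hx h1).ne'
  have hmaps : Set.MapsTo (fun x => (x - m0) / d) (S : Set ℕ) (Finset.range (⌊L⌋₊ + 1) : Set ℕ) := by
    intro x hx
    rw [Finset.mem_coe, Finset.mem_range, Nat.lt_succ_iff, Nat.le_floor_iff hL]
    have h1 : m0 ≤ x := hmin x hx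
    have h2 : ((x - m0 : ℕ) : ℝ) ≤ L * d := by
      rw [Nat.cast_sub h1]
      rcases h1.lt_or_eq with h3 | h3
      · exact (h m0 hm0S x hx h3).2
      · rw [h3, sub_self]
        positivity
    calc (((x - m0) / d : ℕ) : ℝ) ≤ ((x - m0 : ℕ) : ℝ) / d := Nat.cast_div_le
      _ ≤ L := by
        rw [div_le_iff₀ (by exact_mod_cast hd)]
        exact h2
  have h5 := Finset.card_le_card_of_injOn _ hmaps hinj
  rw [Finset.card_range] at h5
  calc (S.card : ℝ) ≤ ((⌊L⌋₊ + 1 : ℕ) : ℝ) := by exact_mod_cast h5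
    _ ≤ L + 1 := by
      push_cast
      linarith [Nat.floor_le hL]

private theorem card_int (S : Finset ℤ) (a R : ℝ) (hR : 0 ≤ R)
    (h : ∀ x ∈ S, a ≤ (x : ℝ) ∧ (x : ℝ) ≤ a + R) : (S.card : ℝ) ≤ R + 1 := by
  have h1 : S ⊆ Finset.Icc ⌈a⌉ ⌊a + R⌋ := by
    intro x hx
    rw [Finset.mem_Icc]
    exact ⟨Int.ceil_le.2 (h x hx).1, Int.le_floor.2 (h x hx).2⟩
  have h2 := Finset.card_le_card h1
  rw [Int.card_Icc] at h2
  have h3 : (S.card : ℤ) ≤ max (⌊a + R⌋ + 1 - ⌈a⌉) 0 := by
    rw [← Int.toNat_eq_max]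
    exact_mod_cast h2
  have h4 : (S.card : ℝ) ≤ max ((⌊a + R⌋ : ℝ) + 1 - (⌈a⌉ : ℝ)) 0 := by
    exact_mod_cast h3
  refine le_trans h4 (max_le ?_ (by linarith))
  linarith [Int.floor_le (a + R), Int.le_ceil a]

theorem pair_ub : ∃ C : ℝ, 0 < C ∧ ∀ w w' : ℕ, CF w → CF w' → w ≠ w' → ∀ T s : ℝ, 1 ≤ T → 0 < s →
    s ≤ 1 → ((NP w w' s T).card : ℝ) ≤
      C * (α w * α w' * s * T + T ^ ((2 : ℝ) / 3) * s ^ ((1 : ℝ) / 3) + 1) := by
  classical
  refine ⟨4, by norm_num, ?_⟩
  intro w w' hw hw' hne T s hT hs0 hs1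
  have hT0 : 0 < T := by linarith
  have hτ1 := one_le_tau hw
  have hτ1' := one_le_tau hw'
  have hτ0 := tau_pos hw
  have hτ0' := tau_pos hw'
  have hα0 := alpha_pos hw
  have hα0' := alpha_pos hw'
  have hατ : α w * τ w = 1 := by
    rw [alpha_of_CF hw]
    field_simp
  have hατ' : α w' * τ w' = 1 := by
    rw [alpha_of_CF hw']
    field_simp
  have hX : 0 ≤ α w * α w' * s * T := by positivity
  set Y : ℝ := T ^ ((2 : ℝ) / 3) * s ^ ((1 : ℝ) / 3) with hYdef
  have hY : 0 ≤ Y := by positivity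
  have hY3 : Y ^ 3 = T ^ 2 * s := by
    rw [hYdef, mul_pow, ← Real.rpow_natCast (T ^ ((2 : ℝ) / 3)), ← Real.rpow_mul hT0.le,
      ← Real.rpow_natCast (s ^ ((1 : ℝ) / 3)), ← Real.rpow_mul hs0.le]
    norm_num
  set S := NP w w' s T with hS
  have hmem : ∀ j ∈ S, 1 ≤ j ∧ (j : ℝ) * τ w ≤ T ∧
      ∃ i : ℕ, (j : ℝ) * τ w < i * τ w' ∧ i * τ w' ≤ j * τ w + s := by
    intro j hj
    rw [hS, NP, Finset.mem_filter, Finset.mem_Icc] at hj
    exact ⟨hj.1.1, (floor_bound hw hT0.le).1 hj.1.2, hj.2⟩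
  have hch : ∀ j, j ∈ S → ∃ i : ℕ, (j : ℝ) * τ w < i * τ w' ∧ i * τ w' ≤ j * τ w + s :=
    fun j hj => (hmem j hj).2.2
  choose! i hi using hch
  have hdiff : ∀ x ∈ S, ∀ y ∈ S, x < y → i x < i y ∧
      |((y : ℝ) - x) * τ w - ((i y : ℝ) - i x) * τ w'| < s := by
    intro x hx y hy hxy
    obtain ⟨a1, a2⟩ := hi x hx
    obtain ⟨b1, b2⟩ := hi y hy
    have hlt : |((y : ℝ) - x) * τ w - ((i y : ℝ) - i x) * τ w'| < s := by
      rw [abs_lt]
      constructor <;> linarith
    refine ⟨?_, hlt⟩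
    rw [abs_lt] at hlt
    have h1 : (1 : ℝ) ≤ (y : ℝ) - x := by
      have : (x : ℝ) + 1 ≤ y := by exact_mod_cast hxy
      linarith
    have h2 : 1 ≤ ((y : ℝ) - x) * τ w := by nlinarith
    have h3 : 0 < ((i y : ℝ) - i x) * τ w' := by linarith
    have h4 : 0 < (i y : ℝ) - i x := (mul_pos_iff_of_pos_right hτ0').1 h3
    have h5 : (i x : ℝ) < i y := by linarith
    exact_mod_cast h5
  by_cases hcard : S.card ≤ 1
  · have h1 : (S.card : ℝ) ≤ 1 := by exact_mod_cast hcard
    linarith
  have hex : ∃ d : ℕ, 1 ≤ d ∧ ∃ e : ℕ, 1 ≤ e ∧ |(d : ℝ) * τ w - e * τ w'| < s := by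
    obtain ⟨x, hx, y, hy, hxy⟩ := Finset.one_lt_card.1 (not_le.1 hcard)
    have key : ∀ x ∈ S, ∀ y ∈ S, x < y →
        ∃ d : ℕ, 1 ≤ d ∧ ∃ e : ℕ, 1 ≤ e ∧ |(d : ℝ) * τ w - e * τ w'| < s := by
      intro x hx y hy hxy
      obtain ⟨h1, h2⟩ := hdiff x hx y hy hxy
      refine ⟨y - x, by omega, i y - i x, by omega, ?_⟩
      rw [Nat.cast_sub hxy.le, Nat.cast_sub h1.le]
      exact h2
    rcases lt_or_gt_of_ne hxy with h | h
    · exact key x hx y hy h
    · exact key y hy x hx h
  obtain ⟨hd1, e, he1, hde⟩ := Nat.find_spec hex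
  have hmin : ∀ d' : ℕ, 1 ≤ d' → (∃ e : ℕ, 1 ≤ e ∧ |(d' : ℝ) * τ w - e * τ w'| < s) →
      Nat.find hex ≤ d' := fun d' h1 h2 => Nat.find_min' hex ⟨h1, h2⟩
  generalize Nat.find hex = d at hd1 hde hmin
  have hd0 : (1 : ℝ) ≤ d := by exact_mod_cast hd1
  have hdτ : 1 ≤ d * τ w := by nlinarith
  -- every difference is at least `d`
  have hsep : ∀ x ∈ S, ∀ y ∈ S, x < y → d ≤ y - x := by
    intro x hx y hy hxy
    obtain ⟨h1, h2⟩ := hdiff x hx y hy hxy
    refine hmin (y - x) (by omega) ⟨i y - i x, by omega, ?_⟩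
    rw [Nat.cast_sub hxy.le, Nat.cast_sub h1.le]
    exact h2
  have hdT : d * τ w ≤ T := by
    obtain ⟨x, hx, y, hy, hxy⟩ := Finset.one_lt_card.1 (not_le.1 hcard)
    have key : ∀ x ∈ S, ∀ y ∈ S, x < y → (d : ℝ) * τ w ≤ T := by
      intro x hx y hy hxy
      have h1 := hsep x hx y hy hxy
      have h2 : (d : ℝ) ≤ y := by
        have : d ≤ y := by omega
        exact_mod_cast this
      exact le_trans (mul_le_mul_of_nonneg_right h2 hτ0.le) (hmem y hy).2.1
    rcases lt_or_gt_of_ne hxy with h | h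
    · exact key x hx y hy h
    · exact key y hy x hx h
  set δ : ℝ := |(d : ℝ) * τ w - e * τ w'| with hδ
  have hδlow : 1 / (12 * (d * τ w) ^ 2) ≤ δ := by
    have h1 : (e : ℝ) * τ w' ≤ 2 * (d * τ w) := by
      have h2 := (abs_lt.1 hde).1
      linarith
    have h3 := liou hw hw' hne (j := d) (i := e) (by omega) (by omega) (T := 2 * (d * τ w))
      (by linarith) h1
    have h4 : 3 * (2 * ((d : ℝ) * τ w)) ^ 2 = 12 * (d * τ w) ^ 2 := by ring
    rwa [h4] at h3
  have hδ0 : 0 < δ := lt_of_lt_of_le (by positivity) hδlow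
  set m : ℝ := min (s / δ) (T / (d * τ w)) with hm
  have hm0 : 0 ≤ m := le_min (by positivity) (by positivity)
  have hm3 : m ≤ 4 * Y := by
    have h1 : m ≤ s / δ := min_le_left _ _
    have h2 : m ≤ T / (d * τ w) := min_le_right _ _
    have h3 : m ^ 3 ≤ (4 * Y) ^ 3 := by
      have h4 : m ^ 2 ≤ (T / (d * τ w)) ^ 2 := pow_le_pow_left₀ hm0 h2 2
      have h5 : m ^ 3 ≤ (s / δ) * (T / (d * τ w)) ^ 2 := by
        have : m ^ 3 = m * m ^ 2 := by ring
        rw [this]
        exact mul_le_mul h1 h4 (by positivity) (by positivity)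
      have h6 : s / δ ≤ s * (12 * (d * τ w) ^ 2) := by
        rw [div_le_iff₀ hδ0]
        have h7 : 1 ≤ 12 * (d * τ w) ^ 2 * δ := by
          rw [div_le_iff₀ (by positivity)] at hδlow
          linarith
        nlinarith
      have h8 : (s / δ) * (T / (d * τ w)) ^ 2 ≤ s * (12 * (d * τ w) ^ 2) * (T / (d * τ w)) ^ 2 :=
        mul_le_mul_of_nonneg_right h6 (by positivity)
      have h9 : s * (12 * (d * τ w) ^ 2) * (T / (d * τ w)) ^ 2 = 12 * (T ^ 2 * s) := by
        have : (d * τ w : ℝ) ≠ 0 := by positivity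
        field_simp
      rw [mul_pow, hY3]
      have h10 : 0 ≤ T ^ 2 * s := by positivity
      linarith
    exact (pow_le_pow_iff_left₀ hm0 (by positivity) (by norm_num : (3 : ℕ) ≠ 0)).1 h3
  set R : ℝ := (T * δ * α w + d * s) * α w' with hR
  have hR0 : 0 ≤ R := by positivity
  -- the integer `D`
  let D : ℕ → ℤ := fun j => (j : ℤ) * e - (i j : ℤ) * d
  have hD : ∀ j ∈ S, (D j : ℝ) = ((j : ℝ) * (e * τ w' - d * τ w) - d * (i j * τ w' - j * τ w)) * α w' := by
    intro j _
    have h1 : (D j : ℝ) = (j : ℝ) * e - (i j : ℝ) * d := by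
      simp [D]
    rw [h1]
    have h2 : ((j : ℝ) * (e * τ w' - d * τ w) - d * (i j * τ w' - j * τ w)) * α w'
        = ((j : ℝ) * e - i j * d) * (α w' * τ w') := by ring
    rw [h2, hατ', mul_one]
  have himg : ((S.image D).card : ℝ) ≤ R + 1 := by
    have hjT : ∀ j ∈ S, (j : ℝ) ≤ T * α w := by
      intro j hj
      have h1 := mul_le_mul_of_nonneg_right (hmem j hj).2.1 hα0.le
      have h2 : (j : ℝ) * τ w * α w = j := by
        rw [mul_assoc, mul_comm (τ w), hατ, mul_one]
      linarith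
    rcases le_total ((d : ℝ) * τ w) (e * τ w') with hu | hu
    · have hδu : δ = e * τ w' - d * τ w := by
        rw [hδ, abs_sub_comm]
        exact abs_of_nonneg (by linarith)
      refine card_int (S.image D) (-(d * s * α w')) R hR0 ?_
      intro x hx
      obtain ⟨j, hj, rfl⟩ := Finset.mem_image.1 hx
      rw [hD j hj, ← hδu]
      obtain ⟨a1, a2⟩ := hi j hj
      have hj0 : (0 : ℝ) ≤ j := Nat.cast_nonneg j
      constructor
      · have h1 : -(d * s) ≤ (j : ℝ) * δ - d * (i j * τ w' - j * τ w) := by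
          have h2 : d * (i j * τ w' - j * τ w) ≤ d * s := mul_le_mul_of_nonneg_left (by linarith) (by linarith)
          have h3 : 0 ≤ (j : ℝ) * δ := by positivity
          linarith
        have h4 := mul_le_mul_of_nonneg_right h1 hα0'.le
        linarith
      · have h1 : (j : ℝ) * δ - d * (i j * τ w' - j * τ w) ≤ T * δ * α w := by
          have h2 : 0 ≤ d * (i j * τ w' - j * τ w) := mul_nonneg (by linarith) (by linarith)
          have h3 : (j : ℝ) * δ ≤ (T * α w) * δ := mul_le_mul_of_nonneg_right (hjT j hj) hδ0.le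
          linarith
        have h4 := mul_le_mul_of_nonneg_right h1 hα0'.le
        rw [hR]
        linarith
    · have hδu : δ = -(e * τ w' - d * τ w) := by
        rw [hδ, abs_of_nonneg (by linarith)]
        ring
      have hδu' : (e : ℝ) * τ w' - d * τ w = -δ := by rw [hδu]; ring
      refine card_int (S.image D) (-R) R hR0 ?_
      intro x hx
      obtain ⟨j, hj, rfl⟩ := Finset.mem_image.1 hx
      rw [hD j hj, hδu']
      obtain ⟨a1, a2⟩ := hi j hj
      have hj0 : (0 : ℝ) ≤ j := Nat.cast_nonneg j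
      constructor
      · have h1 : -(T * δ * α w + d * s) ≤ (j : ℝ) * (-δ) - d * (i j * τ w' - j * τ w) := by
          have h2 : d * (i j * τ w' - j * τ w) ≤ d * s := mul_le_mul_of_nonneg_left (by linarith) (by linarith)
          have h3 : (j : ℝ) * δ ≤ (T * α w) * δ := mul_le_mul_of_nonneg_right (hjT j hj) hδ0.le
          linarith
        have h4 := mul_le_mul_of_nonneg_right h1 hα0'.le
        rw [hR]
        linarith
      · have h1 : (j : ℝ) * (-δ) - d * (i j * τ w' - j * τ w) ≤ 0 := by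
          have h2 : 0 ≤ d * (i j * τ w' - j * τ w) := mul_nonneg (by linarith) (by linarith)
          have h3 : 0 ≤ (j : ℝ) * δ := by positivity
          linarith
        have h4 := mul_le_mul_of_nonneg_right h1 hα0'.le
        linarith
  have hfib : ∀ c ∈ S.image D, (S.filter (fun x => D x = c)).card ≤ ⌊m + 1⌋₊ := by
    intro c _
    rw [Nat.le_floor_iff (by linarith)]
    refine card_sep _ d (by omega) m hm0 ?_
    intro x hx y hy hxy
    rw [Finset.mem_filter] at hx hy
    refine ⟨hsep x hx.1 y hy.1 hxy, ?_⟩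
    obtain ⟨h1, h2⟩ := hdiff x hx.1 y hy.1 hxy
    have hDD : D x = D y := hx.2.trans hy.2.symm
    have h3 : ((y : ℝ) - x) * e = ((i y : ℝ) - i x) * d := by
      have h4 : (x : ℤ) * e - (i x : ℤ) * d = (y : ℤ) * e - (i y : ℤ) * d := hDD
      have h5 : (x : ℝ) * e - (i x : ℝ) * d = (y : ℝ) * e - (i y : ℝ) * d := by exact_mod_cast h4
      linarith
    have hJ0 : 0 ≤ (y : ℝ) - x := by
      have : (x : ℝ) ≤ y := by exact_mod_cast hxy.le
      linarith
    rw [hm, min_mul_of_nonneg _ _ (by linarith : (0 : ℝ) ≤ d)]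
    refine le_min ?_ ?_
    · have h6 : ((y : ℝ) - x) * δ = d * |((y : ℝ) - x) * τ w - ((i y : ℝ) - i x) * τ w'| := by
        have h7 : ((y : ℝ) - x) * δ = |((y : ℝ) - x) * (d * τ w - e * τ w')| := by
          rw [abs_mul, abs_of_nonneg hJ0]
        have h8 : d * |((y : ℝ) - x) * τ w - ((i y : ℝ) - i x) * τ w'|
            = |(d : ℝ) * (((y : ℝ) - x) * τ w - ((i y : ℝ) - i x) * τ w')| := by
          rw [abs_mul, abs_of_nonneg (by linarith : (0 : ℝ) ≤ d)]
        rw [h7, h8]
        congr 1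
        have h9 : ((y : ℝ) - x) * (d * τ w - e * τ w')
            = (y - x) * d * τ w - ((y - x) * e) * τ w' := by ring
        rw [h9, h3]
        ring
      rw [div_mul_eq_mul_div, le_div_iff₀ hδ0, h6, mul_comm s]
      exact mul_le_mul_of_nonneg_left h2.le (by linarith)
    · have h6 : T / (d * τ w) * d = T / τ w := by
        have : (d : ℝ) ≠ 0 := by positivity
        field_simp
      rw [h6, le_div_iff₀ hτ0]
      have h7 := (hmem y hy.1).2.1
      have h8 : 0 ≤ (x : ℝ) * τ w := by positivity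
      nlinarith
  have hmul := Finset.card_le_mul_card_image S ⌊m + 1⌋₊ hfib
  have hmulR : (S.card : ℝ) ≤ (m + 1) * (R + 1) := by
    calc (S.card : ℝ) ≤ ((⌊m + 1⌋₊ * (S.image D).card : ℕ) : ℝ) := by exact_mod_cast hmul
      _ = (⌊m + 1⌋₊ : ℝ) * ((S.image D).card : ℝ) := by push_cast; ring
      _ ≤ (m + 1) * (R + 1) :=
        mul_le_mul (Nat.floor_le (by linarith)) himg (by positivity) (by linarith)
  have hmR : m * R ≤ 2 * (α w * α w' * s * T) := by
    have h1 : m * (T * δ * α w * α w') ≤ α w * α w' * s * T := by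
      have h2 : m * δ ≤ s := by
        have h3 : m ≤ s / δ := min_le_left _ _
        rwa [le_div_iff₀ hδ0] at h3
      have h4 : m * (T * δ * α w * α w') = (m * δ) * (T * α w * α w') := by ring
      rw [h4]
      have h5 := mul_le_mul_of_nonneg_right h2 (by positivity : 0 ≤ T * α w * α w')
      linarith
    have h1' : m * (d * s * α w') ≤ α w * α w' * s * T := by
      have h2 : m * (d * τ w) ≤ T := by
        have h3 : m ≤ T / (d * τ w) := min_le_right _ _
        rwa [le_div_iff₀ (by positivity)] at h3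
      have h3 : m * d ≤ T * α w := by
        have h4 := mul_le_mul_of_nonneg_right h2 hα0.le
        have h5 : m * (d * τ w) * α w = m * d := by
          have : m * (d * τ w) * α w = m * d * (α w * τ w) := by ring
          rw [this, hατ, mul_one]
        linarith
      have h4 := mul_le_mul_of_nonneg_right h3 (by positivity : 0 ≤ s * α w')
      linarith
    have h6 : m * R = m * (T * δ * α w * α w') + m * (d * s * α w') := by
      rw [hR]; ring
    linarith
  have hRR : R ≤ 2 * (α w * α w' * s * T) := by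
    have h1 : T * δ * α w * α w' ≤ α w * α w' * s * T := by
      have h5 := mul_le_mul_of_nonneg_right hde.le (by positivity : 0 ≤ T * α w * α w')
      linarith
    have h1' : d * s * α w' ≤ α w * α w' * s * T := by
      have h3 : (d : ℝ) ≤ T * α w := by
        have h4 := mul_le_mul_of_nonneg_right hdT hα0.le
        have h5 : (d * τ w) * α w = (d : ℝ) := by
          rw [mul_assoc, mul_comm (τ w), hατ, mul_one]
        linarith
      have h4 := mul_le_mul_of_nonneg_right h3 (by positivity : 0 ≤ s * α w')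
      linarith
    have h6 : R = T * δ * α w * α w' + d * s * α w' := by
      rw [hR]; ring
    linarith
  have hfin : (m + 1) * (R + 1) = m * R + R + m + 1 := by ring
  linarith

end Pool.Agent.GL3
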