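import Pool.Agent.GL3.Defs

set_option autoImplicit false

/-!
# The representation `n = A w * j ^ 3`

Plan. p-adic valuations: for `w` cube-free `v_p(A w) = v_p(w) + 3` if `p ∣ w` and `0` otherwise, with
`v_p(w) <= 2`. Existence: for `n` 3-powerful take `w = ∏ p^(v_p(n) % 3)` (as a `Finsupp` product over
`n.factorization`, or by induction as in Pool/Agent/Pow3/Rep.lean: from `n = x^3 y^4 z^5` remove common
factors). Uniqueness: `v_p(A w * j^3) mod 3 = v_p(w)`, so `w = w'`, then `j^3 = j'^3`.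
-/

namespace Pool.Agent.GL3

open Finset Filter Topology

private theorem fac_rad {w p : ℕ} (hw : w ≠ 0) (hp : p.Prime) :
    (rad w).factorization p = if p ∣ w then 1 else 0 := by
  unfold rad
  rw [Nat.factorization_prod fun q hq => (Nat.prime_of_mem_primeFactors hq).ne_zero,
    Finsupp.finset_sum_apply]
  have h1 : ∀ q ∈ w.primeFactors, q.factorization p = if p = q then 1 else 0 := by
    intro q hq
    rw [(Nat.prime_of_mem_primeFactors hq).factorization]
    by_cases h : p = q
    · rw [if_pos h, h, Finsupp.single_eq_same]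
    · rw [if_neg h, Finsupp.single_eq_of_ne h]
  rw [Finset.sum_congr rfl h1, Finset.sum_ite_eq]
  by_cases h : p ∣ w
  · rw [if_pos h, if_pos (Nat.mem_primeFactors.2 ⟨hp, h, hw⟩)]
  · rw [if_neg h, if_neg fun h2 => h (Nat.dvd_of_mem_primeFactors h2)]

private theorem fac_A {w j p : ℕ} (hw : w ≠ 0) (hj : j ≠ 0) (hp : p.Prime) :
    (A w * j ^ 3).factorization p =
      w.factorization p + 3 * (if p ∣ w then 1 else 0) + 3 * j.factorization p := by
  have hr : rad w ≠ 0 := (rad_pos w).ne'
  unfold A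
  rw [Nat.factorization_mul (mul_ne_zero hw (pow_ne_zero 3 hr)) (pow_ne_zero 3 hj),
    Nat.factorization_mul hw (pow_ne_zero 3 hr), Nat.factorization_pow, Nat.factorization_pow,
    Finsupp.add_apply, Finsupp.add_apply, Finsupp.smul_apply, Finsupp.smul_apply,
    fac_rad hw hp, smul_eq_mul, smul_eq_mul]

private theorem dvd_iff_fac {w p : ℕ} (hw : w ≠ 0) (hp : p.Prime) :
    p ∣ w ↔ 1 ≤ w.factorization p := by
  rw [← hp.pow_dvd_iff_le_factorization hw, pow_one]

private theorem CF_fac {w p : ℕ} (hw : CF w) (hp : p.Prime) : w.factorization p ≤ 2 := by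
  by_contra h
  exact hw.2 p hp ((hp.pow_dvd_iff_le_factorization hw.1.ne').2 (by omega))

private theorem exists_fac (f : ℕ →₀ ℕ) (hf : ∀ p ∈ f.support, p.Prime) :
    ∃ m : ℕ, m ≠ 0 ∧ m.factorization = f :=
  ⟨f.prod (· ^ ·), Finset.prod_ne_zero_iff.2 fun p hp => pow_ne_zero _ (hf p hp).ne_zero,
    Nat.prod_pow_factorization_eq_self hf⟩

theorem exists_rep {n : ℕ} (h : P3 n) : ∃ w j : ℕ, CF w ∧ 0 < j ∧ n = A w * j ^ 3 := by
  have hn : n ≠ 0 := h.1.ne'
  have hsup : ∀ (g : ℕ → ℕ) (hg : g 0 = 0),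
      ∀ p ∈ (n.factorization.mapRange g hg).support, p.Prime := by
    intro g hg p hp
    have h1 : p ∈ n.factorization.support := Finsupp.support_mapRange hp
    rw [Nat.support_factorization] at h1
    exact Nat.prime_of_mem_primeFactors h1
  obtain ⟨w, hw0, hwf⟩ := exists_fac (n.factorization.mapRange (fun k => k % 3) rfl)
    (hsup _ rfl)
  obtain ⟨j, hj0, hjf⟩ := exists_fac
    (n.factorization.mapRange (fun k => (k - (k % 3 + 3 * (if k % 3 = 0 then 0 else 1))) / 3) rfl)
    (hsup _ rfl)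
  have hw1 : ∀ p, w.factorization p = n.factorization p % 3 := by
    intro p
    rw [hwf, Finsupp.mapRange_apply]
  have hj1 : ∀ p, j.factorization p = (n.factorization p - (n.factorization p % 3 +
      3 * (if n.factorization p % 3 = 0 then 0 else 1))) / 3 := by
    intro p
    rw [hjf, Finsupp.mapRange_apply]
  refine ⟨w, j, ⟨Nat.pos_of_ne_zero hw0, fun p hp hd => ?_⟩, Nat.pos_of_ne_zero hj0, ?_⟩
  · have h1 := (hp.pow_dvd_iff_le_factorization hw0).1 hd
    rw [hw1] at h1
    omega
  · have hAw : A w * j ^ 3 ≠ 0 :=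
      mul_ne_zero (mul_ne_zero hw0 (pow_ne_zero 3 (rad_pos w).ne')) (pow_ne_zero 3 hj0)
    refine Nat.eq_of_factorization_eq hn hAw fun p => ?_
    by_cases hp : p.Prime
    · rw [fac_A hw0 hj0 hp, hj1, hw1]
      have h2 : (p ∣ w) ↔ 1 ≤ n.factorization p % 3 := by
        rw [dvd_iff_fac hw0 hp, hw1]
      have h3 : n.factorization p = 0 ∨ 3 ≤ n.factorization p := by
        by_cases h4 : p ∣ n
        · exact Or.inr ((hp.pow_dvd_iff_le_factorization hn).1 (h.2 p hp h4))
        · exact Or.inl (Nat.factorization_eq_zero_of_not_dvd h4)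
      by_cases h5 : p ∣ w
      · have h6 := h2.1 h5
        rw [if_pos h5]
        split_ifs with h7
        · omega
        · omega
      · have h6 : ¬ 1 ≤ n.factorization p % 3 := fun h7 => h5 (h2.2 h7)
        rw [if_neg h5]
        split_ifs with h7
        · omega
        · omega
    · rw [Nat.factorization_eq_zero_of_not_prime n hp,
        Nat.factorization_eq_zero_of_not_prime _ hp]

theorem P3_rep {w j : ℕ} (hw : CF w) (hj : 0 < j) : P3 (A w * j ^ 3) := by
  refine ⟨Nat.mul_pos (A_pos hw) (pow_pos hj 3), fun p hp hd => ?_⟩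
  have h0 : A w * j ^ 3 ≠ 0 := (Nat.mul_pos (A_pos hw) (pow_pos hj 3)).ne'
  have h1 := (dvd_iff_fac h0 hp).1 hd
  rw [hp.pow_dvd_iff_le_factorization h0]
  rw [fac_A hw.1.ne' hj.ne' hp] at h1 ⊢
  have h2 := dvd_iff_fac hw.1.ne' hp
  by_cases h3 : p ∣ w
  · rw [if_pos h3]
    omega
  · rw [if_neg h3] at h1 ⊢
    have h4 : ¬ 1 ≤ w.factorization p := fun h5 => h3 (h2.2 h5)
    omega

theorem rep_unique {w w' j j' : ℕ} (hw : CF w) (hw' : CF w') (hj : 0 < j) (hj' : 0 < j')
    (h : A w * j ^ 3 = A w' * j' ^ 3) : w = w' ∧ j = j' := by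
  have key : ∀ p : ℕ, w.factorization p = w'.factorization p ∧
      j.factorization p = j'.factorization p := by
    intro p
    by_cases hp : p.Prime
    · have h1 := congrArg (fun m : ℕ => m.factorization p) h
      rw [fac_A hw.1.ne' hj.ne' hp, fac_A hw'.1.ne' hj'.ne' hp] at h1
      have h2 := dvd_iff_fac hw.1.ne' hp
      have h2' := dvd_iff_fac hw'.1.ne' hp
      have h3 := CF_fac hw hp
      have h3' := CF_fac hw' hp
      split_ifs at h1 with h4 h5 h5
      · have h6 := h2.1 h4
        have h7 := h2'.1 h5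
        omega
      · have h6 := h2.1 h4
        have h7 : ¬ 1 ≤ w'.factorization p := fun h8 => h5 (h2'.2 h8)
        omega
      · have h6 : ¬ 1 ≤ w.factorization p := fun h8 => h4 (h2.2 h8)
        have h7 := h2'.1 h5
        omega
      · have h6 : ¬ 1 ≤ w.factorization p := fun h8 => h4 (h2.2 h8)
        have h7 : ¬ 1 ≤ w'.factorization p := fun h8 => h5 (h2'.2 h8)
        omega
    · rw [Nat.factorization_eq_zero_of_not_prime _ hp,
        Nat.factorization_eq_zero_of_not_prime _ hp, Nat.factorization_eq_zero_of_not_prime _ hp,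
        Nat.factorization_eq_zero_of_not_prime _ hp]
      exact ⟨rfl, rfl⟩
  exact ⟨Nat.eq_of_factorization_eq hw.1.ne' hw'.1.ne' fun p => (key p).1,
    Nat.eq_of_factorization_eq hj.ne' hj'.ne' fun p => (key p).2⟩

end Pool.Agent.GL3
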